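import Mathlib

set_option autoImplicit false

namespace Pool.Agent.Lib.MP_3d22c5_an

open Matrix Topology

variable {n : ℕ} (G : SimpleGraph (Fin n))

/-- The domination preorder of a graph: `N(u) ⊆ N[v]`. -/
def Dom (u v : Fin n) : Prop := ∀ w, G.Adj u w → w = v ∨ G.Adj v w

theorem Dom.refl (u : Fin n) : Dom G u u := fun _ h => Or.inr h

variable {G}

theorem Dom.trans {u v w : Fin n} (h1 : Dom G u v) (h2 : Dom G v w) : Dom G u w := by
  intro x hx
  rcases h1 x hx with rfl | hvx
  · -- x = v, u adjacent to v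
    have hvu : G.Adj x u := hx.symm
    rcases h2 u hvu with rfl | hwu
    · right; exact hx
    · rcases h1 w hwu.symm with h | h
      · left; exact h.symm
      · right; exact h.symm
  · exact h2 x hvx

variable (G)

/-- Matrices supported on the domination preorder. -/
def Inc {K : Type} [Zero K] (X : Matrix (Fin n) (Fin n) K) : Prop :=
  ∀ u v, X u v ≠ 0 → Dom G u v

/-- Matrices which are symmetric on the edges of the graph. -/
def EdgeSym {K : Type} (r : Matrix (Fin n) (Fin n) K) : Prop :=
  ∀ u w, G.Adj u w → r u w = r w u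

variable {G}

theorem adj_of_dom {a b v w : Fin n} (h : G.Adj a b) (h1 : Dom G a v) (h2 : Dom G b w) :
    v = w ∨ G.Adj v w := by
  rcases h1 b h with rfl | hvb
  · rcases h2 a h.symm with rfl | hwa
    · right; exact h.symm
    · rcases h1 w hwa.symm with h' | h'
      · left; exact h'.symm
      · right; exact h'
  · rcases h2 v hvb.symm with h' | h'
    · left; exact h'
    · right; exact h'.symm

theorem Inc.edgeSym {K : Type} [Field K] {X r : Matrix (Fin n) (Fin n) K}
    (hX : Inc G X) (hr : EdgeSym G r) : EdgeSym G (X * r * Xᵀ) := by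
  intro a b hab
  have h1 : ∀ a b, (X * r * Xᵀ) a b = ∑ v, ∑ w, X a v * r v w * X b w := by
    intro a b
    simp only [Matrix.mul_apply, Matrix.transpose_apply, Finset.sum_mul]
    rw [Finset.sum_comm]
  rw [h1, h1, Finset.sum_comm]
  apply Finset.sum_congr rfl
  intro w _
  apply Finset.sum_congr rfl
  intro v _
  by_cases hv : X a v = 0
  · rw [hv]; ring
  by_cases hw : X b w = 0
  · rw [hw]; ring
  have : r v w = r w v := by
    rcases adj_of_dom hab (hX a v hv) (hX b w hw) with h | h
    · rw [h]
    · exact hr v w h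
  rw [this]; ring

theorem edgeSym_single {K : Type} [Field K] {v w : Fin n} (h : ¬ G.Adj v w) :
    EdgeSym G (Matrix.single v w (1 : K)) := by
  intro a b hab
  rw [Matrix.single_apply_of_ne, Matrix.single_apply_of_ne]
  · rintro ⟨rfl, rfl⟩; exact h hab.symm
  · rintro ⟨rfl, rfl⟩; exact h hab

theorem inc_of_deriv {K : Type} [Field K] {X : Matrix (Fin n) (Fin n) K}
    (h : ∀ r, EdgeSym G r → EdgeSym G (X * r + r * Xᵀ)) : Inc G X := by
  intro u v huv
  by_contra hd
  unfold Dom at hd
  push Not at hd
  obtain ⟨w, huw, hwv, hvw⟩ := hd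
  have huv' : u ≠ v := by
    rintro rfl
    exact hvw huw
  have := h _ (edgeSym_single (K := K) hvw) u w huw
  have e1 : (X * Matrix.single v w (1 : K)) u w = X u v := by
    simp
  have e2 : (Matrix.single v w (1 : K) * Xᵀ) u w = 0 := by
    rw [Matrix.mul_apply]
    apply Finset.sum_eq_zero
    intro k _
    rw [Matrix.single_apply_of_ne, zero_mul]
    rintro ⟨h1, _⟩
    exact huv' h1.symm
  have e3 : (X * Matrix.single v w (1 : K)) w u = 0 := by
    rw [Matrix.mul_apply]
    apply Finset.sum_eq_zero
    intro k _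
    rw [Matrix.single_apply_of_ne, mul_zero]
    rintro ⟨_, h1⟩
    exact huw.ne h1.symm
  have e4 : (Matrix.single v w (1 : K) * Xᵀ) w u = 0 := by
    rw [Matrix.mul_apply]
    apply Finset.sum_eq_zero
    intro k _
    rw [Matrix.single_apply_of_ne, zero_mul]
    rintro ⟨h1, _⟩
    exact hwv h1.symm
  rw [Matrix.add_apply, Matrix.add_apply, e1, e2, e3, e4, add_zero, add_zero] at this
  exact huv this

theorem Inc.mul {K : Type} [Field K] {X Y : Matrix (Fin n) (Fin n) K}
    (hX : Inc G X) (hY : Inc G Y) : Inc G (X * Y) := by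
  intro u v h
  rw [Matrix.mul_apply] at h
  obtain ⟨w, _, hw⟩ := Finset.exists_ne_zero_of_sum_ne_zero h
  exact (hX u w (left_ne_zero_of_mul hw)).trans (hY w v (right_ne_zero_of_mul hw))

theorem Inc.inv {K : Type} [Field K] {X : Matrix (Fin n) (Fin n) K}
    (hX : Inc G X) (hdet : IsUnit X.det) : Inc G X⁻¹ := by
  classical
  intro u v h
  by_contra hd
  apply h
  let _ := X.invertibleOfIsUnitDet hdet
  have hbt : BlockTriangular X (fun i => if Dom G i v then (0 : ℕ) else 1) := by
    intro i j hij
    by_contra hne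
    have hij' := hX i j hne
    by_cases hj : Dom G j v
    · have hi := hij'.trans hj
      simp [hi, hj] at hij
    · simp only [if_neg hj] at hij
      split_ifs at hij <;> omega
  have := blockTriangular_inv_of_blockTriangular hbt
  apply this
  simp only [if_pos (Dom.refl G v), if_neg hd]
  norm_num

theorem inc_one {K : Type} [Field K] : Inc G (1 : Matrix (Fin n) (Fin n) K) := by
  intro u v h
  by_cases huv : u = v
  · rw [huv]; exact Dom.refl G v
  · exact absurd (Matrix.one_apply_ne huv) h

theorem inc_diagonal {K : Type} [Field K] (d : Fin n → K) : Inc G (diagonal d) := by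
  intro u v h
  by_cases huv : u = v
  · rw [huv]; exact Dom.refl G v
  · exact absurd (Matrix.diagonal_apply_ne d huv) h

theorem Inc.deriv {K : Type} [Field K] {X r : Matrix (Fin n) (Fin n) K}
    (hX : Inc G X) (hr : EdgeSym G r) : EdgeSym G (X * r + r * Xᵀ) := by
  have h1 : Inc G (1 + X) := by
    intro u v h
    by_cases h1 : (1 : Matrix (Fin n) (Fin n) K) u v = 0
    · apply hX u v
      rw [Matrix.add_apply, h1, zero_add] at h
      exact h
    · exact inc_one u v h1
  have h2 := h1.edgeSym hr
  have h3 := hX.edgeSym hr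
  intro a b hab
  have e2 := h2 a b hab
  have e3 := h3 a b hab
  have e4 := hr a b hab
  have key : (1 + X) * r * (1 + X)ᵀ = r + (X * r + r * Xᵀ) + X * r * Xᵀ := by
    rw [Matrix.transpose_add, Matrix.transpose_one]
    noncomm_ring
  rw [key] at e2
  simp only [Matrix.add_apply] at e2 ⊢
  rw [e3, e4] at e2
  linear_combination e2

/-- Perturbation lemma. -/
theorem eventually_diag :
    ∀ᶠ X in 𝓝 (diagonal (fun v : Fin n => ((v : ℕ) : ℝ))), Inc G X →
      ∃ (P : Matrix (Fin n) (Fin n) ℝ) (d : Fin n → ℝ), Inc G P ∧ IsUnit P.det ∧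
        X * P = P * diagonal d ∧ Function.Injective d := by
  classical
  -- principal minors of `c - X`
  let F : Matrix (Fin n) (Fin n) ℝ → Fin n → ℝ → ℝ := fun X v c =>
    (Matrix.det ((c • (1 : Matrix (Fin n) (Fin n) ℝ) - X).submatrix
      (fun u : {u // Dom G u v} => (u : Fin n)) (fun u : {u // Dom G u v} => (u : Fin n))))
  have hF0 : ∀ v c, F (diagonal (fun v : Fin n => ((v : ℕ) : ℝ))) v c
      = ∏ u : {u // Dom G u v}, (c - ((u : Fin n) : ℕ)) := by
    intro v c
    have : ((c • (1 : Matrix (Fin n) (Fin n) ℝ) - diagonal (fun v : Fin n => ((v : ℕ) : ℝ))).submatrix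
      (fun u : {u // Dom G u v} => (u : Fin n)) (fun u : {u // Dom G u v} => (u : Fin n)))
      = diagonal (fun u : {u // Dom G u v} => c - (((u : Fin n) : ℕ) : ℝ)) := by
      ext a b
      by_cases hab : a = b
      · subst hab; simp
      · have hab' : (a : Fin n) ≠ b := fun h => hab (Subtype.ext h)
        simp [Matrix.one_apply_ne hab', Matrix.diagonal_apply_ne _ hab',
          Matrix.diagonal_apply_ne _ hab]
    change Matrix.det _ = _
    rw [this, Matrix.det_diagonal]
  have hcont : ∀ v c, Continuous (fun X => F X v c) := by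
    intro v c
    apply Continuous.matrix_det
    apply Continuous.matrix_submatrix
    exact continuous_const.sub continuous_id
  have hneg : ∀ v : Fin n, F (diagonal (fun v : Fin n => ((v : ℕ) : ℝ))) v ((v : ℕ) - 1 / 2)
      * F (diagonal (fun v : Fin n => ((v : ℕ) : ℝ))) v ((v : ℕ) + 1 / 2) < 0 := by
    intro v
    rw [hF0, hF0, ← Finset.prod_mul_distrib]
    have hv : (⟨v, Dom.refl G v⟩ : {u // Dom G u v}) ∈ Finset.univ := Finset.mem_univ _
    rw [← Finset.mul_prod_erase _ _ hv]
    apply mul_neg_of_neg_of_pos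
    · simp only
      nlinarith
    · apply Finset.prod_pos
      intro u hu
      have hne : (u : Fin n) ≠ v := by
        intro h
        exact (Finset.ne_of_mem_erase hu) (Subtype.ext h)
      have hne' : ((u : Fin n) : ℤ) ≠ (v : ℤ) := by
        intro h
        apply hne
        ext
        exact_mod_cast h
      have h1 : (1 : ℤ) ≤ (((v : ℕ) : ℤ) - ((u : Fin n) : ℕ)) ^ 2 := by
        have : (((v : ℕ) : ℤ) - ((u : Fin n) : ℕ)) ≠ 0 := by
          intro h
          apply hne'
          omega
        have := sq_pos_of_ne_zero this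
        omega
      have h2 : (1 : ℝ) ≤ (((v : ℕ) : ℝ) - ((u : Fin n) : ℕ)) ^ 2 := by exact_mod_cast h1
      nlinarith
  have hev : ∀ᶠ X in 𝓝 (diagonal (fun v : Fin n => ((v : ℕ) : ℝ))), ∀ v : Fin n,
      F X v ((v : ℕ) - 1 / 2) * F X v ((v : ℕ) + 1 / 2) < 0 := by
    rw [Filter.eventually_all]
    intro v
    have hc : Continuous (fun X => F X v ((v : ℕ) - 1 / 2) * F X v ((v : ℕ) + 1 / 2)) :=
      (hcont _ _).mul (hcont _ _)
    exact hc.continuousAt.eventually_lt continuousAt_const (hneg v)
  filter_upwards [hev] with X hX hInc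
  -- find eigenvalues
  have hroot : ∀ v : Fin n, ∃ c : ℝ, |c - (v : ℕ)| < 1 / 2 ∧ F X v c = 0 := by
    intro v
    have hcontc : Continuous (fun c : ℝ => F X v c) := by
      apply Continuous.matrix_det
      apply Continuous.matrix_submatrix
      exact (continuous_id.smul continuous_const).sub continuous_const
    have hab : ((v : ℕ) : ℝ) - 1 / 2 ≤ (v : ℕ) + 1 / 2 := by linarith
    have hprod := hX v
    have hne1 : F X v ((v : ℕ) - 1 / 2) ≠ 0 := by
      intro h; rw [h, zero_mul] at hprod; exact lt_irrefl _ hprod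
    have hne2 : F X v ((v : ℕ) + 1 / 2) ≠ 0 := by
      intro h; rw [h, mul_zero] at hprod; exact lt_irrefl _ hprod
    have : ∃ c ∈ Set.Icc (((v : ℕ) : ℝ) - 1 / 2) ((v : ℕ) + 1 / 2), F X v c = 0 := by
      rcases mul_neg_iff.mp hprod with ⟨h1, h2⟩ | ⟨h1, h2⟩
      · exact intermediate_value_Icc' hab hcontc.continuousOn ⟨h2.le, h1.le⟩
      · exact intermediate_value_Icc hab hcontc.continuousOn ⟨h1.le, h2.le⟩
    obtain ⟨c, ⟨hc1, hc2⟩, hc3⟩ := this
    refine ⟨c, ?_, hc3⟩
    rw [abs_lt]
    constructor
    · rcases hc1.lt_or_eq with h | h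
      · linarith
      · exfalso; rw [← h] at hc3; exact hne1 hc3
    · rcases hc2.lt_or_eq with h | h
      · linarith
      · exfalso; rw [h] at hc3; exact hne2 hc3
  choose d hd1 hd2 using hroot
  have hdinj : Function.Injective d := by
    intro u v huv
    have h1 := abs_lt.mp (hd1 u)
    have h2 := abs_lt.mp (hd1 v)
    rw [huv] at h1
    have h3 : ((u : ℕ) : ℝ) < (v : ℕ) + 1 := by linarith
    have h4 : ((v : ℕ) : ℝ) < (u : ℕ) + 1 := by linarith
    have h5 : (u : ℕ) < v + 1 := by exact_mod_cast h3
    have h6 : (v : ℕ) < u + 1 := by exact_mod_cast h4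
    ext
    omega
  have hvec : ∀ v : Fin n, ∃ p : Fin n → ℝ, p ≠ 0 ∧ (∀ u, p u ≠ 0 → Dom G u v) ∧
      X *ᵥ p = d v • p := by
    intro v
    obtain ⟨x, hx0, hx⟩ := Matrix.exists_mulVec_eq_zero_iff.mpr (hd2 v)
    let p : Fin n → ℝ := fun u => if h : Dom G u v then x ⟨u, h⟩ else 0
    have hp : ∀ u, p u ≠ 0 → Dom G u v := by
      intro u hu
      by_contra h
      exact hu (by simp [p, h])
    refine ⟨p, ?_, hp, ?_⟩
    · intro h
      apply hx0
      ext ⟨u, hu⟩
      have := congrFun h u
      simpa [p, hu] using this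
    · ext a
      by_cases ha : Dom G a v
      · have h1 := congrFun hx ⟨a, ha⟩
        rw [Matrix.mulVec, dotProduct] at h1
        simp only [Matrix.submatrix_apply, Matrix.sub_apply, Matrix.smul_apply,
          Pi.zero_apply, smul_eq_mul] at h1
        have h2 : ∑ u : {u // Dom G u v}, (d v * (1 : Matrix (Fin n) (Fin n) ℝ) a u - X a u) * x u
            = ∑ u : Fin n, (d v * (1 : Matrix (Fin n) (Fin n) ℝ) a u - X a u) * p u := by
          rw [← Finset.sum_filter_of_ne (s := Finset.univ) (p := fun u => Dom G u v)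
            (f := fun u : Fin n => (d v * (1 : Matrix (Fin n) (Fin n) ℝ) a u - X a u) * p u)
            (fun u _ hu => hp u (right_ne_zero_of_mul hu)),
            Finset.sum_subtype _ (p := fun u => Dom G u v) (fun u => by simp)]
          apply Finset.sum_congr rfl
          intro u _
          have : p u = x u := by simp [p, u.2]
          rw [this]
        rw [h2] at h1
        simp only [sub_mul, Finset.sum_sub_distrib] at h1
        rw [sub_eq_zero] at h1
        rw [Matrix.mulVec, dotProduct, ← h1]
        simp [Matrix.one_apply, Finset.sum_ite_eq]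
      · have : (d v • p) a = 0 := by simp [p, ha]
        rw [this, Matrix.mulVec, dotProduct]
        apply Finset.sum_eq_zero
        intro u _
        by_cases hu : p u = 0
        · rw [hu, mul_zero]
        · have h1 : X a u = 0 := by
            by_contra hne
            exact ha ((hInc a u hne).trans (hp u hu))
          rw [h1, zero_mul]
  choose p hp0 hp1 hp2 using hvec
  refine ⟨Matrix.of (fun u v => p v u), d, fun u v h => hp1 v u h, ?_, ?_, hdinj⟩
  · rw [← Matrix.isUnit_iff_isUnit_det, ← Matrix.linearIndependent_cols_iff_isUnit]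
    apply Module.End.eigenvectors_linearIndependent' (Matrix.toLin' X) d hdinj
    intro v
    refine ⟨?_, hp0 v⟩
    rw [Module.End.mem_eigenspace_iff, Matrix.toLin'_apply]
    exact hp2 v
  · ext a v
    rw [Matrix.mul_diagonal]
    have := congrFun (hp2 v) a
    rw [Pi.smul_apply, smul_eq_mul, mul_comm] at this
    exact this

end Pool.Agent.Lib.MP_3d22c5_an
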