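import Mathlib
import Pool.Agent.Lib.MP_3d22c5_an.Incidence

set_option autoImplicit false

namespace Pool.Agent.Lib.MP_3d22c5_an

open Matrix Topology

variable {n : ℕ}

/-- Apply a `ℚ`-linear functional of `ℝ` entrywise. -/
noncomputable def phim (φ : ℝ →ₗ[ℚ] ℚ) (X : Matrix (Fin n) (Fin n) ℝ) :
    Matrix (Fin n) (Fin n) ℚ := X.map φ

/-- Rational matrices as real matrices. -/
noncomputable def toR (X : Matrix (Fin n) (Fin n) ℚ) : Matrix (Fin n) (Fin n) ℝ :=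
  X.map (algebraMap ℚ ℝ)

theorem toR_mul (X Y : Matrix (Fin n) (Fin n) ℚ) : toR (X * Y) = toR X * toR Y :=
  Matrix.map_mul

theorem toR_add (X Y : Matrix (Fin n) (Fin n) ℚ) : toR (X + Y) = toR X + toR Y := by
  ext i j; simp [toR]

theorem toR_sub (X Y : Matrix (Fin n) (Fin n) ℚ) : toR (X - Y) = toR X - toR Y := by
  ext i j; simp [toR]

theorem toR_transpose (X : Matrix (Fin n) (Fin n) ℚ) : toR Xᵀ = (toR X)ᵀ := rfl

theorem phim_mul_toR (φ : ℝ →ₗ[ℚ] ℚ) (X : Matrix (Fin n) (Fin n) ℝ)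
    (Y : Matrix (Fin n) (Fin n) ℚ) : phim φ (X * toR Y) = phim φ X * Y := by
  ext i j
  simp only [phim, toR, Matrix.map_apply, Matrix.mul_apply, map_sum]
  apply Finset.sum_congr rfl
  intro k _
  have : X i k * algebraMap ℚ ℝ (Y k j) = (Y k j) • X i k := by
    rw [Algebra.smul_def, mul_comm]
  rw [this, map_smul, smul_eq_mul, mul_comm]

theorem phim_toR_mul (φ : ℝ →ₗ[ℚ] ℚ) (X : Matrix (Fin n) (Fin n) ℝ)
    (Y : Matrix (Fin n) (Fin n) ℚ) : phim φ (toR Y * X) = Y * phim φ X := by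
  ext i j
  simp only [phim, toR, Matrix.map_apply, Matrix.mul_apply, map_sum]
  apply Finset.sum_congr rfl
  intro k _
  rw [← Algebra.smul_def, map_smul, smul_eq_mul]

theorem phim_add (φ : ℝ →ₗ[ℚ] ℚ) (X Y : Matrix (Fin n) (Fin n) ℝ) :
    phim φ (X + Y) = phim φ X + phim φ Y := by
  ext i j; simp [phim]

theorem phim_sub (φ : ℝ →ₗ[ℚ] ℚ) (X Y : Matrix (Fin n) (Fin n) ℝ) :
    phim φ (X - Y) = phim φ X - phim φ Y := by
  ext i j; simp [phim]

theorem phim_transpose (φ : ℝ →ₗ[ℚ] ℚ) (X : Matrix (Fin n) (Fin n) ℝ) :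
    phim φ Xᵀ = (phim φ X)ᵀ := rfl

theorem trace_phim (φ : ℝ →ₗ[ℚ] ℚ) (X : Matrix (Fin n) (Fin n) ℝ) :
    (phim φ X).trace = φ X.trace := by
  simp [Matrix.trace, phim]

theorem trace_toR (X : Matrix (Fin n) (Fin n) ℚ) :
    (toR X).trace = (X.trace : ℚ) := by
  simp [Matrix.trace, toR]

theorem decomp (X : Matrix (Fin n) (Fin n) ℝ) :
    ∃ (ι : Type) (_ : Fintype ι) (r : ι → ℝ) (φ : ι → (ℝ →ₗ[ℚ] ℚ)),
      X = ∑ α, r α • toR (phim (φ α) X) := by
  classical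
  let B := Module.Basis.ofVectorSpace ℚ ℝ
  let F : Finset (Module.Basis.ofVectorSpaceIndex ℚ ℝ) :=
    Finset.univ.biUnion fun i : Fin n => Finset.univ.biUnion fun j : Fin n =>
      (B.repr (X i j)).support
  refine ⟨F, inferInstance, fun α => B α, fun α => B.coord α, ?_⟩
  ext i j
  have hsub : (B.repr (X i j)).support ⊆ F := by
    intro a ha
    rw [Finset.mem_biUnion]
    refine ⟨i, Finset.mem_univ _, ?_⟩
    rw [Finset.mem_biUnion]
    exact ⟨j, Finset.mem_univ _, ha⟩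
  have h1 : X i j = ∑ α ∈ F, (B.repr (X i j) α) • B α := by
    conv_lhs => rw [← B.linearCombination_repr (X i j)]
    rw [Finsupp.linearCombination_apply, Finsupp.sum_of_support_subset _ hsub]
    simp
  rw [Matrix.sum_apply, h1, ← Finset.sum_coe_sort F]
  apply Finset.sum_congr rfl
  intro α _
  simp only [Matrix.smul_apply, toR, phim, Matrix.map_apply, smul_eq_mul,
    Module.Basis.coord_apply]
  rw [Algebra.smul_def, mul_comm]

theorem approx (S : Submodule ℝ (Matrix (Fin n) (Fin n) ℝ))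
    (hS : ∀ X ∈ S, ∀ φ : ℝ →ₗ[ℚ] ℚ, toR (phim φ X) ∈ S) (X : Matrix (Fin n) (Fin n) ℝ)
    (hX : X ∈ S) (U : Set (Matrix (Fin n) (Fin n) ℝ)) (hU : U ∈ 𝓝 X) :
    ∃ Y : Matrix (Fin n) (Fin n) ℚ, toR Y ∈ S ∧ toR Y ∈ U := by
  obtain ⟨ι, _, r, φ, hr⟩ := decomp X
  let f : (ι → ℝ) → Matrix (Fin n) (Fin n) ℝ := fun t => ∑ α, t α • toR (phim (φ α) X)
  have hf : Continuous f := by
    apply continuous_finsetSum
    intro α _
    exact (continuous_apply α).smul continuous_const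
  have hfr : f r = X := hr.symm
  have hV : f ⁻¹' U ∈ 𝓝 r := hf.continuousAt.preimage_mem_nhds (by rw [hfr]; exact hU)
  have hdense : DenseRange (Pi.map (fun (_ : ι) (q : ℚ) => (q : ℝ))) :=
    DenseRange.piMap (fun _ => Rat.denseRange_cast)
  obtain ⟨q, hq⟩ := hdense.exists_mem_open isOpen_interior ⟨r, mem_interior_iff_mem_nhds.mpr hV⟩
  have hq' := interior_subset hq
  refine ⟨∑ α, q α • phim (φ α) X, ?_, ?_⟩
  · have : toR (∑ α, q α • phim (φ α) X) = ∑ α, ((q α : ℚ) : ℝ) • toR (phim (φ α) X) := by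
      ext i j
      simp [toR, Matrix.sum_apply]
    rw [this]
    exact Submodule.sum_mem _ (fun α _ => S.smul_mem _ (hS X hX _))
  · have : toR (∑ α, q α • phim (φ α) X) = f (Pi.map (fun (_ : ι) (q : ℚ) => (q : ℝ)) q) := by
      ext i j
      simp [toR, f, Matrix.sum_apply]
    rw [this]
    exact hq'

end Pool.Agent.Lib.MP_3d22c5_an
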