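import Mathlib
import Pool.Agent.Lib.MP_3d22c5_an.Rational

set_option autoImplicit false
set_option maxHeartbeats 1000000

namespace Pool.Agent.Lib.MP_3d22c5_an

open Matrix Topology

variable {n : ℕ} (G : SimpleGraph (Fin n))

/-- `Q`-twisted incidence algebra as a real subspace. -/
def AlgQ (Q : Matrix (Fin n) (Fin n) ℝ) : Submodule ℝ (Matrix (Fin n) (Fin n) ℝ) where
  carrier := {X | Inc G (Q * X * Q⁻¹)}
  add_mem' := by
    intro a b ha hb u v h
    rw [mul_add, add_mul, Matrix.add_apply] at h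
    by_cases h1 : (Q * a * Q⁻¹) u v = 0
    · rw [h1, zero_add] at h
      exact hb u v h
    · exact ha u v h1
  zero_mem' := by
    intro u v h
    simp at h
  smul_mem' := by
    intro c x hx u v h
    rw [Matrix.mul_smul, Matrix.smul_mul, Matrix.smul_apply] at h
    exact hx u v (right_ne_zero_of_mul h)

/-- Real matrices `r` for which `Q r Qᵀ` is edge symmetric. -/
def EdgeQ (Q : Matrix (Fin n) (Fin n) ℝ) : Submodule ℝ (Matrix (Fin n) (Fin n) ℝ) where
  carrier := {r | EdgeSym G (Q * r * Qᵀ)}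
  add_mem' := by
    intro a b ha hb u v h
    rw [mul_add, add_mul, Matrix.add_apply, Matrix.add_apply, ha u v h, hb u v h]
  zero_mem' := by
    intro u v h
    simp
  smul_mem' := by
    intro c x hx u v h
    rw [Matrix.mul_smul, Matrix.smul_mul, Matrix.smul_apply, Matrix.smul_apply, hx u v h]

variable {G}

theorem mem_AlgQ {Q X : Matrix (Fin n) (Fin n) ℝ} : X ∈ AlgQ G Q ↔ Inc G (Q * X * Q⁻¹) := Iff.rfl

theorem mem_EdgeQ {Q X : Matrix (Fin n) (Fin n) ℝ} :
    X ∈ EdgeQ G Q ↔ EdgeSym G (Q * X * Qᵀ) := Iff.rfl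

/-- key rationality of the twisted incidence algebra -/
theorem algQ_rational {Q : Matrix (Fin n) (Fin n) ℝ} (hQ : IsUnit Q.det)
    (hK : ∀ r ∈ EdgeQ G Q, ∀ φ : ℝ →ₗ[ℚ] ℚ, toR (phim φ r) ∈ EdgeQ G Q)
    (X : Matrix (Fin n) (Fin n) ℝ) (hX : X ∈ AlgQ G Q) (φ : ℝ →ₗ[ℚ] ℚ) :
    toR (phim φ X) ∈ AlgQ G Q := by
  have hQ1 : Q⁻¹ * Q = 1 := Matrix.nonsing_inv_mul Q hQ
  have hQ2 : Q * Q⁻¹ = 1 := Matrix.mul_nonsing_inv Q hQ
  have hQT1 : Qᵀ * Q⁻¹ᵀ = 1 := by rw [← Matrix.transpose_mul, hQ1, Matrix.transpose_one]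
  have hQT2 : Q⁻¹ᵀ * Qᵀ = 1 := by rw [← Matrix.transpose_mul, hQ2, Matrix.transpose_one]
  -- derivation property on `EdgeQ`
  have hder : ∀ r ∈ EdgeQ G Q, X * r + r * Xᵀ ∈ EdgeQ G Q := by
    intro r hr
    rw [mem_EdgeQ] at hr ⊢
    rw [mem_AlgQ] at hX
    have := hX.deriv hr
    have e : Q * X * Q⁻¹ * (Q * r * Qᵀ) + Q * r * Qᵀ * (Q * X * Q⁻¹)ᵀ
        = Q * (X * r + r * Xᵀ) * Qᵀ := by
      have e1 : Q * X * Q⁻¹ * (Q * r * Qᵀ) = Q * (X * r) * Qᵀ := by
        calc Q * X * Q⁻¹ * (Q * r * Qᵀ) = Q * X * (Q⁻¹ * Q) * r * Qᵀ := by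
              simp only [mul_assoc]
          _ = _ := by rw [hQ1, mul_one]; simp only [mul_assoc]
      have e2 : Q * r * Qᵀ * (Q * X * Q⁻¹)ᵀ = Q * (r * Xᵀ) * Qᵀ := by
        rw [Matrix.transpose_mul, Matrix.transpose_mul]
        calc Q * r * Qᵀ * (Q⁻¹ᵀ * (Xᵀ * Qᵀ)) = Q * r * (Qᵀ * Q⁻¹ᵀ) * Xᵀ * Qᵀ := by
              simp only [mul_assoc]
          _ = _ := by rw [hQT1, mul_one]; simp only [mul_assoc]
      rw [e1, e2, ← add_mul, ← mul_add]
    rwa [e] at this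
  rw [mem_AlgQ]
  apply inc_of_deriv
  intro r' hr'
  set r := Q⁻¹ * r' * Q⁻¹ᵀ with hrdef
  have hr : Q * r * Qᵀ = r' := by
    calc Q * (Q⁻¹ * r' * Q⁻¹ᵀ) * Qᵀ = (Q * Q⁻¹) * r' * (Q⁻¹ᵀ * Qᵀ) := by simp only [mul_assoc]
      _ = r' := by rw [hQ2, hQT2, one_mul, mul_one]
  have hrE : r ∈ EdgeQ G Q := by rw [mem_EdgeQ, hr]; exact hr'
  set Y := toR (phim φ X) with hY
  have goalE : Y * r + r * Yᵀ ∈ EdgeQ G Q := by
    obtain ⟨ι, _, c, ψ, hdec⟩ := decomp r
    have hrat : ∀ ψ : ℝ →ₗ[ℚ] ℚ, Y * toR (phim ψ r) + toR (phim ψ r) * Yᵀ ∈ EdgeQ G Q := by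
      intro ψ
      have h1 := hK r hrE ψ
      have h2 := hder _ h1
      have h3 := hK _ h2 φ
      have e : toR (phim φ (X * toR (phim ψ r) + toR (phim ψ r) * Xᵀ))
          = Y * toR (phim ψ r) + toR (phim ψ r) * Yᵀ := by
        rw [phim_add, phim_mul_toR, phim_toR_mul, toR_add, toR_mul, toR_mul, phim_transpose,
          toR_transpose]
      rwa [e] at h3
    have e : Y * r + r * Yᵀ = ∑ α, c α • (Y * toR (phim (ψ α) r) + toR (phim (ψ α) r) * Yᵀ) := by
      conv_lhs => rw [hdec]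
      simp only [Matrix.mul_sum, Matrix.sum_mul, smul_add, Finset.sum_add_distrib,
        Matrix.mul_smul, Matrix.smul_mul]
    rw [e]
    exact Submodule.sum_mem _ (fun α _ => Submodule.smul_mem _ _ (hrat _))
  rw [mem_EdgeQ] at goalE
  have e : Q * (Y * r + r * Yᵀ) * Qᵀ = Q * Y * Q⁻¹ * r' + r' * (Q * Y * Q⁻¹)ᵀ := by
    rw [← hr, Matrix.transpose_mul, Matrix.transpose_mul]
    have e1 : Q * Y * Q⁻¹ * (Q * r * Qᵀ) = Q * (Y * r) * Qᵀ := by
      calc Q * Y * Q⁻¹ * (Q * r * Qᵀ) = Q * Y * (Q⁻¹ * Q) * r * Qᵀ := by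
            simp only [mul_assoc]
        _ = _ := by rw [hQ1, mul_one]; simp only [mul_assoc]
    have e2 : Q * r * Qᵀ * (Q⁻¹ᵀ * (Yᵀ * Qᵀ)) = Q * (r * Yᵀ) * Qᵀ := by
      calc Q * r * Qᵀ * (Q⁻¹ᵀ * (Yᵀ * Qᵀ)) = Q * r * (Qᵀ * Q⁻¹ᵀ) * Yᵀ * Qᵀ := by
            simp only [mul_assoc]
        _ = _ := by rw [hQT1, mul_one]; simp only [mul_assoc]
    rw [e1, e2, ← add_mul, ← mul_add]
  rwa [e] at goalE

theorem conj_diag_comm {P : Matrix (Fin n) (Fin n) ℝ} (hP1 : P⁻¹ * P = 1) (a b : Fin n → ℝ) :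
    P * diagonal a * P⁻¹ * (P * diagonal b * P⁻¹)
      = P * diagonal b * P⁻¹ * (P * diagonal a * P⁻¹) := by
  have key : ∀ A B : Matrix (Fin n) (Fin n) ℝ, P * A * P⁻¹ * (P * B * P⁻¹) = P * (A * B) * P⁻¹ := by
    intro A B
    calc P * A * P⁻¹ * (P * B * P⁻¹) = P * A * (P⁻¹ * P) * B * P⁻¹ := by
          simp only [mul_assoc]
      _ = _ := by rw [hP1, mul_one]; simp only [mul_assoc]
  rw [key, key]
  congr 2
  rw [Matrix.diagonal_mul_diagonal, Matrix.diagonal_mul_diagonal]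
  congr 1
  ext i
  exact mul_comm _ _

theorem exists_z {Q : Matrix (Fin n) (Fin n) ℝ} (hQ : IsUnit Q.det)
    (hK : ∀ r ∈ EdgeQ G Q, ∀ φ : ℝ →ₗ[ℚ] ℚ, toR (phim φ r) ∈ EdgeQ G Q) :
    ∃ (z : Matrix (Fin n) (Fin n) ℚ) (P : Matrix (Fin n) (Fin n) ℝ) (ξ : Fin n → ℝ),
      IsUnit P.det ∧ toR z * P = P * diagonal ξ ∧ Inc G (Q * P) ∧
      (∀ u v, ξ u = ξ v ↔ (Dom G u v ∧ Dom G v u)) := by
  classical
  have hQ1 : Q⁻¹ * Q = 1 := Matrix.nonsing_inv_mul Q hQ
  have hQ2 : Q * Q⁻¹ = 1 := Matrix.mul_nonsing_inv Q hQ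
  -- step 1: the generic rational element
  let X₀ : Matrix (Fin n) (Fin n) ℝ := diagonal (fun v : Fin n => ((v : ℕ) : ℝ))
  have hmem : Q⁻¹ * X₀ * Q ∈ AlgQ G Q := by
    rw [mem_AlgQ]
    have : Q * (Q⁻¹ * X₀ * Q) * Q⁻¹ = X₀ := by
      calc Q * (Q⁻¹ * X₀ * Q) * Q⁻¹ = (Q * Q⁻¹) * X₀ * (Q * Q⁻¹) := by simp only [mul_assoc]
        _ = X₀ := by rw [hQ2, one_mul, mul_one]
    rw [this]
    exact inc_diagonal _
  have hcont : Continuous (fun X : Matrix (Fin n) (Fin n) ℝ => Q * X * Q⁻¹) :=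
    (continuous_const.mul continuous_id).mul continuous_const
  have hU : (fun X : Matrix (Fin n) (Fin n) ℝ => Q * X * Q⁻¹) ⁻¹' {X | Inc G X →
      ∃ (P : Matrix (Fin n) (Fin n) ℝ) (d : Fin n → ℝ), Inc G P ∧ IsUnit P.det ∧
        X * P = P * diagonal d ∧ Function.Injective d} ∈ 𝓝 (Q⁻¹ * X₀ * Q) := by
    apply hcont.continuousAt.preimage_mem_nhds
    have : Q * (Q⁻¹ * X₀ * Q) * Q⁻¹ = X₀ := by
      calc Q * (Q⁻¹ * X₀ * Q) * Q⁻¹ = (Q * Q⁻¹) * X₀ * (Q * Q⁻¹) := by simp only [mul_assoc]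
        _ = X₀ := by rw [hQ2, one_mul, mul_one]
    simp only [this]
    exact eventually_diag (G := G)
  obtain ⟨D, hD1, hD2⟩ := approx (AlgQ G Q) (fun X hX φ => algQ_rational hQ hK X hX φ) _ hmem _ hU
  obtain ⟨P', d, hP'inc, hP'det, hDP', hdinj⟩ := hD2 hD1
  have hP'1 : P'⁻¹ * P' = 1 := Matrix.nonsing_inv_mul P' hP'det
  have hP'2 : P' * P'⁻¹ = 1 := Matrix.mul_nonsing_inv P' hP'det
  set P := Q⁻¹ * P' with hP
  have hQP : Q * P = P' := by rw [hP, ← mul_assoc, hQ2, one_mul]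
  have hPdet : IsUnit P.det := by
    rw [hP, Matrix.det_mul]
    exact (Matrix.isUnit_nonsing_inv_det Q hQ).mul hP'det
  have hP1 : P⁻¹ * P = 1 := Matrix.nonsing_inv_mul P hPdet
  have hP2 : P * P⁻¹ = 1 := Matrix.mul_nonsing_inv P hPdet
  have hDP : toR D * P = P * diagonal d := by
    calc toR D * P = (Q⁻¹ * Q) * toR D * (Q⁻¹ * P') := by rw [hQ1, one_mul]
      _ = Q⁻¹ * ((Q * toR D * Q⁻¹) * P') := by simp only [mul_assoc]
      _ = Q⁻¹ * (P' * diagonal d) := by rw [hDP']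
      _ = P * diagonal d := by rw [hP]; simp only [mul_assoc]
  have hPinv : P⁻¹ = P'⁻¹ * Q := by
    rw [hP, Matrix.mul_inv_rev, Matrix.nonsing_inv_nonsing_inv Q hQ]
  -- membership in AlgQ through `P`
  have halg : ∀ X : Matrix (Fin n) (Fin n) ℝ, X ∈ AlgQ G Q ↔ Inc G (P⁻¹ * X * P) := by
    intro X
    rw [mem_AlgQ]
    have e1 : P⁻¹ * X * P = P'⁻¹ * (Q * X * Q⁻¹) * P' := by
      rw [hPinv, hP]; simp only [mul_assoc]
    have e2 : Q * X * Q⁻¹ = P' * (P⁻¹ * X * P) * P'⁻¹ := by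
      rw [e1]
      calc Q * X * Q⁻¹ = (P' * P'⁻¹) * (Q * X * Q⁻¹) * (P' * P'⁻¹) := by
            rw [hP'2, one_mul, mul_one]
        _ = _ := by simp only [mul_assoc]
    constructor
    · intro h
      rw [e1]
      exact ((hP'inc.inv hP'det).mul h).mul hP'inc
    · intro h
      rw [e2]
      exact (hP'inc.mul h).mul (hP'inc.inv hP'det)
  -- step 2: the subspace Z
  let Z : Submodule ℝ (Matrix (Fin n) (Fin n) ℝ) :=
    { carrier := {X | X * toR D = toR D * X ∧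
        ∀ Y ∈ AlgQ G Q, ∀ Y' ∈ AlgQ G Q, ((X * Y - Y * X) * Y').trace = 0}
      add_mem' := by
        rintro a b ⟨ha1, ha2⟩ ⟨hb1, hb2⟩
        refine ⟨by rw [add_mul, mul_add, ha1, hb1], fun Y hY Y' hY' => ?_⟩
        have : ((a + b) * Y - Y * (a + b)) * Y' = (a * Y - Y * a) * Y' + (b * Y - Y * b) * Y' := by
          noncomm_ring
        rw [this, Matrix.trace_add, ha2 Y hY Y' hY', hb2 Y hY Y' hY', add_zero]
      zero_mem' := by
        refine ⟨by simp, fun Y hY Y' hY' => by simp⟩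
      smul_mem' := by
        rintro c x ⟨h1, h2⟩
        refine ⟨by rw [Matrix.smul_mul, Matrix.mul_smul, h1], fun Y hY Y' hY' => ?_⟩
        have : ((c • x) * Y - Y * (c • x)) * Y' = c • ((x * Y - Y * x) * Y') := by
          rw [Matrix.smul_mul, Matrix.mul_smul, ← smul_sub, Matrix.smul_mul]
        rw [this, Matrix.trace_smul, h2 Y hY Y' hY', smul_zero] }
  have hZ : ∀ X ∈ Z, ∀ φ : ℝ →ₗ[ℚ] ℚ, toR (phim φ X) ∈ Z := by
    rintro X ⟨h1, h2⟩ φ
    refine ⟨?_, fun Y hY Y' hY' => ?_⟩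
    · have := congrArg (fun M => toR (phim φ M)) h1
      simpa only [phim_mul_toR, phim_toR_mul, toR_mul] using this
    · -- rational case first
      have hrat : ∀ y y' : Matrix (Fin n) (Fin n) ℚ, toR y ∈ AlgQ G Q → toR y' ∈ AlgQ G Q →
          ((toR (phim φ X) * toR y - toR y * toR (phim φ X)) * toR y').trace = 0 := by
        intro y y' hy hy'
        have h := h2 _ hy _ hy'
        have e : (toR (phim φ X) * toR y - toR y * toR (phim φ X)) * toR y'
            = toR (phim φ ((X * toR y - toR y * X) * toR y')) := by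
          rw [phim_mul_toR, phim_sub, phim_mul_toR, phim_toR_mul, toR_mul, toR_sub, toR_mul,
            toR_mul]
        rw [e, trace_toR, trace_phim, h]
        simp
      obtain ⟨ι, _, c, ψ, hdec⟩ := decomp Y
      obtain ⟨ι', _, c', ψ', hdec'⟩ := decomp Y'
      have e : (toR (phim φ X) * Y - Y * toR (phim φ X)) * Y'
          = ∑ α, ∑ β, (c α * c' β) • ((toR (phim φ X) * toR (phim (ψ α) Y)
            - toR (phim (ψ α) Y) * toR (phim φ X)) * toR (phim (ψ' β) Y')) := by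
        conv_lhs => rw [hdec, hdec']
        simp only [Matrix.mul_sum, Matrix.sum_mul, Matrix.mul_smul, Matrix.smul_mul,
          ← Finset.sum_sub_distrib, ← smul_sub]
        rw [Finset.sum_comm]
        apply Finset.sum_congr rfl
        intro α _
        rw [Finset.smul_sum]
        apply Finset.sum_congr rfl
        intro β _
        rw [smul_smul, mul_comm]
      rw [e, Matrix.trace_sum]
      apply Finset.sum_eq_zero
      intro α _
      rw [Matrix.trace_sum]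
      apply Finset.sum_eq_zero
      intro β _
      rw [Matrix.trace_smul, hrat _ _ (algQ_rational hQ hK _ hY _) (algQ_rational hQ hK _ hY' _),
        smul_zero]
  have hconj : ∀ X : Matrix (Fin n) (Fin n) ℝ, X = P * (P⁻¹ * X * P) * P⁻¹ := by
    intro X
    calc X = (P * P⁻¹) * X * (P * P⁻¹) := by rw [hP2, one_mul, mul_one]
      _ = _ := by simp only [mul_assoc]
  have htr : ∀ X Y Y' : Matrix (Fin n) (Fin n) ℝ, ((X * Y - Y * X) * Y').trace
      = (((P⁻¹ * X * P) * (P⁻¹ * Y * P) - (P⁻¹ * Y * P) * (P⁻¹ * X * P)) * (P⁻¹ * Y' * P)).trace := by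
    intro X Y Y'
    have e : ((P⁻¹ * X * P) * (P⁻¹ * Y * P) - (P⁻¹ * Y * P) * (P⁻¹ * X * P)) * (P⁻¹ * Y' * P)
        = P⁻¹ * (((X * Y - Y * X) * Y') * P) := by
      have e1 : ∀ A B : Matrix (Fin n) (Fin n) ℝ, (P⁻¹ * A * P) * (P⁻¹ * B * P)
          = P⁻¹ * (A * B) * P := by
        intro A B
        calc (P⁻¹ * A * P) * (P⁻¹ * B * P) = P⁻¹ * A * (P * P⁻¹) * B * P := by
              simp only [mul_assoc]
          _ = _ := by rw [hP2, mul_one]; simp only [mul_assoc]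
      rw [sub_mul, e1, e1, e1, e1, sub_mul, sub_mul, mul_sub]
      simp only [mul_assoc]
    rw [e, Matrix.trace_mul_comm P⁻¹, mul_assoc _ P P⁻¹, hP2, mul_one]
  have hZdiag : ∀ X ∈ Z, P⁻¹ * X * P = diagonal (fun v => (P⁻¹ * X * P) v v) := by
    rintro X ⟨h1, _⟩
    have hc : (P⁻¹ * X * P) * diagonal d = diagonal d * (P⁻¹ * X * P) := by
      have e1 : (P⁻¹ * X * P) * diagonal d = P⁻¹ * (X * toR D) * P := by
        calc (P⁻¹ * X * P) * diagonal d = P⁻¹ * X * (P * diagonal d) := by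
              simp only [mul_assoc]
          _ = _ := by rw [← hDP]; simp only [mul_assoc]
      have e2 : diagonal d * (P⁻¹ * X * P) = P⁻¹ * (toR D * X) * P := by
        calc diagonal d * (P⁻¹ * X * P) = (P⁻¹ * P) * diagonal d * P⁻¹ * X * P := by
              rw [hP1, one_mul]; simp only [mul_assoc]
          _ = P⁻¹ * (P * diagonal d) * P⁻¹ * X * P := by simp only [mul_assoc]
          _ = P⁻¹ * toR D * (P * P⁻¹) * X * P := by rw [← hDP]; simp only [mul_assoc]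
          _ = _ := by rw [hP2, mul_one]; simp only [mul_assoc]
      rw [e1, e2, h1]
    ext u v
    by_cases huv : u = v
    · subst huv; simp
    · rw [Matrix.diagonal_apply_ne _ huv]
      have := congrFun (congrFun hc u) v
      rw [Matrix.mul_diagonal, Matrix.diagonal_mul] at this
      have hne : d v - d u ≠ 0 := by
        intro h
        exact huv (hdinj (by linarith)).symm
      have h3 : (P⁻¹ * X * P) u v * (d v - d u) = 0 := by linarith
      exact (mul_eq_zero.mp h3).resolve_right hne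
  have hZconst : ∀ X ∈ Z, ∀ u v, Dom G u v → Dom G v u →
      (P⁻¹ * X * P) u u = (P⁻¹ * X * P) v v := by
    intro X hX u v huv hvu
    have hd := hZdiag X hX
    have hinc : ∀ a b, Dom G a b → P * Matrix.single a b (1 : ℝ) * P⁻¹ ∈ AlgQ G Q := by
      intro a b hab
      rw [halg]
      have : P⁻¹ * (P * Matrix.single a b (1 : ℝ) * P⁻¹) * P = Matrix.single a b (1 : ℝ) := by
        calc P⁻¹ * (P * Matrix.single a b (1 : ℝ) * P⁻¹) * P
            = (P⁻¹ * P) * Matrix.single a b (1 : ℝ) * (P⁻¹ * P) := by simp only [mul_assoc]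
          _ = _ := by rw [hP1, one_mul, mul_one]
      rw [this]
      intro x y hxy
      by_cases h : a = x ∧ b = y
      · rw [← h.1, ← h.2]; exact hab
      · exact absurd (Matrix.single_apply_of_ne _ _ _ _ _ h) hxy
    have h := hX.2 _ (hinc u v huv) _ (hinc v u hvu)
    rw [htr, hd] at h
    have e : ∀ a b, P⁻¹ * (P * Matrix.single a b (1 : ℝ) * P⁻¹) * P = Matrix.single a b (1 : ℝ) := by
      intro a b
      calc P⁻¹ * (P * Matrix.single a b (1 : ℝ) * P⁻¹) * P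
          = (P⁻¹ * P) * Matrix.single a b (1 : ℝ) * (P⁻¹ * P) := by simp only [mul_assoc]
        _ = _ := by rw [hP1, one_mul, mul_one]
    rw [e, e] at h
    set ξ : Fin n → ℝ := fun v => (P⁻¹ * X * P) v v with hξ
    have e3 : (diagonal ξ * Matrix.single u v (1 : ℝ) - Matrix.single u v (1 : ℝ) * diagonal ξ)
        * Matrix.single v u (1 : ℝ) = Matrix.single u u (ξ u - ξ v) := by
      ext a b
      rw [Matrix.sub_mul, Matrix.sub_apply]
      have e4 : diagonal ξ * Matrix.single u v (1 : ℝ) = Matrix.single u v (ξ u) := by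
        ext a b
        rw [Matrix.diagonal_mul]
        by_cases h : u = a ∧ v = b
        · rw [← h.1, ← h.2]; simp
        · rw [Matrix.single_apply_of_ne _ _ _ _ _ h, Matrix.single_apply_of_ne _ _ _ _ _ h,
            mul_zero]
      have e5 : Matrix.single u v (1 : ℝ) * diagonal ξ = Matrix.single u v (ξ v) := by
        ext a b
        rw [Matrix.mul_diagonal]
        by_cases h : u = a ∧ v = b
        · rw [← h.1, ← h.2]; simp
        · rw [Matrix.single_apply_of_ne _ _ _ _ _ h, Matrix.single_apply_of_ne _ _ _ _ _ h,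
            zero_mul]
      rw [e4, e5, Matrix.single_mul_single_same, Matrix.single_mul_single_same]
      by_cases h : u = a ∧ u = b
      · rw [← h.1, ← h.2]; simp
      · rw [Matrix.single_apply_of_ne _ _ _ _ _ h, Matrix.single_apply_of_ne _ _ _ _ _ h,
          Matrix.single_apply_of_ne _ _ _ _ _ h, sub_zero]
    rw [e3, Matrix.trace_single_eq_same] at h
    have : ξ u = ξ v := by linarith
    exact this
  -- class function
  let s : Setoid (Fin n) :=
    { r := fun u v => Dom G u v ∧ Dom G v u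
      iseqv := ⟨fun u => ⟨Dom.refl G u, Dom.refl G u⟩, fun h => ⟨h.2, h.1⟩,
        fun h1 h2 => ⟨h1.1.trans h2.1, h2.2.trans h1.2⟩⟩ }
  obtain ⟨k, ⟨e⟩⟩ := Finite.exists_equiv_fin (Quotient s)
  let ξ0 : Fin n → ℝ := fun v => ((e (Quotient.mk s v) : ℕ) : ℝ)
  have hξ0 : ∀ u v, ξ0 u = ξ0 v ↔ (Dom G u v ∧ Dom G v u) := by
    intro u v
    constructor
    · intro h
      have h0 : ((e (Quotient.mk s u) : ℕ) : ℝ) = ((e (Quotient.mk s v) : ℕ) : ℝ) := h
      have h1 : (e (Quotient.mk s u) : ℕ) = e (Quotient.mk s v) := by exact_mod_cast h0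
      exact Quotient.exact (e.injective (Fin.ext h1))
    · intro h
      have : Quotient.mk s u = Quotient.mk s v := Quotient.sound h
      simp only [ξ0, this]
  let X₁ : Matrix (Fin n) (Fin n) ℝ := P * diagonal ξ0 * P⁻¹
  have hX₁ : P⁻¹ * X₁ * P = diagonal ξ0 := by
    calc P⁻¹ * (P * diagonal ξ0 * P⁻¹) * P = (P⁻¹ * P) * diagonal ξ0 * (P⁻¹ * P) := by
          simp only [mul_assoc]
      _ = _ := by rw [hP1, one_mul, mul_one]
  have hX₁Z : X₁ ∈ Z := by
    refine ⟨?_, ?_⟩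
    · have hD : toR D = P * diagonal d * P⁻¹ := by
        rw [← hDP, mul_assoc, hP2, mul_one]
      rw [hD]
      exact conj_diag_comm hP1 ξ0 d
    · intro Y hY Y' hY'
      rw [halg] at hY hY'
      rw [htr, hX₁]
      rw [Matrix.trace]
      apply Finset.sum_eq_zero
      intro u _
      rw [Matrix.diag_apply, Matrix.mul_apply]
      apply Finset.sum_eq_zero
      intro v _
      rw [Matrix.sub_apply, Matrix.diagonal_mul, Matrix.mul_diagonal]
      by_cases h1 : (P⁻¹ * Y * P) u v = 0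
      · rw [h1]; ring
      by_cases h2 : (P⁻¹ * Y' * P) v u = 0
      · rw [h2]; ring
      rw [(hξ0 u v).mpr ⟨hY u v h1, hY' v u h2⟩]
      ring
  have hW : {X : Matrix (Fin n) (Fin n) ℝ | ∀ u v, ξ0 u ≠ ξ0 v →
      (P⁻¹ * X * P) u u ≠ (P⁻¹ * X * P) v v} ∈ 𝓝 X₁ := by
    have : ∀ᶠ X in 𝓝 X₁, ∀ u v, ξ0 u ≠ ξ0 v → (P⁻¹ * X * P) u u ≠ (P⁻¹ * X * P) v v := by
      rw [Filter.eventually_all]
      intro u
      rw [Filter.eventually_all]
      intro v
      by_cases h : ξ0 u = ξ0 v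
      · exact Filter.Eventually.of_forall fun X h' => absurd h h'
      · have hc : ∀ w : Fin n, Continuous (fun X : Matrix (Fin n) (Fin n) ℝ => (P⁻¹ * X * P) w w) := by
          intro w
          have : Continuous (fun X : Matrix (Fin n) (Fin n) ℝ => P⁻¹ * X * P) :=
            (continuous_const.mul continuous_id).mul continuous_const
          exact this.matrix_elem w w
        have hne : (P⁻¹ * X₁ * P) u u ≠ (P⁻¹ * X₁ * P) v v := by
          rw [hX₁, Matrix.diagonal_apply_eq, Matrix.diagonal_apply_eq]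
          exact h
        filter_upwards [(hc u).continuousAt.ne_iff_eventually_ne (hc v).continuousAt |>.mp hne] with X hX _
        exact hX
    exact this
  obtain ⟨z, hz1, hz2⟩ := approx Z hZ X₁ hX₁Z _ hW
  refine ⟨z, P, fun v => (P⁻¹ * toR z * P) v v, hPdet, ?_, by rw [hQP]; exact hP'inc, ?_⟩
  · have := hZdiag _ hz1
    calc toR z * P = (P * P⁻¹) * toR z * P := by rw [hP2, one_mul]
      _ = P * (P⁻¹ * toR z * P) := by simp only [mul_assoc]
      _ = _ := by rw [← this]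
  · intro u v
    constructor
    · intro h
      by_contra hne
      exact hz2 u v (fun h' => hne ((hξ0 u v).mp h')) h
    · rintro ⟨h1, h2⟩
      exact hZconst _ hz1 u v h1 h2

end Pool.Agent.Lib.MP_3d22c5_an
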