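import Mathlib
import Pool.Agent.Lib.MP_3d22c5_an.Incidence

set_option autoImplicit false

namespace Pool.Agent.Lib.MP_3d22c5_an

open Matrix TensorProduct

/-- `b` is a graph basis of the Lie algebra `N`. -/
structure IsGraphBasis {n : ℕ} (G : SimpleGraph (Fin n)) {K N : Type} [Field K] [LieRing N]
    [LieAlgebra K N] (b : Module.Basis (Fin n ⊕ G.edgeSet) K N) : Prop where
  h1 : ∀ (i j : Fin n) (h : G.Adj i j), i < j →
    ⁅b (Sum.inl i), b (Sum.inl j)⁆ = b (Sum.inr ⟨s(i, j), G.mem_edgeSet.mpr h⟩)
  h2 : ∀ i j : Fin n, ¬ G.Adj i j → ⁅b (Sum.inl i), b (Sum.inl j)⁆ = 0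
  h3 : ∀ (e : G.edgeSet) (k : Fin n ⊕ G.edgeSet), ⁅b (Sum.inr e), b k⁆ = 0

variable {n : ℕ} {G : SimpleGraph (Fin n)} {K N : Type} [Field K] [LieRing N]
    [LieAlgebra K N] {b : Module.Basis (Fin n ⊕ G.edgeSet) K N}

theorem IsGraphBasis.h3' (hb : IsGraphBasis G b) (e : G.edgeSet) (k : Fin n ⊕ G.edgeSet) :
    ⁅b k, b (Sum.inr e)⁆ = 0 := by
  rw [← lie_skew, hb.h3, neg_zero]

/-- two bilinear functionals agreeing on a basis -/
theorem bilin_ext (b : Module.Basis (Fin n ⊕ G.edgeSet) K N) (f g : N →ₗ[K] N →ₗ[K] K)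
    (h : ∀ i j, f (b i) (b j) = g (b i) (b j)) (x y : N) : f x y = g x y := by
  have : f = g := by
    apply b.ext
    intro i
    apply b.ext
    intro j
    exact h i j
  rw [this]

theorem IsGraphBasis.repr_inl (hb : IsGraphBasis G b) (x y : N) (u : Fin n) :
    b.repr ⁅x, y⁆ (Sum.inl u) = 0 := by
  let f : N →ₗ[K] N →ₗ[K] K := LinearMap.mk₂ K (fun x y => b.repr ⁅x, y⁆ (Sum.inl u))
    (by intro x x' y; simp) (by intro c x y; simp) (by intro x y y'; simp) (by intro c x y; simp)
  apply bilin_ext b f 0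
  intro i j
  change b.repr ⁅b i, b j⁆ (Sum.inl u) = 0
  rcases i with i | e
  · rcases j with j | e
    · by_cases h : G.Adj i j
      · rcases lt_trichotomy i j with hij | hij | hij
        · rw [hb.h1 i j h hij]; simp
        · exact absurd hij h.ne
        · rw [← lie_skew, hb.h1 j i h.symm hij]; simp
      · rw [hb.h2 i j h]; simp
    · rw [hb.h3']; simp
  · rw [hb.h3]; simp

theorem IsGraphBasis.repr_inr (hb : IsGraphBasis G b) (x y : N) (u w : Fin n) (huw : G.Adj u w)
    (hlt : u < w) :
    b.repr ⁅x, y⁆ (Sum.inr ⟨s(u, w), G.mem_edgeSet.mpr huw⟩)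
      = b.repr x (Sum.inl u) * b.repr y (Sum.inl w)
        - b.repr x (Sum.inl w) * b.repr y (Sum.inl u) := by
  classical
  let f : N →ₗ[K] N →ₗ[K] K := LinearMap.mk₂ K
    (fun x y => b.repr ⁅x, y⁆ (Sum.inr ⟨s(u, w), G.mem_edgeSet.mpr huw⟩))
    (by intro x x' y; simp) (by intro c x y; simp) (by intro x y y'; simp) (by intro c x y; simp)
  let g : N →ₗ[K] N →ₗ[K] K := LinearMap.mk₂ K
    (fun x y => b.repr x (Sum.inl u) * b.repr y (Sum.inl w)
        - b.repr x (Sum.inl w) * b.repr y (Sum.inl u))
    (by intro x x' y; simp; ring) (by intro c x y; simp; ring) (by intro x y y'; simp; ring)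
    (by intro c x y; simp; ring)
  apply bilin_ext b f g
  intro i j
  change b.repr ⁅b i, b j⁆ (Sum.inr ⟨s(u, w), G.mem_edgeSet.mpr huw⟩)
    = b.repr (b i) (Sum.inl u) * b.repr (b j) (Sum.inl w)
        - b.repr (b i) (Sum.inl w) * b.repr (b j) (Sum.inl u)
  rcases i with i | e
  · rcases j with j | e
    · have key : ∀ i j : Fin n, ∀ h : G.Adj i j, i < j →
          b.repr ⁅b (Sum.inl i), b (Sum.inl j)⁆ (Sum.inr ⟨s(u, w), G.mem_edgeSet.mpr huw⟩)
          = b.repr (b (Sum.inl i)) (Sum.inl u) * b.repr (b (Sum.inl j)) (Sum.inl w)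
        - b.repr (b (Sum.inl i)) (Sum.inl w) * b.repr (b (Sum.inl j)) (Sum.inl u) := by
        intro i j h hij
        rw [hb.h1 i j h hij]
        simp only [Module.Basis.repr_self, Finsupp.single_apply, Sum.inl.injEq, Sum.inr.injEq,
          Subtype.mk.injEq, Sym2.eq_iff]
        by_cases h1 : i = u ∧ j = w
        · obtain ⟨rfl, rfl⟩ := h1
          simp [hij.ne, hij.ne']
        · have h2 : ¬ (i = w ∧ j = u) := by
            rintro ⟨rfl, rfl⟩
            exact absurd hij (not_lt.mpr hlt.le)
          rw [if_neg (by tauto)]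
          have e1 : (if i = u then (1 : K) else 0) * (if j = w then 1 else 0) = 0 := by
            by_cases hi : i = u
            · have hj : ¬ j = w := fun hj => h1 ⟨hi, hj⟩
              simp [hj]
            · simp [hi]
          have e2 : (if i = w then (1 : K) else 0) * (if j = u then 1 else 0) = 0 := by
            by_cases hi : i = w
            · have hj : ¬ j = u := fun hj => h2 ⟨hi, hj⟩
              simp [hj]
            · simp [hi]
          rw [e1, e2, sub_zero]
      by_cases h : G.Adj i j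
      · rcases lt_trichotomy i j with hij | hij | hij
        · exact key i j h hij
        · exact absurd hij h.ne
        · rw [← lie_skew, map_neg, Finsupp.neg_apply, key j i h.symm hij]
          ring
      · rw [hb.h2 i j h]
        simp only [map_zero, Finsupp.coe_zero, Pi.zero_apply, Module.Basis.repr_self,
          Finsupp.single_apply, Sum.inl.injEq]
        have h1 : ¬ (i = u ∧ j = w) := by
          rintro ⟨rfl, rfl⟩; exact h huw
        have h2 : ¬ (i = w ∧ j = u) := by
          rintro ⟨rfl, rfl⟩; exact h huw.symm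
        have e1 : (if i = u then (1 : K) else 0) * (if j = w then 1 else 0) = 0 := by
          by_cases hi : i = u
          · have hj : ¬ j = w := fun hj => h1 ⟨hi, hj⟩
            simp [hj]
          · simp [hi]
        have e2 : (if i = w then (1 : K) else 0) * (if j = u then 1 else 0) = 0 := by
          by_cases hi : i = w
          · have hj : ¬ j = u := fun hj => h2 ⟨hi, hj⟩
            simp [hj]
          · simp [hi]
        rw [e1, e2, sub_zero]
    · rw [hb.h3']; simp
  · rw [hb.h3]; simp

/-- An element with vanishing vertex coordinates is central. -/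
theorem IsGraphBasis.lie_eq_zero (hb : IsGraphBasis G b) (x y : N)
    (hx : ∀ u, b.repr x (Sum.inl u) = 0) : ⁅x, y⁆ = 0 := by
  apply b.repr.injective
  ext k
  rw [map_zero, Finsupp.zero_apply]
  rcases k with u | ⟨e, he⟩
  · exact hb.repr_inl x y u
  · induction e using Sym2.ind with
    | _ u w =>
      have huw : G.Adj u w := G.mem_edgeSet.mp he
      rcases lt_trichotomy u w with h | h | h
      · rw [hb.repr_inr x y u w huw h, hx, hx]; ring
      · exact absurd h huw.ne
      · have : (⟨s(u, w), he⟩ : G.edgeSet) = ⟨s(w, u), G.mem_edgeSet.mpr huw.symm⟩ := by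
          apply Subtype.ext; exact Sym2.eq_swap
        rw [this, hb.repr_inr x y w u huw.symm h, hx, hx]; ring

/-- Base change of a graph basis. -/
theorem IsGraphBasis.baseChange {N : Type} [LieRing N] [LieAlgebra ℚ N]
    {b : Module.Basis (Fin n ⊕ G.edgeSet) ℚ N} (hb : IsGraphBasis G b) :
    IsGraphBasis (K := ℝ) (N := ℝ ⊗[ℚ] N) G (Algebra.TensorProduct.basis ℝ b) := by
  constructor
  · intro i j h hij
    rw [Algebra.TensorProduct.basis_apply, Algebra.TensorProduct.basis_apply,
      Algebra.TensorProduct.basis_apply, LieAlgebra.ExtendScalars.bracket_tmul, hb.h1 i j h hij,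
      one_mul]
  · intro i j h
    rw [Algebra.TensorProduct.basis_apply, Algebra.TensorProduct.basis_apply,
      LieAlgebra.ExtendScalars.bracket_tmul, hb.h2 i j h, TensorProduct.tmul_zero]
  · intro e k
    rw [Algebra.TensorProduct.basis_apply, Algebra.TensorProduct.basis_apply,
      LieAlgebra.ExtendScalars.bracket_tmul, hb.h3, TensorProduct.tmul_zero]

end Pool.Agent.Lib.MP_3d22c5_an
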