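import Mathlib
import Pool.Agent.Lib.MP_3d22c5_an.ExistsZ
import Pool.Agent.Lib.MP_3d22c5_an.GraphLie

set_option autoImplicit false
set_option maxHeartbeats 1000000

namespace Pool.Agent.Lib.MP_3d22c5_an

open Matrix TensorProduct

/-- The span of all brackets. -/
def WM (M : Type) [LieRing M] [LieAlgebra ℚ M] : Submodule ℚ M :=
  Submodule.span ℚ (Set.range (fun p : M × M => ⁅p.1, p.2⁆))

/-- A frame for a rational Lie algebra whose real form is a graph Lie algebra. -/
structure Frame {n : ℕ} (G : SimpleGraph (Fin n)) (M : Type) [LieRing M] [LieAlgebra ℚ M] where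
  x : Fin n → M
  c : M →ₗ[ℚ] (Fin n → ℚ)
  Q : Matrix (Fin n) (Fin n) ℝ
  hQ : IsUnit Q.det
  hcx : ∀ s, c (x s) = Pi.single s 1
  hker : ∀ m, c m = 0 ↔ m ∈ WM M
  hlie : ∀ m m' : M, ⁅m, m'⁆ = ∑ s, ∑ t, (c m s * c m' t) • ⁅x s, x t⁆
  hrel : ∀ ρ : Matrix (Fin n) (Fin n) ℚ,
    (∑ s, ∑ t, ρ s t • ⁅x s, x t⁆ = 0) ↔ toR ρ ∈ EdgeQ G Q
  hK : ∀ r ∈ EdgeQ G Q, ∀ φ : ℝ →ₗ[ℚ] ℚ, toR (phim φ r) ∈ EdgeQ G Q

section

variable {M : Type} [LieRing M] [LieAlgebra ℚ M]

/-- contraction of the real form with a functional -/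
noncomputable def phiM (M : Type) [LieRing M] [LieAlgebra ℚ M] (φ : ℝ →ₗ[ℚ] ℚ) :
    (ℝ ⊗[ℚ] M) →ₗ[ℚ] M :=
  (TensorProduct.lid ℚ M).toLinearMap ∘ₗ LinearMap.rTensor M φ

theorem phiM_tmul (φ : ℝ →ₗ[ℚ] ℚ) (r : ℝ) (m : M) : phiM M φ (r ⊗ₜ m) = φ r • m := by
  simp [phiM]

theorem exists_functional (r : ℝ) (hr : r ≠ 0) : ∃ φ : ℝ →ₗ[ℚ] ℚ, φ r ≠ 0 := by
  by_contra h
  push Not at h
  exact hr ((Module.forall_dual_apply_eq_zero_iff ℚ r).mp h)

/-- elements of the real form all of whose contractions are in `W`. -/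
noncomputable def contr (W : Submodule ℚ M) : Submodule ℝ (ℝ ⊗[ℚ] M) where
  carrier := {t | ∀ φ : ℝ →ₗ[ℚ] ℚ, phiM M φ t ∈ W}
  add_mem' := by
    intro a b ha hb φ
    rw [map_add]
    exact W.add_mem (ha φ) (hb φ)
  zero_mem' := by
    intro φ
    rw [map_zero]
    exact W.zero_mem
  smul_mem' := by
    intro r t ht φ
    have h := ht (φ ∘ₗ (LinearMap.mulLeft ℚ r))
    have e : phiM M φ (r • t) = phiM M (φ ∘ₗ (LinearMap.mulLeft ℚ r)) t := by
      induction t using TensorProduct.induction_on with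
      | zero => simp
      | tmul a m => rw [TensorProduct.smul_tmul', phiM_tmul, phiM_tmul]; rfl
      | add a b ha hb =>
        rw [smul_add, map_add, map_add]
        have : ∀ s : ℝ ⊗[ℚ] M, phiM M φ (r • s) = phiM M (φ ∘ₗ (LinearMap.mulLeft ℚ r)) s := by
          intro s
          induction s using TensorProduct.induction_on with
          | zero => simp
          | tmul a m => rw [TensorProduct.smul_tmul', phiM_tmul, phiM_tmul]; rfl
          | add a b ha hb => rw [smul_add, map_add, map_add, ha, hb]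
        rw [this, this]
    rw [e]
    exact h

theorem lie_mem_contr (a b : ℝ ⊗[ℚ] M) : ⁅a, b⁆ ∈ contr (WM M) := by
  induction a using TensorProduct.induction_on with
  | zero => rw [zero_lie]; exact Submodule.zero_mem _
  | add a a' ha ha' => rw [add_lie]; exact Submodule.add_mem _ ha ha'
  | tmul r m =>
    induction b using TensorProduct.induction_on with
    | zero => rw [lie_zero]; exact Submodule.zero_mem _
    | add b b' hb hb' => rw [lie_add]; exact Submodule.add_mem _ hb hb'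
    | tmul s m' =>
      rw [LieAlgebra.ExtendScalars.bracket_tmul]
      intro φ
      rw [phiM_tmul]
      exact Submodule.smul_mem _ _ (Submodule.subset_span ⟨(m, m'), rfl⟩)

theorem one_tmul_eq_zero (m : M) (h : (1 : ℝ) ⊗ₜ[ℚ] m = 0) : m = 0 := by
  obtain ⟨φ, hφ⟩ := exists_functional 1 one_ne_zero
  have := congrArg (phiM M φ) h
  rw [phiM_tmul, map_zero, smul_eq_zero] at this
  exact this.resolve_left hφ

variable [FiniteDimensional ℚ M] {n : ℕ} {G : SimpleGraph (Fin n)} {L : Type} [LieRing L]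
  [LieAlgebra ℝ L] {e : Module.Basis (Fin n ⊕ G.edgeSet) ℝ L}

theorem exists_frame (he : IsGraphBasis G e) (Φ : (ℝ ⊗[ℚ] M) ≃ₗ⁅ℝ⁆ L) : Nonempty (Frame G M) := by
  classical
  obtain ⟨V, hV⟩ := Submodule.exists_isCompl (WM M)
  -- vertex coordinates
  let κ : (ℝ ⊗[ℚ] M) →ₗ[ℝ] (Fin n → ℝ) :=
    LinearMap.pi fun u => (Finsupp.lapply (Sum.inl u)) ∘ₗ e.repr.toLinearMap ∘ₗ
      (Φ : (ℝ ⊗[ℚ] M) →ₗ[ℝ] L)
  have hκ : ∀ t u, κ t u = e.repr (Φ t) (Sum.inl u) := fun t u => rfl
  have hκlie : ∀ a b : ℝ ⊗[ℚ] M, κ ⁅a, b⁆ = 0 := by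
    intro a b
    ext u
    rw [hκ, LieEquiv.map_lie, he.repr_inl]
    rfl
  have hκW : ∀ w ∈ WM M, κ ((1 : ℝ) ⊗ₜ w) = 0 := by
    intro w hw
    induction hw using Submodule.span_induction with
    | mem x hx =>
      obtain ⟨⟨a, b⟩, rfl⟩ := hx
      have : (1 : ℝ) ⊗ₜ[ℚ] ⁅a, b⁆ = ⁅(1 : ℝ) ⊗ₜ[ℚ] a, (1 : ℝ) ⊗ₜ[ℚ] b⁆ := by
        rw [LieAlgebra.ExtendScalars.bracket_tmul, one_mul]
      simp only [this]
      exact hκlie _ _
    | zero => rw [TensorProduct.tmul_zero, map_zero]
    | add x y _ _ hx hy => rw [TensorProduct.tmul_add, map_add, hx, hy, add_zero]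
    | smul a x _ hx =>
      rw [TensorProduct.tmul_smul]
      have : a • (1 : ℝ) ⊗ₜ[ℚ] x = ((a : ℚ) : ℝ) • ((1 : ℝ) ⊗ₜ[ℚ] x) := by
        rw [TensorProduct.smul_tmul', TensorProduct.smul_tmul']
        congr 1
      rw [this, map_smul, hx, smul_zero]
  -- vanishing vertex coordinates
  have hzero : ∀ t, κ t = 0 → t ∈ contr (WM M) := by
    intro t ht
    have h1 : Φ t = ∑ k, e.repr (Φ t) k • e k := (e.sum_repr (Φ t)).symm
    rw [Fintype.sum_sum_type] at h1
    have h2 : ∑ u, e.repr (Φ t) (Sum.inl u) • e (Sum.inl u) = 0 := by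
      apply Finset.sum_eq_zero
      intro u _
      have := congrFun ht u
      rw [hκ] at this
      rw [this, Pi.zero_apply, zero_smul]
    rw [h2, zero_add] at h1
    have h3 : t = Φ.symm (Φ t) := (Φ.symm_apply_apply t).symm
    rw [h3, h1]
    have h4 : Φ.symm (∑ ε, e.repr (Φ t) (Sum.inr ε) • e (Sum.inr ε))
        = ∑ ε, e.repr (Φ t) (Sum.inr ε) • Φ.symm (e (Sum.inr ε)) := by
      rw [← LieEquiv.coe_toLinearEquiv, map_sum]
      simp only [map_smul]
    rw [h4]
    apply Submodule.sum_mem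
    intro ε _
    apply Submodule.smul_mem
    obtain ⟨ε, hε⟩ := ε
    induction ε using Sym2.ind with
    | _ u w =>
      have huw : G.Adj u w := G.mem_edgeSet.mp hε
      rcases lt_trichotomy u w with h | h | h
      · rw [← he.h1 u w huw h, LieEquiv.map_lie]
        exact lie_mem_contr _ _
      · exact absurd h huw.ne
      · have e2 : (⟨s(u, w), hε⟩ : G.edgeSet) = ⟨s(w, u), G.mem_edgeSet.mpr huw.symm⟩ := by
          apply Subtype.ext; exact Sym2.eq_swap
        rw [e2, ← he.h1 w u huw.symm h, LieEquiv.map_lie]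
        exact lie_mem_contr _ _
  have hcentral : ∀ w ∈ WM M, ∀ y : M, ⁅w, y⁆ = 0 := by
    intro w hw y
    apply one_tmul_eq_zero
    have : (1 : ℝ) ⊗ₜ[ℚ] ⁅w, y⁆ = ⁅(1 : ℝ) ⊗ₜ[ℚ] w, (1 : ℝ) ⊗ₜ[ℚ] y⁆ := by
      rw [LieAlgebra.ExtendScalars.bracket_tmul, one_mul]
    rw [this]
    apply Φ.injective
    change Φ _ = Φ _
    rw [LieEquiv.map_lie, map_zero]
    apply he.lie_eq_zero
    intro u
    have := congrFun (hκW w hw) u
    rwa [hκ] at this
  have hcentral' : ∀ w ∈ WM M, ∀ y : M, ⁅y, w⁆ = 0 := by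
    intro w hw y
    rw [← lie_skew, hcentral w hw, neg_zero]
  -- basis of V
  obtain ⟨m, hm⟩ : ∃ m, m = Module.finrank ℚ V := ⟨_, rfl⟩
  let bV : Module.Basis (Fin m) ℚ V := Module.finBasisOfFinrankEq ℚ V hm.symm
  let vv : Fin m → (Fin n → ℝ) := fun s => κ ((1 : ℝ) ⊗ₜ (bV s : M))
  have hli : LinearIndependent ℝ vv := by
    rw [Fintype.linearIndependent_iff]
    intro r hr
    have h1 : κ (∑ s, r s • ((1 : ℝ) ⊗ₜ[ℚ] (bV s : M))) = 0 := by
      rw [map_sum, ← hr]
      simp only [map_smul]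
      rfl
    have h2 := hzero _ h1
    intro s
    by_contra hrs
    obtain ⟨φ, hφ⟩ := exists_functional (r s) hrs
    have h3 := h2 φ
    have h4 : phiM M φ (∑ s, r s • ((1 : ℝ) ⊗ₜ[ℚ] (bV s : M))) = ∑ s, φ (r s) • (bV s : M) := by
      rw [map_sum]
      apply Finset.sum_congr rfl
      intro s _
      rw [TensorProduct.smul_tmul', phiM_tmul, smul_eq_mul, mul_one]
    rw [h4] at h3
    have h5 : ∑ s, φ (r s) • (bV s : M) ∈ V :=
      Submodule.sum_mem _ fun s _ => Submodule.smul_mem _ _ (bV s).2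
    have h6 : ∑ s, φ (r s) • (bV s : M) = 0 := by
      have := hV.disjoint.le_bot (Submodule.mem_inf.mpr ⟨h3, h5⟩)
      simpa using this
    have h7 : ∑ s, φ (r s) • bV s = 0 := by
      apply Subtype.ext
      simpa using h6
    exact hφ (Fintype.linearIndependent_iff.mp bV.linearIndependent _ h7 s)
  have hspan : Submodule.span ℝ (Set.range vv) = ⊤ := by
    have hall : ∀ t : ℝ ⊗[ℚ] M, κ t ∈ Submodule.span ℝ (Set.range vv) := by
      intro t
      induction t using TensorProduct.induction_on with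
      | zero => rw [map_zero]; exact Submodule.zero_mem _
      | add a b ha hb => rw [map_add]; exact Submodule.add_mem _ ha hb
      | tmul r y =>
        have h1 : r ⊗ₜ[ℚ] y = r • ((1 : ℝ) ⊗ₜ[ℚ] y) := by
          rw [TensorProduct.smul_tmul', smul_eq_mul, mul_one]
        rw [h1, map_smul]
        apply Submodule.smul_mem
        obtain ⟨w, hw, v, hv, rfl⟩ := Submodule.mem_sup.mp
          (show y ∈ WM M ⊔ V by rw [hV.sup_eq_top]; trivial)
        rw [TensorProduct.tmul_add, map_add, hκW w hw, zero_add]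
        have h2 : v = ∑ s, bV.repr ⟨v, hv⟩ s • (bV s : M) := by
          have := congrArg V.subtype (bV.sum_repr ⟨v, hv⟩)
          rw [map_sum] at this
          simp only [map_smul, Submodule.subtype_apply] at this
          exact this.symm
        rw [h2, TensorProduct.tmul_sum, map_sum]
        apply Submodule.sum_mem
        intro s _
        have h3 : (1 : ℝ) ⊗ₜ[ℚ] (bV.repr ⟨v, hv⟩ s • (bV s : M))
            = ((bV.repr ⟨v, hv⟩ s : ℚ) : ℝ) • ((1 : ℝ) ⊗ₜ[ℚ] (bV s : M)) := by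
          rw [TensorProduct.tmul_smul, TensorProduct.smul_tmul', TensorProduct.smul_tmul']
          congr 1
        rw [h3, map_smul]
        exact Submodule.smul_mem _ _ (Submodule.subset_span ⟨s, rfl⟩)
    rw [eq_top_iff]
    intro y _
    have h1 : κ (Φ.symm (∑ u, y u • e (Sum.inl u))) = y := by
      ext u
      rw [hκ, LieEquiv.apply_symm_apply]
      simp [Finsupp.single_apply]
    rw [← h1]
    exact hall _
  have hmn : m = n := by
    have h1 := hli.fintype_card_le_finrank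
    have h2 := finrank_range_le_card (R := ℝ) vv
    rw [Set.finrank, hspan, finrank_top] at h2
    simp only [Fintype.card_fin, Module.finrank_fin_fun] at h1 h2
    omega
  subst hmn
  let Q : Matrix (Fin m) (Fin m) ℝ := Matrix.of fun u s => vv s u
  have hQdet : IsUnit Q.det := by
    rw [← Matrix.isUnit_iff_isUnit_det, ← Matrix.linearIndependent_cols_iff_isUnit]
    exact hli
  -- coordinates
  let πV : M →ₗ[ℚ] V := V.projectionOnto (WM M) hV.symm
  have hπVW : ∀ y : M, πV y = 0 ↔ y ∈ WM M := fun y =>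
    Submodule.projectionOnto_apply_eq_zero_iff hV.symm
  have hπVV : ∀ v : V, πV (v : M) = v := fun v => Submodule.projectionOnto_apply_left hV.symm v
  have hπV : ∀ y : M, ∃ w ∈ WM M, y = (πV y : M) + w := by
    intro y
    obtain ⟨w, hw, v, hv, rfl⟩ := Submodule.mem_sup.mp
      (show y ∈ WM M ⊔ V by rw [hV.sup_eq_top]; trivial)
    refine ⟨w, hw, ?_⟩
    have h1 : πV w = 0 := (hπVW w).mpr hw
    have h2 : πV v = ⟨v, hv⟩ := hπVV ⟨v, hv⟩
    rw [map_add, h1, h2, zero_add, add_comm]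
  let c : M →ₗ[ℚ] (Fin m → ℚ) := bV.equivFun.toLinearMap ∘ₗ πV
  have hdec : ∀ y : M, ∃ w ∈ WM M, y = ∑ s, c y s • (bV s : M) + w := by
    intro y
    obtain ⟨w, hw, hy⟩ := hπV y
    refine ⟨w, hw, ?_⟩
    conv_lhs => rw [hy]
    congr 1
    have := congrArg V.subtype (bV.sum_equivFun (πV y))
    rw [map_sum] at this
    simp only [map_smul, Submodule.subtype_apply] at this
    exact this.symm
  have hlie : ∀ y y' : M, ⁅y, y'⁆ = ∑ s, ∑ t, (c y s * c y' t) • ⁅(bV s : M), (bV t : M)⁆ := by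
    intro y y'
    obtain ⟨w, hw, hy⟩ := hdec y
    obtain ⟨w', hw', hy'⟩ := hdec y'
    conv_lhs => rw [hy, hy']
    rw [add_lie, lie_add, hcentral w hw, hcentral' w' hw', add_zero, add_zero, sum_lie_sum]
    apply Finset.sum_congr rfl
    intro s _
    apply Finset.sum_congr rfl
    intro t _
    rw [smul_lie, lie_smul, smul_smul]
  -- the real relation map
  let Λ : Matrix (Fin m) (Fin m) ℝ → (ℝ ⊗[ℚ] M) := fun r =>
    ∑ s, ∑ t, r s t • ((1 : ℝ) ⊗ₜ[ℚ] ⁅(bV s : M), (bV t : M)⁆)
  have hΛ : ∀ r, Λ r = 0 ↔ r ∈ EdgeQ G Q := by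
    intro r
    have hQs : ∀ u s, e.repr (Φ ((1 : ℝ) ⊗ₜ[ℚ] (bV s : M))) (Sum.inl u) = Q u s := fun u s => rfl
    have h1 : Φ (Λ r) = ∑ s, ∑ t, r s t •
        ⁅Φ ((1 : ℝ) ⊗ₜ[ℚ] (bV s : M)), Φ ((1 : ℝ) ⊗ₜ[ℚ] (bV t : M))⁆ := by
      simp only [Λ]
      rw [← LieEquiv.coe_toLinearEquiv, map_sum]
      apply Finset.sum_congr rfl
      intro s _
      rw [map_sum]
      apply Finset.sum_congr rfl
      intro t _
      rw [map_smul]
      congr 1
      rw [LieEquiv.coe_toLinearEquiv, ← LieEquiv.map_lie, LieAlgebra.ExtendScalars.bracket_tmul,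
        one_mul]
    have h2 : ∀ u w (huw : G.Adj u w), u < w →
        e.repr (Φ (Λ r)) (Sum.inr ⟨s(u, w), G.mem_edgeSet.mpr huw⟩)
          = (Q * r * Qᵀ) u w - (Q * r * Qᵀ) w u := by
      intro u w huw hlt
      have hmat : ∀ a b, (Q * r * Qᵀ) a b = ∑ s, ∑ t, r s t * (Q a s * Q b t) := by
        intro a b
        simp only [Matrix.mul_apply, Matrix.transpose_apply, Finset.sum_mul]
        rw [Finset.sum_comm]
        apply Finset.sum_congr rfl
        intro s _
        apply Finset.sum_congr rfl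
        intro t _
        ring
      rw [h1, hmat, hmat, map_sum, Finsupp.finsetSum_apply, ← Finset.sum_sub_distrib]
      apply Finset.sum_congr rfl
      intro s _
      rw [map_sum, Finsupp.finsetSum_apply, ← Finset.sum_sub_distrib]
      apply Finset.sum_congr rfl
      intro t _
      rw [map_smul, Finsupp.smul_apply, he.repr_inr _ _ u w huw hlt, hQs, hQs, hQs, hQs,
        smul_eq_mul]
      ring
    have h3 : ∀ u, e.repr (Φ (Λ r)) (Sum.inl u) = 0 := by
      intro u
      rw [h1, map_sum, Finsupp.finsetSum_apply]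
      apply Finset.sum_eq_zero
      intro s _
      rw [map_sum, Finsupp.finsetSum_apply]
      apply Finset.sum_eq_zero
      intro t _
      rw [map_smul, Finsupp.smul_apply, he.repr_inl, smul_zero]
    constructor
    · intro h
      rw [mem_EdgeQ]
      intro u w huw
      rcases lt_trichotomy u w with hlt | hlt | hlt
      · have := h2 u w huw hlt
        rw [h, map_zero, map_zero] at this
        exact sub_eq_zero.mp this.symm
      · exact absurd hlt huw.ne
      · have := h2 w u huw.symm hlt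
        rw [h, map_zero, map_zero] at this
        exact (sub_eq_zero.mp this.symm).symm
    · intro h
      rw [mem_EdgeQ] at h
      apply Φ.injective
      change Φ _ = Φ _
      rw [map_zero]
      apply e.repr.injective
      rw [map_zero]
      ext k
      rw [Finsupp.zero_apply]
      rcases k with u | ⟨ε, hε⟩
      · exact h3 u
      · induction ε using Sym2.ind with
        | _ u w =>
          have huw : G.Adj u w := G.mem_edgeSet.mp hε
          rcases lt_trichotomy u w with hlt | hlt | hlt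
          · rw [h2 u w huw hlt, h u w huw, sub_self]
          · exact absurd hlt huw.ne
          · have e2 : (⟨s(u, w), hε⟩ : G.edgeSet) = ⟨s(w, u), G.mem_edgeSet.mpr huw.symm⟩ := by
              apply Subtype.ext; exact Sym2.eq_swap
            rw [e2, h2 w u huw.symm hlt, h u w huw, sub_self]
  have hrel : ∀ ρ : Matrix (Fin m) (Fin m) ℚ,
      (∑ s, ∑ t, ρ s t • ⁅(bV s : M), (bV t : M)⁆ = 0) ↔ toR ρ ∈ EdgeQ G Q := by
    intro ρ
    rw [← hΛ]
    have h1 : Λ (toR ρ) = (1 : ℝ) ⊗ₜ[ℚ] (∑ s, ∑ t, ρ s t • ⁅(bV s : M), (bV t : M)⁆) := by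
      simp only [Λ, TensorProduct.tmul_sum]
      apply Finset.sum_congr rfl
      intro s _
      apply Finset.sum_congr rfl
      intro t _
      rw [TensorProduct.tmul_smul, TensorProduct.smul_tmul', TensorProduct.smul_tmul']
      congr 1
    rw [h1]
    constructor
    · intro h; rw [h, TensorProduct.tmul_zero]
    · intro h; exact one_tmul_eq_zero _ h
  refine ⟨{ x := fun s => (bV s : M), c := c, Q := Q, hQ := hQdet, hcx := ?_, hker := ?_,
            hlie := hlie, hrel := hrel, hK := ?_ }⟩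
  · intro s
    simp only [c, LinearMap.comp_apply, hπVV]
    ext t
    simp [Pi.single_apply, eq_comm]
  · intro y
    rw [← hπVW]
    simp [c]
  · intro r hr φ
    rw [← hrel]
    rw [← hΛ] at hr
    have := congrArg (phiM M φ) hr
    rw [map_zero] at this
    rw [← this]
    simp only [Λ, map_sum]
    apply Finset.sum_congr rfl
    intro s _
    apply Finset.sum_congr rfl
    intro t _
    rw [TensorProduct.smul_tmul', phiM_tmul, smul_eq_mul, mul_one]
    rfl

end

end Pool.Agent.Lib.MP_3d22c5_an
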