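import Mathlib
import Pool.Agent.Lib.MP_3d22c5_an.Frame

set_option autoImplicit false
set_option maxHeartbeats 1000000

namespace Pool.Agent.Lib.MP_3d22c5_an

open Matrix TensorProduct

variable {M : Type} [LieRing M] [LieAlgebra ℚ M] {n : ℕ} {G : SimpleGraph (Fin n)}

namespace Frame

variable (F : Frame G M)

/-- bracket combination attached to a matrix -/
noncomputable def lam : Matrix (Fin n) (Fin n) ℚ →ₗ[ℚ] M where
  toFun ρ := ∑ s, ∑ t, ρ s t • ⁅F.x s, F.x t⁆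
  map_add' a b := by
    simp only [Matrix.add_apply, add_smul, Finset.sum_add_distrib]
  map_smul' a b := by
    simp only [Matrix.smul_apply, smul_eq_mul, mul_smul, Finset.smul_sum, RingHom.id_apply]

theorem lam_apply (ρ : Matrix (Fin n) (Fin n) ℚ) :
    F.lam ρ = ∑ s, ∑ t, ρ s t • ⁅F.x s, F.x t⁆ := rfl

theorem lie_eq (m m' : M) : ⁅m, m'⁆ = F.lam (vecMulVec (F.c m) (F.c m')) := by
  rw [F.hlie m m']
  rfl

theorem lam_mem (ρ : Matrix (Fin n) (Fin n) ℚ) : F.lam ρ ∈ WM M := by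
  rw [lam_apply]
  apply Submodule.sum_mem
  intro s _
  apply Submodule.sum_mem
  intro t _
  exact Submodule.smul_mem _ _ (Submodule.subset_span ⟨(F.x s, F.x t), rfl⟩)

theorem range_lam : LinearMap.range F.lam = WM M := by
  apply le_antisymm
  · rintro _ ⟨ρ, rfl⟩
    exact F.lam_mem ρ
  · apply Submodule.span_le.mpr
    rintro _ ⟨⟨a, b⟩, rfl⟩
    exact ⟨_, (F.lie_eq a b).symm⟩

/-- the vector with given coordinates -/
noncomputable def vec : (Fin n → ℚ) →ₗ[ℚ] M where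
  toFun a := ∑ s, a s • F.x s
  map_add' a b := by simp only [Pi.add_apply, add_smul, Finset.sum_add_distrib]
  map_smul' a b := by
    simp only [Pi.smul_apply, smul_eq_mul, mul_smul, Finset.smul_sum, RingHom.id_apply]

theorem c_vec (a : Fin n → ℚ) : F.c (F.vec a) = a := by
  change F.c (∑ s, a s • F.x s) = a
  rw [map_sum]
  simp only [map_smul, F.hcx]
  ext t
  simp [Finset.sum_apply, Pi.single_apply]

theorem sub_vec_mem (m : M) : m - F.vec (F.c m) ∈ WM M := by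
  rw [← F.hker, map_sub, F.c_vec, sub_self]

theorem c_lie (m m' : M) : F.c ⁅m, m'⁆ = 0 := by
  rw [F.hker]
  exact Submodule.subset_span ⟨(m, m'), rfl⟩

/-- good matrices preserve relations -/
theorem lam_conj {A : Matrix (Fin n) (Fin n) ℚ} (hA : toR A ∈ AlgQ G F.Q)
    {ρ : Matrix (Fin n) (Fin n) ℚ} (hρ : F.lam ρ = 0) : F.lam (A * ρ * Aᵀ) = 0 := by
  have hQ1 : F.Q⁻¹ * F.Q = 1 := Matrix.nonsing_inv_mul F.Q F.hQ
  have hQT : F.Qᵀ * F.Q⁻¹ᵀ = 1 := by rw [← Matrix.transpose_mul, hQ1, Matrix.transpose_one]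
  have h1 : toR ρ ∈ EdgeQ G F.Q := (F.hrel ρ).mp hρ
  apply (F.hrel _).mpr
  rw [mem_EdgeQ] at h1 ⊢
  rw [mem_AlgQ] at hA
  have h2 := hA.edgeSym h1
  have e : F.Q * toR A * F.Q⁻¹ * (F.Q * toR ρ * F.Qᵀ) * (F.Q * toR A * F.Q⁻¹)ᵀ
      = F.Q * toR (A * ρ * Aᵀ) * F.Qᵀ := by
    rw [toR_mul, toR_mul, toR_transpose, Matrix.transpose_mul, Matrix.transpose_mul]
    calc F.Q * toR A * F.Q⁻¹ * (F.Q * toR ρ * F.Qᵀ) * (F.Q⁻¹ᵀ * ((toR A)ᵀ * F.Qᵀ))
        = F.Q * toR A * (F.Q⁻¹ * F.Q) * toR ρ * (F.Qᵀ * F.Q⁻¹ᵀ) * (toR A)ᵀ * F.Qᵀ := by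
          simp only [mul_assoc]
      _ = _ := by rw [hQ1, hQT, mul_one, mul_one]; simp only [mul_assoc]
  rwa [e] at h2

theorem exists_auto [FiniteDimensional ℚ M] {A : Matrix (Fin n) (Fin n) ℚ}
    (hA : toR A ∈ AlgQ G F.Q) (hdet : IsUnit A.det) :
    ∃ g : M ≃ₗ⁅ℚ⁆ M, ∀ m, F.c (g m) = A *ᵥ F.c m := by
  classical
  let lamW : Matrix (Fin n) (Fin n) ℚ →ₗ[ℚ] WM M := F.lam.codRestrict (WM M) F.lam_mem
  have hsurj : Function.Surjective lamW := by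
    rintro ⟨w, hw⟩
    rw [← F.range_lam] at hw
    obtain ⟨ρ, hρ⟩ := hw
    exact ⟨ρ, Subtype.ext hρ⟩
  obtain ⟨sec, hsec⟩ := lamW.exists_rightInverse_of_surjective (LinearMap.range_eq_top.mpr hsurj)
  have hsec' : ∀ w : WM M, F.lam (sec w) = w := by
    intro w
    have := congrArg (fun f : WM M →ₗ[ℚ] WM M => ((f w : WM M) : M)) hsec
    exact this
  let πW : M →ₗ[ℚ] WM M := (LinearMap.id - F.vec ∘ₗ F.c).codRestrict (WM M) (by
    intro m
    exact F.sub_vec_mem m)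
  have hπW : ∀ m, (πW m : M) = m - F.vec (F.c m) := fun m => rfl
  let conj : Matrix (Fin n) (Fin n) ℚ →ₗ[ℚ] Matrix (Fin n) (Fin n) ℚ :=
    { toFun := fun ρ => A * ρ * Aᵀ
      map_add' := fun a b => by rw [mul_add, add_mul]
      map_smul' := fun a b => by rw [Matrix.mul_smul, Matrix.smul_mul, RingHom.id_apply] }
  let g : M →ₗ[ℚ] M := F.vec ∘ₗ (Matrix.toLin' A) ∘ₗ F.c + F.lam ∘ₗ conj ∘ₗ sec ∘ₗ πW
  have hg : ∀ m, g m = F.vec (A *ᵥ F.c m) + F.lam (A * sec (πW m) * Aᵀ) := fun m => rfl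
  have hcg : ∀ m, F.c (g m) = A *ᵥ F.c m := by
    intro m
    rw [hg, map_add, F.c_vec, (F.hker _).mpr (F.lam_mem _), add_zero]
  have hglam : ∀ ρ, g (F.lam ρ) = F.lam (A * ρ * Aᵀ) := by
    intro ρ
    have hc0 : F.c (F.lam ρ) = 0 := (F.hker _).mpr (F.lam_mem ρ)
    rw [hg, hc0, Matrix.mulVec_zero, map_zero, zero_add]
    have h1 : (πW (F.lam ρ) : M) = F.lam ρ := by
      rw [hπW, hc0, map_zero, sub_zero]
    have h2 : F.lam (sec (πW (F.lam ρ)) - ρ) = 0 := by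
      rw [map_sub, hsec', h1, sub_self]
    have h3 := F.lam_conj hA h2
    rw [mul_sub, sub_mul, map_sub, sub_eq_zero] at h3
    exact h3
  have hglie : ∀ m m', g ⁅m, m'⁆ = ⁅g m, g m'⁆ := by
    intro m m'
    rw [F.lie_eq m m', hglam, F.lie_eq (g m) (g m'), hcg, hcg]
    congr 1
    rw [Matrix.mul_vecMulVec, Matrix.vecMulVec_mul, Matrix.vecMul_transpose]
  let gl : M →ₗ⁅ℚ⁆ M := { g with map_lie' := fun {x y} => hglie x y }
  have hAinv : A * A⁻¹ = 1 := Matrix.mul_nonsing_inv A hdet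
  have hWrange : ∀ w ∈ WM M, w ∈ LinearMap.range g := by
    intro w hw
    rw [← F.range_lam] at hw
    obtain ⟨ρ, rfl⟩ := hw
    refine ⟨F.lam (A⁻¹ * ρ * A⁻¹ᵀ), ?_⟩
    rw [hglam]
    congr 1
    have hAinvT : A⁻¹ᵀ * Aᵀ = 1 := by rw [← Matrix.transpose_mul, hAinv, Matrix.transpose_one]
    calc A * (A⁻¹ * ρ * A⁻¹ᵀ) * Aᵀ = (A * A⁻¹) * ρ * (A⁻¹ᵀ * Aᵀ) := by simp only [mul_assoc]
      _ = ρ := by rw [hAinv, hAinvT, one_mul, mul_one]
  have hgsurj : Function.Surjective g := by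
    intro m
    have h1 : m - g (F.vec (A⁻¹ *ᵥ F.c m)) ∈ WM M := by
      rw [← F.hker, map_sub, hcg, F.c_vec, Matrix.mulVec_mulVec, hAinv, Matrix.one_mulVec,
        sub_self]
    obtain ⟨y, hy⟩ := hWrange _ h1
    refine ⟨y + F.vec (A⁻¹ *ᵥ F.c m), ?_⟩
    rw [map_add, hy]
    abel
  have hgbij : Function.Bijective gl :=
    ⟨(LinearMap.injective_iff_surjective (f := g)).mpr hgsurj, hgsurj⟩
  exact ⟨LieEquiv.ofBijective gl hgbij, fun m => hcg m⟩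

end Frame

end Pool.Agent.Lib.MP_3d22c5_an
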