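import Mathlib

set_option autoImplicit false

namespace Pool.Agent.Lib.MP_3d22c5_an

open NumberField Polynomial

theorem exists_pos_eisenstein (K : Type) [Field K] [NumberField K] (σ : K →+* ℝ) :
    ∃ (P : Ideal (𝓞 K)) (a : 𝓞 K), P.IsPrime ∧ a ∈ P ∧ a ∉ P ^ 2 ∧ 0 < σ (a : K) := by
  obtain ⟨P, hP0, hP⟩ := Ring.not_isField_iff_exists_prime.mp (RingOfIntegers.not_isField K)
  obtain ⟨a, ha1, ha2⟩ := Ideal.exists_mem_pow_notMem_pow_succ P hP0 hP.ne_top 1
  rw [pow_one] at ha1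
  have ha0 : a ≠ 0 := by
    rintro rfl
    exact ha2 (Ideal.zero_mem _)
  have hσ : σ (a : K) ≠ 0 := by
    rw [ne_eq, map_eq_zero]
    exact_mod_cast ha0
  rcases lt_or_gt_of_ne hσ with h | h
  · refine ⟨P, -a, hP, P.neg_mem ha1, ?_, ?_⟩
    · intro h'
      exact ha2 (by simpa using (P ^ 2).neg_mem h')
    · simpa using h
  · exact ⟨P, a, hP, ha1, ha2, h⟩

theorem exists_ext (K : Type) [Field K] [NumberField K] (σ : K →+* ℝ) (n : ℕ) (hn : 0 < n) :
    ∃ (F : Type) (_ : Field F) (_ : Algebra K F),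
      Module.finrank K F = n ∧ FiniteDimensional K F ∧ Nonempty (F →+* ℝ) := by
  obtain ⟨P, a, hP, ha1, ha2, hpos⟩ := exists_pos_eisenstein K σ
  set f : (𝓞 K)[X] := X ^ n - C a with hf
  have hmonic : f.Monic := monic_X_pow_sub_C a hn.ne'
  have hdeg : f.natDegree = n := natDegree_X_pow_sub_C
  have hE : f.IsEisensteinAt P := by
    refine ⟨?_, ?_, ?_⟩
    · rw [hmonic.leadingCoeff]
      exact (Ideal.ne_top_iff_one P).mp hP.ne_top
    · intro m hm
      rw [hdeg] at hm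
      rw [hf, coeff_sub, coeff_X_pow, if_neg hm.ne, coeff_C]
      split_ifs with h0
      · simpa using ha1
      · simp
    · rw [hf, coeff_sub, coeff_X_pow, if_neg hn.ne, coeff_C_zero, zero_sub]
      intro h'
      exact ha2 (by simpa using (P ^ 2).neg_mem h')
  have hirr : Irreducible f := hE.irreducible hP hmonic.isPrimitive (by rw [hdeg]; exact hn)
  have hirr' : Irreducible (f.map (algebraMap (𝓞 K) K)) :=
    (hmonic.irreducible_iff_irreducible_map_fraction_map (K := K)).mp hirr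
  haveI : Fact (Irreducible (f.map (algebraMap (𝓞 K) K))) := ⟨hirr'⟩
  have hne : f.map (algebraMap (𝓞 K) K) ≠ 0 := hirr'.ne_zero
  refine ⟨AdjoinRoot (f.map (algebraMap (𝓞 K) K)), inferInstance, inferInstance, ?_, ?_, ?_⟩
  · rw [(AdjoinRoot.powerBasis hne).finrank, AdjoinRoot.powerBasis_dim, hmonic.natDegree_map, hdeg]
  · exact (AdjoinRoot.powerBasis hne).finite
  · refine ⟨AdjoinRoot.lift σ ((σ (a : K)) ^ ((n : ℝ)⁻¹)) ?_⟩
    rw [hf]
    simp only [Polynomial.map_sub, Polynomial.map_pow, map_X, map_C, eval₂_sub, eval₂_pow, eval₂_X,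
      eval₂_C]
    rw [Real.rpow_inv_natCast_pow hpos.le hn.ne']
    simp

end Pool.Agent.Lib.MP_3d22c5_an
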