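import Mathlib
import Pool.Agent.Lib.MP_3d22c5_an.Ext

set_option autoImplicit false

namespace Pool.Agent.Lib.MP_3d22c5_an

open NumberField Polynomial

theorem exists_field_structure (V : Type) [AddCommGroup V] [Module ℚ V] [FiniteDimensional ℚ V]
    [Nontrivial V] (z : V →ₗ[ℚ] V) (f : ℚ[X]) (hf : Irreducible f) (hz : aeval z f = 0)
    (x : ℝ) (hx : aeval x f = 0) :
    ∃ (F : Type) (_ : Field F) (_ : NumberField F) (θ : V ≃ₗ[ℚ] F) (zF : F),
      (∀ v, θ (z v) = zF * θ v) ∧ Nonempty (F →+* ℝ) := by
  have : Fact (Irreducible f) := ⟨hf⟩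
  let K := AdjoinRoot f
  let φ : K →+* Module.End ℚ V := Ideal.Quotient.lift (Ideal.span {f})
    ((aeval z : ℚ[X] →ₐ[ℚ] Module.End ℚ V) : ℚ[X] →+* Module.End ℚ V) (by
      intro a ha
      obtain ⟨b, rfl⟩ := Ideal.mem_span_singleton.mp ha
      simp [hz])
  have hφroot : φ (AdjoinRoot.root f) = z := by
    change φ (AdjoinRoot.mk f X) = z
    have : φ (AdjoinRoot.mk f X) = aeval z (X : ℚ[X]) := rfl
    rw [this, aeval_X]
  letI : Module K V := Module.compHom V φ
  have hsmul : ∀ (k : K) (v : V), k • v = φ k v := fun k v => rfl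
  have hfne : f ≠ 0 := hf.ne_zero
  have : FiniteDimensional ℚ K := (AdjoinRoot.powerBasis hfne).finite
  have : NumberField K := { to_charZero := charZero_of_injective_algebraMap (algebraMap ℚ K).injective, to_finiteDimensional := by convert this }
  have : IsScalarTower ℚ K V := by
    constructor
    intro q k v
    let g : K →+ V := { toFun := fun k => k • v, map_zero' := zero_smul _ _, map_add' := fun a b => add_smul a b v }
    exact map_rat_smul g q k
  have : Module.Finite K V := Module.Finite.of_restrictScalars_finite ℚ K V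
  have hn : 0 < Module.finrank K V := Module.finrank_pos
  let σ : K →+* ℝ := AdjoinRoot.lift (algebraMap ℚ ℝ) x (by rwa [← aeval_def])
  obtain ⟨F, hF, hKF, hrank, hfin, ⟨ρ⟩⟩ := exists_ext K σ _ hn
  have : CharZero F := charZero_of_injective_algebraMap (algebraMap K F).injective
  have : FiniteDimensional ℚ F := by
    have : IsScalarTower ℚ K F := by
      constructor
      intro q k v
      let g : K →+ F := { toFun := fun k => k • v, map_zero' := zero_smul _ _, map_add' := fun a b => add_smul a b v }
      exact map_rat_smul g q k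
    exact Module.Finite.trans K F
  have : NumberField F := { to_charZero := inferInstance, to_finiteDimensional := inferInstance }
  let e : V ≃ₗ[K] F := LinearEquiv.ofFinrankEq V F hrank.symm
  let θ : V ≃ₗ[ℚ] F := { (e : V ≃+ F) with
    map_smul' := fun q v => by
      change (e : V →+ F) (q • v) = q • (e : V →+ F) v
      exact map_rat_smul (e : V →+ F) q v }
  refine ⟨F, hF, inferInstance, θ, algebraMap K F (AdjoinRoot.root f), ?_, ⟨ρ⟩⟩
  intro v
  change e (z v) = algebraMap K F (AdjoinRoot.root f) * e v
  have : z v = (AdjoinRoot.root f : K) • v := by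
    rw [hsmul, hφroot]
  rw [this, map_smul, Algebra.smul_def]

end Pool.Agent.Lib.MP_3d22c5_an
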