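import Mathlib

set_option autoImplicit false

namespace Pool.Agent.Lib.MP_3d22c5_an

open NumberField InfinitePlace

theorem exists_good_unit (F : Type) [Field F] [NumberField F] (w₁ : InfinitePlace F)
    (hw₁ : w₁.IsReal) :
    ∃ u : (𝓞 F)ˣ,
      (∀ w : InfinitePlace F, w (u : F) = 1 → Module.finrank ℚ F = 1) ∧
      (∀ w w' : InfinitePlace F, w (u : F) ≠ 1 → w (u : F) * w' (u : F) = 1 →
        Module.finrank ℚ F = 2 ∧ w ≠ w') := by
  classical
  obtain ⟨u, hu⟩ := Units.dirichletUnitTheorem.exists_unit F w₁
  have hpos : ∀ w : InfinitePlace F, 0 < w (u : F) := fun w => Units.pos_at_place u w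
  have hsum := Units.sum_mult_mul_log u
  have hmult := sum_mult_eq (K := F)
  have h1 : w₁.mult = 1 := hw₁.mult_eq_one
  have key : ∀ S : Finset (InfinitePlace F), w₁ ∉ S →
      (∑ w ∈ S, (w.mult : ℝ) * Real.log (w (u : F))) ≤ 0 := by
    intro S hS
    apply Finset.sum_nonpos
    intro w hw
    have : w ≠ w₁ := fun h => hS (h ▸ hw)
    have h2 := hu w this
    have h3 : (0 : ℝ) ≤ w.mult := by positivity
    nlinarith
  have key2 : ∀ S : Finset (InfinitePlace F), w₁ ∉ S →
      (∑ w ∈ S, (w.mult : ℝ) * Real.log (w (u : F))) = 0 → S = ∅ := by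
    intro S hS h0
    by_contra hne
    obtain ⟨w, hw⟩ := Finset.nonempty_iff_ne_empty.mpr hne
    have : (∑ w ∈ S, (w.mult : ℝ) * Real.log (w (u : F))) < 0 := by
      apply Finset.sum_neg
      · intro w hw
        have : w ≠ w₁ := fun h => hS (h ▸ hw)
        have h2 := hu w this
        have h3 : (0 : ℝ) < w.mult := by exact_mod_cast mult_pos
        nlinarith
      · exact ⟨w, hw⟩
    linarith
  have e1 : Real.log (w₁ (u : F)) +
      ∑ w ∈ Finset.univ.erase w₁, (w.mult : ℝ) * Real.log (w (u : F)) = 0 := by
    rw [← hsum, ← Finset.add_sum_erase _ _ (Finset.mem_univ w₁), h1]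
    simp
  have e2 : 1 + ∑ w ∈ Finset.univ.erase w₁, w.mult = Module.finrank ℚ F := by
    rw [← hmult, ← Finset.add_sum_erase _ _ (Finset.mem_univ w₁), h1]
  have first : ∀ w : InfinitePlace F, w (u : F) = 1 → Module.finrank ℚ F = 1 := by
    intro w hw
    by_cases hww : w = w₁
    · subst hww
      rw [hw, Real.log_one, zero_add] at e1
      have := key2 _ (Finset.notMem_erase _ _) e1
      rw [this] at e2
      simpa using e2.symm
    · have := hu w hww
      rw [hw, Real.log_one] at this
      exact absurd this (lt_irrefl _)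
  -- the asymmetric case
  have asym : ∀ w : InfinitePlace F, w ≠ w₁ →
      Real.log (w₁ (u : F)) + Real.log (w (u : F)) = 0 → Module.finrank ℚ F = 2 := by
    intro w hw h
    have hmem : w ∈ Finset.univ.erase w₁ := Finset.mem_erase.mpr ⟨hw, Finset.mem_univ _⟩
    rw [← Finset.add_sum_erase _ _ hmem] at e1 e2
    have hn := hu w hw
    have hS : w₁ ∉ (Finset.univ.erase w₁).erase w := by
      simp
    have hle := key _ hS
    have hm1 : (1 : ℝ) ≤ w.mult := by
      exact_mod_cast (mult_pos (w := w))
    have hz : (∑ w ∈ (Finset.univ.erase w₁).erase w, (w.mult : ℝ) * Real.log (w (u : F))) = 0 := by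
      nlinarith
    have hS0 := key2 _ hS hz
    rw [hS0] at e1 e2
    have hm : (w.mult : ℝ) = 1 := by
      have : ((w.mult : ℝ) - 1) * Real.log (w (u : F)) = 0 := by
        simp only [Finset.sum_empty, add_zero] at e1
        linarith
      rcases mul_eq_zero.mp this with h' | h'
      · linarith
      · exact absurd h' hn.ne
    have hm' : w.mult = 1 := by exact_mod_cast hm
    rw [hm'] at e2
    simpa using e2.symm
  refine ⟨u, first, ?_⟩
  intro w w' hw hprod
  have hlog : Real.log (w (u : F)) + Real.log (w' (u : F)) = 0 := by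
    rw [← Real.log_mul (hpos w).ne' (hpos w').ne', hprod, Real.log_one]
  by_cases h : w = w₁
  · by_cases h' : w' = w₁
    · exfalso
      subst h
      subst h'
      have h0 : Real.log (w' (u : F)) = 0 := by linarith
      have := Real.eq_one_of_pos_of_log_eq_zero (hpos w') h0
      exact hw this
    · subst h
      exact ⟨asym w' h' hlog, fun e => h' e.symm⟩
  · by_cases h' : w' = w₁
    · subst h'
      exact ⟨asym w h (by linarith), h⟩
    · have a := hu w h
      have b := hu w' h'
      linarith

end Pool.Agent.Lib.MP_3d22c5_an
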