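import Mathlib
import Pool.Agent.Lib.MP_3d22c5_an.Units
import Pool.Agent.Lib.MP_3d22c5_an.FieldStr

set_option autoImplicit false

namespace Pool.Agent.Lib.MP_3d22c5_an

open NumberField Polynomial

/-- A simultaneous diagonalisation (by functionals) of `z` and of some `A` whose eigenvalues are
units with controlled absolute values. -/
def GoodDiag (V : Type) [AddCommGroup V] [Module ℚ V] (z : V →ₗ[ℚ] V) : Prop :=
  ∃ (A : V →ₗ[ℚ] V) (T : Type) (_ : Fintype T) (ψ : T → (V →ₗ[ℚ] ℂ)) (μ ζ : T → ℂ),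
    Fintype.card T = Module.finrank ℚ V ∧
    (∀ ℓ : V →ₗ[ℚ] ℂ, ∃ a : T → ℂ, ∀ x, ℓ x = ∑ t, a t * ψ t x) ∧
    (∀ t x, ψ t (A x) = μ t * ψ t x) ∧
    (∀ t x, ψ t (z x) = ζ t * ψ t x) ∧
    (∀ t, ∃ x, ψ t x ≠ 0) ∧
    (∀ t, IsIntegral ℤ (μ t) ∧ IsIntegral ℤ (μ t)⁻¹ ∧ μ t ≠ 0) ∧
    (∀ t, ‖μ t‖ = 1 → ∀ t', ζ t' = ζ t → t' = t) ∧
    (∀ t t', ‖μ t‖ ≠ 1 → ‖μ t'‖ ≠ 1 → ‖μ t‖ * ‖μ t'‖ = 1 →
      t ≠ t' ∧ (∀ s, ζ s = ζ t → s = t ∨ s = t') ∧ (∀ s, ζ s = ζ t' → s = t ∨ s = t'))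

theorem goodDiag_of_subsingleton (V : Type) [AddCommGroup V] [Module ℚ V] [Subsingleton V]
    (z : V →ₗ[ℚ] V) : GoodDiag V z := by
  refine ⟨0, Empty, inferInstance, fun t => t.elim, fun t => t.elim, fun t => t.elim,
    ?_, ?_, ?_, ?_, ?_, ?_, ?_, ?_⟩
  · simp [Module.finrank_zero_of_subsingleton]
  · intro ℓ
    refine ⟨fun t => t.elim, fun x => ?_⟩
    rw [Subsingleton.elim x 0]
    simp
  all_goals exact fun t => t.elim

theorem goodDiag_of_irreducible (V : Type) [AddCommGroup V] [Module ℚ V] [FiniteDimensional ℚ V]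
    (z : V →ₗ[ℚ] V) (f : ℚ[X]) (hf : Irreducible f) (hz : aeval z f = 0)
    (x : ℝ) (hx : aeval x f = 0) : GoodDiag V z := by
  rcases subsingleton_or_nontrivial V with hV | hV
  · exact goodDiag_of_subsingleton V z
  obtain ⟨F, hF, hNF, θ, zF, hθ, ⟨ρ⟩⟩ := exists_field_structure V z f hf hz x hx
  -- the real place
  let φ₁ : F →+* ℂ := Complex.ofRealHom.comp ρ
  have hφ₁ : ComplexEmbedding.IsReal φ₁ := by
    rw [ComplexEmbedding.isReal_iff]
    ext y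
    simp [φ₁, ComplexEmbedding.conjugate_coe_eq]
  obtain ⟨u, hu1, hu2⟩ := exists_good_unit F (InfinitePlace.mk φ₁) ⟨φ₁, hφ₁, rfl⟩
  have hcard : Fintype.card (F →+* ℂ) = Module.finrank ℚ V := by
    rw [NumberField.Embeddings.card, θ.finrank_eq]
  have hnorm : ∀ τ : F →+* ℂ, (InfinitePlace.mk τ) (u : F) = ‖τ (u : F)‖ := fun τ => rfl
  let ψ : (F →+* ℂ) → (V →ₗ[ℚ] ℂ) := fun τ => (τ.toRatAlgHom.toLinearMap).comp θ.toLinearMap
  have hψ : ∀ τ v, ψ τ v = τ (θ v) := fun τ v => rfl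
  refine ⟨θ.symm.toLinearMap ∘ₗ (LinearMap.mulLeft ℚ (u : F)) ∘ₗ θ.toLinearMap, F →+* ℂ,
    inferInstance, ψ, fun τ => τ (u : F), fun τ => τ zF, hcard, ?_, ?_, ?_, ?_, ?_, ?_, ?_⟩
  · intro ℓ
    -- functionals on `F`
    have hli : LinearIndependent ℂ (fun τ : F →+* ℂ => ψ τ) := by
      have h := linearIndependent_toLinearMap ℚ F ℂ
      have h2 : LinearIndependent ℂ (fun τ : F →+* ℂ => (τ.toRatAlgHom.toLinearMap)) :=
        h.comp (fun τ : F →+* ℂ => τ.toRatAlgHom) (fun a b hab => by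
          ext y
          exact congrArg (fun g : F →ₐ[ℚ] ℂ => g y) hab)
      rw [Fintype.linearIndependent_iff] at h2 ⊢
      intro g hg τ
      apply h2 g _ τ
      ext y
      have := congrArg (fun g : V →ₗ[ℚ] ℂ => g (θ.symm y)) hg
      simpa [hψ] using this
    have hfin : Module.finrank ℂ (V →ₗ[ℚ] ℂ) = Fintype.card (F →+* ℂ) := by
      rw [hcard, Module.finrank_linearMap_self]
    have hspan := hli.span_eq_top_of_card_eq_finrank' hfin.symm
    have hmem : ℓ ∈ Submodule.span ℂ (Set.range (fun τ : F →+* ℂ => ψ τ)) := by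
      rw [hspan]; trivial
    obtain ⟨c, hc⟩ := (Submodule.mem_span_range_iff_exists_fun ℂ).mp hmem
    refine ⟨c, fun x => ?_⟩
    rw [← hc]
    simp
  · intro τ v
    simp [hψ]
  · intro τ v
    simp [hψ, hθ]
  · intro τ
    refine ⟨θ.symm 1, ?_⟩
    simp [hψ]
  · intro τ
    have h1 : IsIntegral ℤ ((u : 𝓞 F) : F) := RingOfIntegers.isIntegral_coe _
    have h2 : IsIntegral ℤ (((u⁻¹ : (𝓞 F)ˣ) : 𝓞 F) : F) := RingOfIntegers.isIntegral_coe _
    have h3 : τ (((u⁻¹ : (𝓞 F)ˣ) : 𝓞 F) : F) = (τ (u : F))⁻¹ := by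
      rw [← map_inv₀]
      congr 1
      rw [eq_comm, inv_eq_iff_eq_inv, eq_comm]
      apply inv_eq_of_mul_eq_one_right
      rw [← map_mul, ← Units.val_mul, inv_mul_cancel]
      simp
    refine ⟨h1.map τ.toIntAlgHom, ?_, ?_⟩
    · change IsIntegral ℤ (τ (u : F))⁻¹
      rw [← h3]
      exact h2.map τ.toIntAlgHom
    · simp
  · intro τ h τ' _
    have h1 := hu1 (InfinitePlace.mk τ) (by rw [hnorm]; exact h)
    have : Fintype.card (F →+* ℂ) = 1 := by
      rw [NumberField.Embeddings.card, h1]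
    exact Fintype.card_le_one_iff.mp this.le _ _
  · intro τ τ' h1 _ h3
    have := hu2 (InfinitePlace.mk τ) (InfinitePlace.mk τ') (by rw [hnorm]; exact h1)
      (by rw [hnorm, hnorm]; exact h3)
    have hne : τ ≠ τ' := by
      rintro rfl
      exact this.2 rfl
    have hc2 : Fintype.card (F →+* ℂ) = 2 := by
      rw [NumberField.Embeddings.card, this.1]
    have hall : ∀ s : F →+* ℂ, s = τ ∨ s = τ' := by
      classical
      intro s
      by_contra hs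
      push Not at hs
      have : ({s, τ, τ'} : Finset (F →+* ℂ)).card = 3 := by
        rw [Finset.card_eq_three]
        exact ⟨s, τ, τ', hs.1, hs.2, hne, rfl⟩
      have h4 := Finset.card_le_univ ({s, τ, τ'} : Finset (F →+* ℂ))
      omega
    exact ⟨hne, fun s _ => hall s, fun s _ => hall s⟩

end Pool.Agent.Lib.MP_3d22c5_an
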