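import Mathlib
import Pool.Agent.Lib.MP_3d22c5_an.GoodDiag

set_option autoImplicit false

namespace Pool.Agent.Lib.MP_3d22c5_an

open Polynomial

theorem aeval_functional {V : Type} [AddCommGroup V] [Module ℚ V] (z : V →ₗ[ℚ] V)
    (ψ : V →ₗ[ℚ] ℂ) (ζ : ℂ) (h : ∀ x, ψ (z x) = ζ * ψ x) (g : ℚ[X]) (x : V) :
    ψ (aeval z g x) = aeval ζ g * ψ x := by
  induction g using Polynomial.induction_on' generalizing x with
  | add p q hp hq => simp [hp, hq, add_mul]
  | monomial n a =>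
    have : ∀ (n : ℕ) (x : V), ψ ((z ^ n) x) = ζ ^ n * ψ x := by
      intro n
      induction n with
      | zero => simp
      | succ n ih =>
        intro x
        rw [pow_succ, Module.End.mul_apply, ih, h, pow_succ]
        ring
    rw [aeval_monomial, aeval_monomial]
    simp only [Module.End.mul_apply, Module.algebraMap_end_apply, map_smul, this]
    rw [Algebra.smul_def, mul_assoc]

theorem exists_exponent {T₁ T₂ : Type} [Fintype T₁] [Fintype T₂] (a : T₁ → ℝ) (b : T₂ → ℝ)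
    (ha : ∀ t, 0 < a t) :
    ∃ k : ℕ, 0 < k ∧ ∀ t s, a t ≠ 1 → a t ^ k * b s ≠ 1 := by
  have hfin : (⋃ t : T₁, ⋃ s : T₂, {k : ℕ | a t ≠ 1 ∧ a t ^ k * b s = 1}).Finite := by
    apply Set.finite_iUnion
    intro t
    apply Set.finite_iUnion
    intro s
    apply Set.Subsingleton.finite
    intro k hk l hl
    have h1 : b s ≠ 0 := by
      intro h
      have := hk.2
      rw [h, mul_zero] at this
      exact zero_ne_one this
    have h2 : a t ^ k = a t ^ l := by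
      have := hk.2.trans hl.2.symm
      exact mul_right_cancel₀ h1 this
    exact pow_right_injective₀ (ha t) hk.1 h2
  obtain ⟨k, hk0, hk⟩ := (Set.Ioi_infinite (0 : ℕ)).exists_notMem_finite hfin
  refine ⟨k, hk0, fun t s h1 h2 => hk ?_⟩
  simp only [Set.mem_iUnion]
  exact ⟨t, s, h1, h2⟩

theorem goodDiag_combine {V V₁ V₂ : Type} [AddCommGroup V] [Module ℚ V]
    [AddCommGroup V₁] [Module ℚ V₁] [AddCommGroup V₂] [Module ℚ V₂]
    [FiniteDimensional ℚ V₁] [FiniteDimensional ℚ V₂]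
    (e : (V₁ × V₂) ≃ₗ[ℚ] V) (z : V →ₗ[ℚ] V) (z₁ : V₁ →ₗ[ℚ] V₁) (z₂ : V₂ →ₗ[ℚ] V₂)
    (he : ∀ x y, z (e (x, y)) = e (z₁ x, z₂ y)) (g₁ g₂ : ℚ[X]) (hcop : IsCoprime g₁ g₂)
    (hg₁ : aeval z₁ g₁ = 0) (hg₂ : aeval z₂ g₂ = 0)
    (G₁ : GoodDiag V₁ z₁) (G₂ : GoodDiag V₂ z₂) : GoodDiag V z := by
  obtain ⟨A₁, T₁, _, ψ₁, μ₁, ζ₁, hc₁, hs₁, hA₁, hz₁, hn₁, hi₁, ha₁, hb₁⟩ := G₁
  obtain ⟨A₂, T₂, _, ψ₂, μ₂, ζ₂, hc₂, hs₂, hA₂, hz₂, hn₂, hi₂, ha₂, hb₂⟩ := G₂
  obtain ⟨k, hk0, hk⟩ := exists_exponent (fun t => ‖μ₁ t‖) (fun t => ‖μ₂ t‖)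
    (fun t => norm_pos_iff.mpr (hi₁ t).2.2)
  -- disjointness
  have hr₁ : ∀ t, aeval (ζ₁ t) g₁ = 0 := by
    intro t
    obtain ⟨x, hx⟩ := hn₁ t
    have := aeval_functional z₁ (ψ₁ t) (ζ₁ t) (hz₁ t) g₁ x
    rw [hg₁] at this
    simp only [LinearMap.zero_apply, map_zero] at this
    rcases mul_eq_zero.mp this.symm with h | h
    · exact h
    · exact absurd h hx
  have hr₂ : ∀ t, aeval (ζ₂ t) g₂ = 0 := by
    intro t
    obtain ⟨x, hx⟩ := hn₂ t
    have := aeval_functional z₂ (ψ₂ t) (ζ₂ t) (hz₂ t) g₂ x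
    rw [hg₂] at this
    simp only [LinearMap.zero_apply, map_zero] at this
    rcases mul_eq_zero.mp this.symm with h | h
    · exact h
    · exact absurd h hx
  have hdis : ∀ t s, ζ₁ t ≠ ζ₂ s := by
    intro t s h
    obtain ⟨a, b, hab⟩ := hcop
    have := congrArg (aeval (ζ₁ t)) hab
    rw [map_add, map_mul, map_mul, hr₁ t, h, hr₂ s] at this
    simp at this
  have hA₁k : ∀ (k : ℕ) t x, ψ₁ t ((A₁ ^ k) x) = μ₁ t ^ k * ψ₁ t x := by
    intro k
    induction k with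
    | zero => simp
    | succ n ih =>
      intro t x
      rw [pow_succ, Module.End.mul_apply, ih, hA₁, pow_succ]
      ring
  let π₁ : V →ₗ[ℚ] V₁ := LinearMap.fst ℚ V₁ V₂ ∘ₗ e.symm.toLinearMap
  let π₂ : V →ₗ[ℚ] V₂ := LinearMap.snd ℚ V₁ V₂ ∘ₗ e.symm.toLinearMap
  have hπ₁ : ∀ x y, π₁ (e (x, y)) = x := fun x y => by simp [π₁]
  have hπ₂ : ∀ x y, π₂ (e (x, y)) = y := fun x y => by simp [π₂]
  refine ⟨e.toLinearMap ∘ₗ (LinearMap.prodMap (A₁ ^ k) A₂) ∘ₗ e.symm.toLinearMap,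
    T₁ ⊕ T₂, inferInstance,
    Sum.elim (fun t => ψ₁ t ∘ₗ π₁) (fun t => ψ₂ t ∘ₗ π₂),
    Sum.elim (fun t => μ₁ t ^ k) μ₂, Sum.elim ζ₁ ζ₂, ?_, ?_, ?_, ?_, ?_, ?_, ?_, ?_⟩
  · rw [Fintype.card_sum, hc₁, hc₂, ← e.finrank_eq, Module.finrank_prod]
  · intro ℓ
    obtain ⟨a₁, h₁⟩ := hs₁ (ℓ ∘ₗ e.toLinearMap ∘ₗ LinearMap.inl ℚ V₁ V₂)
    obtain ⟨a₂, h₂⟩ := hs₂ (ℓ ∘ₗ e.toLinearMap ∘ₗ LinearMap.inr ℚ V₁ V₂)
    refine ⟨Sum.elim a₁ a₂, fun v => ?_⟩
    obtain ⟨⟨x, y⟩, rfl⟩ := e.surjective v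
    have h₁' := h₁ x
    have h₂' := h₂ y
    simp only [LinearMap.comp_apply, LinearMap.inl_apply, LinearMap.inr_apply,
      LinearEquiv.coe_coe] at h₁' h₂'
    have : e (x, y) = e (x, 0) + e (0, y) := by
      rw [← map_add]; simp
    rw [this, map_add, h₁', h₂', Fintype.sum_sum_type]
    simp only [Sum.elim_inl, Sum.elim_inr, LinearMap.comp_apply, ← this, hπ₁, hπ₂]
  · intro t v
    obtain ⟨⟨x, y⟩, rfl⟩ := e.surjective v
    rcases t with t | t
    · simp only [Sum.elim_inl, LinearMap.comp_apply, LinearEquiv.coe_coe,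
        LinearEquiv.symm_apply_apply, LinearMap.prodMap_apply, hπ₁, hA₁k]
    · simp only [Sum.elim_inr, LinearMap.comp_apply, LinearEquiv.coe_coe,
        LinearEquiv.symm_apply_apply, LinearMap.prodMap_apply, hπ₂, hA₂]
  · intro t v
    obtain ⟨⟨x, y⟩, rfl⟩ := e.surjective v
    rcases t with t | t
    · simp only [Sum.elim_inl, LinearMap.comp_apply, he, hπ₁, hz₁]
    · simp only [Sum.elim_inr, LinearMap.comp_apply, he, hπ₂, hz₂]
  · intro t
    rcases t with t | t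
    · obtain ⟨x, hx⟩ := hn₁ t
      exact ⟨e (x, 0), by simpa only [Sum.elim_inl, LinearMap.comp_apply, hπ₁] using hx⟩
    · obtain ⟨x, hx⟩ := hn₂ t
      exact ⟨e (0, x), by simpa only [Sum.elim_inr, LinearMap.comp_apply, hπ₂] using hx⟩
  · intro t
    rcases t with t | t
    · refine ⟨(hi₁ t).1.pow k, ?_, pow_ne_zero _ (hi₁ t).2.2⟩
      simp only [Sum.elim_inl]
      rw [← inv_pow]
      exact (hi₁ t).2.1.pow k
    · exact hi₂ t
  · intro t h t' h'
    rcases t with t | t <;> rcases t' with t' | t'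
    · simp only [Sum.elim_inl] at h h'
      rw [norm_pow, pow_eq_one_iff_of_nonneg (norm_nonneg _) hk0.ne'] at h
      rw [ha₁ t h t' h']
    · exact absurd h'.symm (hdis t t')
    · exact absurd h' (hdis t' t)
    · simp only [Sum.elim_inr] at h h'
      rw [ha₂ t h t' h']
  · intro t t' h h' hh
    rcases t with t | t <;> rcases t' with t' | t'
    · simp only [Sum.elim_inl] at h h' hh
      rw [norm_pow, ne_eq, pow_eq_one_iff_of_nonneg (norm_nonneg _) hk0.ne'] at h h'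
      rw [norm_pow, norm_pow, ← mul_pow,
        pow_eq_one_iff_of_nonneg (by positivity) hk0.ne'] at hh
      obtain ⟨c1, c2, c3⟩ := hb₁ t t' h h' hh
      refine ⟨fun e => c1 (Sum.inl.inj e), ?_, ?_⟩
      · intro s hs
        rcases s with s | s
        · rcases c2 s hs with r | r
          · left; rw [r]
          · right; rw [r]
        · exact absurd hs.symm (hdis t s)
      · intro s hs
        rcases s with s | s
        · rcases c3 s hs with r | r
          · left; rw [r]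
          · right; rw [r]
        · exact absurd hs.symm (hdis t' s)
    · exfalso
      simp only [Sum.elim_inl, Sum.elim_inr] at h h' hh
      rw [norm_pow, ne_eq, pow_eq_one_iff_of_nonneg (norm_nonneg _) hk0.ne'] at h
      rw [norm_pow] at hh
      exact hk t t' h hh
    · exfalso
      simp only [Sum.elim_inl, Sum.elim_inr] at h h' hh
      rw [norm_pow, ne_eq, pow_eq_one_iff_of_nonneg (norm_nonneg _) hk0.ne'] at h'
      rw [norm_pow, mul_comm] at hh
      exact hk t' t h' hh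
    · simp only [Sum.elim_inr] at h h' hh
      obtain ⟨c1, c2, c3⟩ := hb₂ t t' h h' hh
      refine ⟨fun e => c1 (Sum.inr.inj e), ?_, ?_⟩
      · intro s hs
        rcases s with s | s
        · exact absurd hs (hdis s t)
        · rcases c2 s hs with r | r
          · left; rw [r]
          · right; rw [r]
      · intro s hs
        rcases s with s | s
        · exact absurd hs (hdis s t')
        · rcases c3 s hs with r | r
          · left; rw [r]
          · right; rw [r]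

end Pool.Agent.Lib.MP_3d22c5_an
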