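import Mathlib
import Pool.Agent.Lib.MP_3d22c5_an.Combine

set_option autoImplicit false

namespace Pool.Agent.Lib.MP_3d22c5_an

open Polynomial

theorem aeval_restrict_apply {V : Type} [AddCommGroup V] [Module ℚ V] (z : V →ₗ[ℚ] V)
    (W : Submodule ℚ V) (h : ∀ x ∈ W, z x ∈ W) (g : ℚ[X]) (x : W) :
    ((aeval (z.restrict h) g x : W) : V) = aeval z g (x : V) := by
  induction g using Polynomial.induction_on' generalizing x with
  | add p q hp hq => simp [hp, hq]
  | monomial n a =>
    have : ∀ (n : ℕ) (x : W), (((z.restrict h) ^ n) x : V) = (z ^ n) (x : V) := by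
      intro n
      induction n with
      | zero => simp
      | succ n ih =>
        intro x
        rw [pow_succ, Module.End.mul_apply, ih, pow_succ, Module.End.mul_apply]
        rfl
    rw [aeval_monomial, aeval_monomial]
    simp only [Module.End.mul_apply, Module.algebraMap_end_apply, Submodule.coe_smul, this]

theorem goodDiag_main (g : ℚ[X]) : Squarefree g →
    (∀ f : ℚ[X], Irreducible f → f ∣ g → ∃ x : ℝ, aeval x f = 0) →
    ∀ (V : Type) [AddCommGroup V] [Module ℚ V] [FiniteDimensional ℚ V] (z : V →ₗ[ℚ] V),
      aeval z g = 0 → GoodDiag V z := by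
  induction g using WfDvdMonoid.induction_on_irreducible with
  | zero => intro h; exact absurd h not_squarefree_zero
  | unit u hu =>
    intro _ _ V _ _ _ z hz
    have h1 : IsUnit (aeval z u) := hu.map (aeval z)
    rw [hz, isUnit_zero_iff] at h1
    have : Subsingleton V := by
      constructor
      intro a b
      have ha := congrArg (fun f : Module.End ℚ V => f a) h1
      have hb := congrArg (fun f : Module.End ℚ V => f b) h1
      simp only [LinearMap.zero_apply, Module.End.one_apply] at ha hb
      rw [← ha, ← hb]
    exact goodDiag_of_subsingleton V z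
  | mul a p ha hp ih =>
    intro hsq hreal V _ _ _ z hz
    have hcop : IsCoprime p a := by
      rw [hp.coprime_iff_not_dvd]
      intro hdvd
      have := hsq p (mul_dvd_mul_left p hdvd)
      exact hp.not_isUnit this
    have hV₁ : ∀ q : ℚ[X], ∀ x ∈ LinearMap.ker (aeval z q), z x ∈ LinearMap.ker (aeval z q) := by
      intro q x hx
      rw [LinearMap.mem_ker] at hx ⊢
      have hc : aeval z q * z = z * aeval z q := by
        have := congrArg (aeval z) (mul_comm q X)
        rwa [map_mul, map_mul, aeval_X] at this
      have := congrArg (fun f : Module.End ℚ V => f x) hc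
      simp only [Module.End.mul_apply, hx, map_zero] at this
      exact this
    have hcompl : IsCompl (LinearMap.ker (aeval z p)) (LinearMap.ker (aeval z a)) := by
      constructor
      · exact disjoint_ker_aeval_of_isCoprime z hcop
      · rw [codisjoint_iff, sup_ker_aeval_eq_ker_aeval_mul_of_coprime z hcop, hz]
        exact LinearMap.ker_zero
    have z1 : aeval (z.restrict (hV₁ p)) p = 0 := by
      ext x
      rw [aeval_restrict_apply]
      exact x.2
    have z2 : aeval (z.restrict (hV₁ a)) a = 0 := by
      ext x
      rw [aeval_restrict_apply]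
      exact x.2
    obtain ⟨r, hr⟩ := hreal p hp (dvd_mul_right p a)
    refine goodDiag_combine (Submodule.prodEquivOfIsCompl _ _ hcompl) z
      (z.restrict (hV₁ p)) (z.restrict (hV₁ a)) ?_ p a hcop z1 z2 ?_ ?_
    · intro x y
      simp
    · exact goodDiag_of_irreducible _ _ p hp z1 r hr
    · exact ih (hsq.of_mul_right) (fun f hf hfa => hreal f hf (hfa.mul_left p)) _ _ z2

end Pool.Agent.Lib.MP_3d22c5_an
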