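import Mathlib
import Pool.Agent.Lib.MP_3d22c5_an.Induct

set_option autoImplicit false

namespace Pool.Agent.Lib.MP_3d22c5_an

open Polynomial Matrix

theorem aeval_map_mul {n : ℕ} (z : Matrix (Fin n) (Fin n) ℚ) (P : Matrix (Fin n) (Fin n) ℝ)
    (ξ : Fin n → ℝ) (hz : z.map (algebraMap ℚ ℝ) * P = P * diagonal ξ) (g : ℚ[X]) :
    (aeval z g).map (algebraMap ℚ ℝ) * P = P * diagonal (fun s => aeval (ξ s) g) := by
  induction g using Polynomial.induction_on' with
  | add p q hp hq =>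
    rw [map_add, Matrix.map_add _ (fun a b => by simp), add_mul, hp, hq, ← mul_add,
      diagonal_add]
    simp
  | monomial k a =>
    have : ∀ k : ℕ, (z ^ k).map (algebraMap ℚ ℝ) * P = P * diagonal (fun s => ξ s ^ k) := by
      intro k
      induction k with
      | zero => simp
      | succ k ih =>
        rw [pow_succ, Matrix.map_mul, mul_assoc, hz, ← mul_assoc, ih, mul_assoc,
          diagonal_mul_diagonal]
        simp [pow_succ]
    rw [aeval_monomial, ← Algebra.smul_def, Matrix.map_smul' _ _ _ (fun a b => by simp)]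
    simp only [aeval_monomial]
    rw [smul_mul_assoc, this k, ← Matrix.mul_smul]
    congr 1
    rw [← diagonal_smul]
    rfl

theorem exists_squarefree {n : ℕ} (z : Matrix (Fin n) (Fin n) ℚ)
    (P : Matrix (Fin n) (Fin n) ℝ) (hP : IsUnit P.det)
    (ξ : Fin n → ℝ) (hz : z.map (algebraMap ℚ ℝ) * P = P * diagonal ξ) :
    ∃ g : ℚ[X], Squarefree g ∧
      (∀ f : ℚ[X], Irreducible f → f ∣ g → ∃ x : ℝ, aeval x f = 0) ∧ aeval z g = 0 := by
  classical
  have halg : ∀ s, IsIntegral ℚ (ξ s) := by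
    intro s
    refine ⟨z.charpoly, z.charpoly_monic, ?_⟩
    rw [← aeval_def]
    have h := aeval_map_mul z P ξ hz z.charpoly
    rw [Matrix.aeval_self_charpoly] at h
    have h0 : P * diagonal (fun s => aeval (ξ s) z.charpoly) = 0 := by
      rw [← h]; simp
    have h1 : diagonal (fun s => aeval (ξ s) z.charpoly) = 0 := by
      have := congrArg (fun M => P⁻¹ * M) h0
      simpa [← mul_assoc, Matrix.nonsing_inv_mul P hP] using this
    have := congrFun (congrFun h1 s) s
    simpa using this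
  let S : Finset ℚ[X] := Finset.univ.image (fun s => minpoly ℚ (ξ s))
  have hS : ∀ f ∈ S, Irreducible f ∧ f.Monic ∧ ∃ s, f = minpoly ℚ (ξ s) := by
    intro f hf
    obtain ⟨s, -, rfl⟩ := Finset.mem_image.mp hf
    exact ⟨minpoly.irreducible (halg s), minpoly.monic (halg s), s, rfl⟩
  refine ⟨∏ f ∈ S, f, ?_, ?_, ?_⟩
  · apply Finset.squarefree_prod_of_pairwise_isCoprime
    · intro f hf g hg hfg
      obtain ⟨hf1, hf2, _⟩ := hS f hf
      obtain ⟨hg1, hg2, _⟩ := hS g hg
      apply IsCoprime.isRelPrime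
      change IsCoprime f g
      rw [hf1.coprime_iff_not_dvd]
      intro hdvd
      apply hfg
      exact eq_of_monic_of_associated hf2 hg2 (hf1.associated_of_dvd hg1 hdvd)
    · intro f hf
      exact (hS f hf).1.squarefree
  · intro f hf hdvd
    obtain ⟨m, hm, hfm⟩ := (hf.prime.dvd_finsetProd_iff _).mp hdvd
    obtain ⟨hm1, hm2, s, hs⟩ := hS m hm
    refine ⟨ξ s, ?_⟩
    obtain ⟨u, hu⟩ := hf.associated_of_dvd hm1 hfm
    have h0 : aeval (ξ s) m = 0 := by rw [hs]; exact minpoly.aeval _ _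
    rw [← hu, map_mul] at h0
    rcases mul_eq_zero.mp h0 with h | h
    · exact h
    · exact absurd h ((u.isUnit.map (aeval (ξ s))).ne_zero)
  · have h := aeval_map_mul z P ξ hz (∏ f ∈ S, f)
    have h1 : (fun s => aeval (ξ s) (∏ f ∈ S, f)) = 0 := by
      ext s
      rw [map_prod]
      apply Finset.prod_eq_zero (Finset.mem_image.mpr ⟨s, Finset.mem_univ s, rfl⟩)
      exact minpoly.aeval _ _
    rw [h1] at h
    have h2 : (aeval z (∏ f ∈ S, f)).map (algebraMap ℚ ℝ) = 0 := by
      have := congrArg (fun M => M * P⁻¹) h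
      simpa [mul_assoc, Matrix.mul_nonsing_inv P hP] using this
    ext i j
    have := congrFun (congrFun h2 i) j
    simpa using this

theorem exists_perm {n : ℕ} (ζ ξ : Fin n → ℂ)
    (h : (∏ s, (X - C (ζ s)) : ℂ[X]) = ∏ s, (X - C (ξ s))) :
    ∃ e : Fin n ≃ Fin n, ∀ s, ζ (e s) = ξ s := by
  classical
  have h1 : Multiset.map ζ Finset.univ.val = Multiset.map ξ Finset.univ.val := by
    have key : ∀ η : Fin n → ℂ, (∏ s, (X - C (η s)) : ℂ[X]).roots
        = Multiset.map η Finset.univ.val := by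
      intro η
      have : (∏ s, (X - C (η s)) : ℂ[X])
          = ((Multiset.map η Finset.univ.val).map fun a => X - C a).prod := by
        rw [Multiset.map_map]
        rfl
      rw [this, roots_multiset_prod_X_sub_C]
    have := congrArg Polynomial.roots h
    rwa [key, key] at this
  have h2 : ∀ c, Fintype.card {s // ξ s = c} = Fintype.card {s // ζ s = c} := by
    intro c
    have := congrArg (Multiset.count c) h1
    rw [Multiset.count_map, Multiset.count_map] at this
    rw [Fintype.card_subtype, Fintype.card_subtype]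
    simp only [eq_comm (a := c)] at this
    exact this.symm
  exact ⟨Equiv.ofFiberEquiv (fun c => Fintype.equivOfCardEq (h2 c)),
    fun s => Equiv.ofFiberEquiv_map _ s⟩

theorem matrix_form {n : ℕ} (z : Matrix (Fin n) (Fin n) ℚ)
    (P : Matrix (Fin n) (Fin n) ℝ) (hP : IsUnit P.det)
    (ξ : Fin n → ℝ) (hz : z.map (algebraMap ℚ ℝ) * P = P * diagonal ξ)
    (hmult : ∀ s, ∃ s', s' ≠ s ∧ ξ s' = ξ s) :
    ∃ (A : Matrix (Fin n) (Fin n) ℚ) (R : Matrix (Fin n) (Fin n) ℂ) (μ : Fin n → ℂ),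
      IsUnit R.det ∧ A.map (algebraMap ℚ ℂ) * R = R * diagonal μ ∧
      z.map (algebraMap ℚ ℂ) * R = R * diagonal (fun s => (ξ s : ℂ)) ∧
      (∀ s, IsIntegral ℤ (μ s) ∧ IsIntegral ℤ (μ s)⁻¹ ∧ μ s ≠ 0) ∧
      (∀ s, ‖μ s‖ ≠ 1) ∧
      (∀ s t, ‖μ s * μ t‖ = 1 → s ≠ t ∧ ξ s = ξ t ∧ ∀ r, ξ r = ξ s → r = s ∨ r = t) := by
  classical
  obtain ⟨g, hg1, hg2, hg3⟩ := exists_squarefree z P hP ξ hz
  have hz' : aeval (toLin' z) g = 0 := by
    have : aeval (toLin' z) g = toLin' (aeval z g) := by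
      have := Polynomial.aeval_algHom_apply (Matrix.toLinAlgEquiv' : Matrix (Fin n) (Fin n) ℚ ≃ₐ[ℚ] _).toAlgHom z g
      exact this
    rw [this, hg3, map_zero]
  obtain ⟨A₀, T, _, ψ, μ, ζ, hc, hs, hA, hzψ, hn, hi, ha, hb⟩ :=
    goodDiag_main g hg1 hg2 (Fin n → ℚ) (toLin' z) hz'
  have hcT : Fintype.card (Fin n) = Fintype.card T := by
    rw [hc, Module.finrank_fin_fun, Fintype.card_fin]
  let e : Fin n ≃ T := Fintype.equivOfCardEq hcT
  let A : Matrix (Fin n) (Fin n) ℚ := LinearMap.toMatrix' A₀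
  have hAA : toLin' A = A₀ := Matrix.toLin'_toMatrix' A₀
  let Ψ : Matrix (Fin n) (Fin n) ℂ := fun s j => ψ (e s) (Pi.single j 1)
  -- action of a rational matrix on functionals
  have hact : ∀ (B : Matrix (Fin n) (Fin n) ℚ) (ν : T → ℂ),
      (∀ t x, ψ t (toLin' B x) = ν t * ψ t x) →
      Ψ * B.map (algebraMap ℚ ℂ) = diagonal (fun s => ν (e s)) * Ψ := by
    intro B ν h
    ext s j
    rw [Matrix.mul_apply, Matrix.diagonal_mul]
    have h1 := h (e s) (Pi.single j 1)
    have h2 : toLin' B (Pi.single j 1) = ∑ k, B k j • (Pi.single k 1 : Fin n → ℚ) := by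
      ext i
      simp [Matrix.toLin'_apply, Finset.sum_apply, Pi.single_apply]
    rw [h2, map_sum] at h1
    rw [← h1]
    apply Finset.sum_congr rfl
    intro k _
    rw [map_smul, Matrix.map_apply, Algebra.smul_def, mul_comm]
  choose a ha' using fun j : Fin n => hs ((Algebra.linearMap ℚ ℂ) ∘ₗ (LinearMap.proj j))
  let R₀ : Matrix (Fin n) (Fin n) ℂ := fun j s => a j (e s)
  have hRΨ : R₀ * Ψ = 1 := by
    ext j k
    rw [Matrix.mul_apply]
    have := ha' j (Pi.single k 1)
    rw [← e.sum_comp] at this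
    change ∑ s, a j (e s) * ψ (e s) (Pi.single k 1) = _
    rw [← this]
    simp [Matrix.one_apply, Pi.single_apply]
  have hΨR : Ψ * R₀ = 1 := mul_eq_one_comm.mp hRΨ
  have hconv : ∀ (B : Matrix (Fin n) (Fin n) ℚ) (ν : T → ℂ),
      (∀ t x, ψ t (toLin' B x) = ν t * ψ t x) →
      B.map (algebraMap ℚ ℂ) * R₀ = R₀ * diagonal (fun s => ν (e s)) := by
    intro B ν h
    calc B.map (algebraMap ℚ ℂ) * R₀ = (R₀ * Ψ) * (B.map (algebraMap ℚ ℂ)) * R₀ := by
          rw [hRΨ, one_mul]
      _ = R₀ * (Ψ * B.map (algebraMap ℚ ℂ)) * R₀ := by simp only [mul_assoc]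
      _ = R₀ * diagonal (fun s => ν (e s)) * (Ψ * R₀) := by
          rw [hact B ν h]; simp only [mul_assoc]
      _ = _ := by rw [hΨR, mul_one]
  have hAR := hconv A μ (by rw [hAA]; exact hA)
  have hzR := hconv z ζ hzψ
  have hRdet : IsUnit R₀.det := by
    rw [← Matrix.isUnit_iff_isUnit_det]
    exact IsUnit.of_mul_eq_one _ hRΨ
  -- complexification of `P`
  let Pc : Matrix (Fin n) (Fin n) ℂ := P.map (algebraMap ℝ ℂ)
  have hPc : z.map (algebraMap ℚ ℂ) * Pc = Pc * diagonal (fun s => (ξ s : ℂ)) := by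
    have h1 : z.map (algebraMap ℚ ℂ) = (z.map (algebraMap ℚ ℝ)).map (algebraMap ℝ ℂ) := by
      ext i j
      simp
    have h2 : diagonal (fun s => (ξ s : ℂ)) = (diagonal ξ).map (algebraMap ℝ ℂ) := by
      rw [Matrix.diagonal_map (by simp)]
      rfl
    rw [h1, h2, ← Matrix.map_mul, ← Matrix.map_mul, hz]
  have hPcdet : IsUnit Pc.det := by
    have : Pc.det = algebraMap ℝ ℂ P.det := by
      rw [RingHom.map_det]
      rfl
    rw [this]
    exact hP.map _
  -- equality of characteristic polynomials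
  have hchar : ∀ (B : Matrix (Fin n) (Fin n) ℂ) (ν : Fin n → ℂ), IsUnit B.det →
      z.map (algebraMap ℚ ℂ) * B = B * diagonal ν →
      (z.map (algebraMap ℚ ℂ)).charpoly = ∏ s, (X - C (ν s)) := by
    intro B ν hB h
    have hU : IsUnit B := (Matrix.isUnit_iff_isUnit_det _).mpr hB
    obtain ⟨U, rfl⟩ := hU
    have : z.map (algebraMap ℚ ℂ) = U.val * diagonal ν * U⁻¹.val := by
      rw [← h, mul_assoc, Units.mul_inv, mul_one]
    rw [this, Matrix.coe_units_inv, Matrix.charpoly_units_conj, Matrix.charpoly_diagonal]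
  have hperm := (hchar R₀ _ hRdet hzR).symm.trans (hchar Pc _ hPcdet hPc)
  obtain ⟨π, hπ⟩ := exists_perm _ _ hperm
  let R : Matrix (Fin n) (Fin n) ℂ := R₀.submatrix id π
  have hR : ∀ (B : Matrix (Fin n) (Fin n) ℂ) (ν : Fin n → ℂ),
      B * R₀ = R₀ * diagonal ν → B * R = R * diagonal (fun s => ν (π s)) := by
    intro B ν h
    ext i j
    have := congrFun (congrFun h i) (π j)
    rw [Matrix.mul_diagonal] at this
    rw [Matrix.mul_diagonal]
    simpa [R, Matrix.mul_apply] using this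
  have hξ : ∀ s, ζ (e (π s)) = (ξ s : ℂ) := hπ
  refine ⟨A, R, fun s => μ (e (π s)), ?_, hR _ _ hAR, ?_, fun s => hi _, ?_, ?_⟩
  · have : R.det = Equiv.Perm.sign π * R₀.det := by
      exact Matrix.det_permute' π R₀
    rw [this]
    refine IsUnit.mul ?_ hRdet
    exact (Units.isUnit (Equiv.Perm.sign π)).map (Int.castRingHom ℂ)
  · rw [hR _ _ hzR]
    congr 1
    ext s t
    simp only [hξ]
  · intro s h
    obtain ⟨s', hs', h'⟩ := hmult s
    have := ha _ h (e (π s')) (by rw [hξ, hξ, h'])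
    exact hs' (π.injective (e.injective this))
  · intro s t h
    have hns : ∀ s, ‖μ (e (π s))‖ ≠ 1 := by
      intro s h
      obtain ⟨s', hs', h'⟩ := hmult s
      have := ha _ h (e (π s')) (by rw [hξ, hξ, h'])
      exact hs' (π.injective (e.injective this))
    rw [norm_mul] at h
    obtain ⟨c1, c2, c3⟩ := hb _ _ (hns s) (hns t) h
    have c2' : ∀ r, ξ r = ξ s → r = s ∨ r = t := by
      intro r hr
      rcases c2 (e (π r)) (by rw [hξ, hξ, hr]) with h | h
      · left; exact π.injective (e.injective h)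
      · right; exact π.injective (e.injective h)
    refine ⟨fun hst => c1 (by rw [hst]), ?_, c2'⟩
    obtain ⟨s', hs', h'⟩ := hmult s
    rcases c2' s' h' with h | h
    · exact absurd h hs'
    · rw [← h, h']

end Pool.Agent.Lib.MP_3d22c5_an
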