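import Mathlib

set_option autoImplicit false
set_option maxHeartbeats 1000000

namespace Pool.Agent.Lib.MP_3d22c5_an

open Polynomial Matrix

theorem coeff_prod_integral (s : Multiset ℂ) (hs : ∀ c ∈ s, IsIntegral ℤ c) (k : ℕ) :
    IsIntegral ℤ ((s.map (fun c => X - C c)).prod.coeff k) := by
  induction s using Multiset.induction_on generalizing k with
  | empty =>
    rw [Multiset.map_zero, Multiset.prod_zero, coeff_one]
    split_ifs
    · exact isIntegral_one
    · exact isIntegral_zero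
  | cons a s ih =>
    have ha : IsIntegral ℤ a := hs a (Multiset.mem_cons_self a s)
    have ih' := ih (fun c hc => hs c (Multiset.mem_cons_of_mem hc))
    rw [Multiset.map_cons, Multiset.prod_cons, sub_mul, coeff_sub, coeff_C_mul]
    rcases k with _ | k
    · rw [mul_coeff_zero, coeff_X_zero, zero_mul, zero_sub]
      exact (ha.mul (ih' 0)).neg
    · rw [coeff_X_mul]
      exact (ih' k).sub (ha.mul (ih' (k + 1)))

theorem coeff_zero_prod_inv_integral (s : Multiset ℂ) (hs : ∀ c ∈ s, IsIntegral ℤ c⁻¹) :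
    IsIntegral ℤ ((s.map (fun c => X - C c)).prod.coeff 0)⁻¹ := by
  induction s using Multiset.induction_on with
  | empty =>
    rw [Multiset.map_zero, Multiset.prod_zero, coeff_one_zero, inv_one]
    exact isIntegral_one
  | cons a s ih =>
    have ha : IsIntegral ℤ a⁻¹ := hs a (Multiset.mem_cons_self a s)
    have ih' := ih (fun c hc => hs c (Multiset.mem_cons_of_mem hc))
    rw [Multiset.map_cons, Multiset.prod_cons, mul_coeff_zero, mul_inv]
    refine IsIntegral.mul ?_ ih'
    rw [coeff_sub, coeff_X_zero, coeff_C_zero, zero_sub, inv_neg]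
    exact ha.neg

theorem int_of_integral (q : ℚ) (h : IsIntegral ℤ ((q : ℚ) : ℂ)) : ∃ k : ℤ, (k : ℚ) = q := by
  have h1 : IsIntegral ℤ q := by
    have : ((q : ℚ) : ℂ) = algebraMap ℚ ℂ q := by simp
    rw [this] at h
    exact (isIntegral_algebraMap_iff (algebraMap ℚ ℂ).injective).mp h
  obtain ⟨k, hk⟩ := IsIntegrallyClosed.isIntegral_iff.mp h1
  exact ⟨k, by simpa using hk⟩

theorem unit_of_integral (q : ℚ) (h : IsIntegral ℤ ((q : ℚ) : ℂ))
    (h' : IsIntegral ℤ ((q : ℚ) : ℂ)⁻¹) (h0 : q ≠ 0) : q = 1 ∨ q = -1 := by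
  obtain ⟨k, hk⟩ := int_of_integral q h
  obtain ⟨l, hl⟩ := int_of_integral q⁻¹ (by push_cast; exact h')
  have hkl : k * l = 1 := by
    have : ((k * l : ℤ) : ℚ) = 1 := by
      push_cast
      rw [hk, hl, mul_inv_cancel₀ h0]
    exact_mod_cast this
  rcases Int.eq_one_or_neg_one_of_mul_eq_one hkl with h | h
  · left; rw [← hk, h]; simp
  · right; rw [← hk, h]; simp

theorem good_poly (V : Type) [AddCommGroup V] [Module ℚ V] [FiniteDimensional ℚ V]
    (f : V →ₗ[ℚ] V)
    (h : ∀ (ℓ : V →ₗ[ℚ] ℂ) (c : ℂ), ℓ ≠ 0 → (∀ m, ℓ (f m) = c * ℓ m) →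
      IsIntegral ℤ c ∧ IsIntegral ℤ c⁻¹ ∧ c ≠ 0 ∧ ‖c‖ ≠ 1) :
    ∃ q : Polynomial ℤ, q.map (Int.castRingHom ℚ) = LinearMap.charpoly f ∧
      (q.coeff 0 = 1 ∨ q.coeff 0 = -1) ∧
      ∀ z : ℂ, (q.map (Int.castRingHom ℂ)).IsRoot z → ‖z‖ ≠ 1 := by
  classical
  let b := Module.finBasis ℚ V
  set F := LinearMap.toMatrix b b f with hF
  have hchar : F.charpoly = LinearMap.charpoly f := LinearMap.charpoly_toMatrix f b
  set χ := LinearMap.charpoly f with hχ
  have hmonic : χ.Monic := LinearMap.charpoly_monic f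
  -- roots are dual eigenvalues
  have hroot : ∀ c : ℂ, (χ.map (algebraMap ℚ ℂ)).IsRoot c →
      IsIntegral ℤ c ∧ IsIntegral ℤ c⁻¹ ∧ c ≠ 0 ∧ ‖c‖ ≠ 1 := by
    intro c hc
    rw [← hchar, ← Matrix.charpoly_map, IsRoot, Matrix.eval_charpoly] at hc
    obtain ⟨y, hy0, hy⟩ := Matrix.exists_vecMul_eq_zero_iff.mpr hc
    let ℓ : V →ₗ[ℚ] ℂ := b.constr ℚ y
    have hℓb : ∀ i, ℓ (b i) = y i := fun i => b.constr_basis ℚ y i
    apply h ℓ c
    · intro h0
      apply hy0
      ext i
      rw [← hℓb, h0]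
      rfl
    · have : ℓ ∘ₗ f = c • ℓ := by
        apply b.ext
        intro j
        rw [LinearMap.comp_apply, LinearMap.smul_apply, hℓb, smul_eq_mul]
        have h1 : f (b j) = ∑ i, F i j • b i := by
          rw [hF]
          have := b.sum_repr (f (b j))
          rw [← this]
          simp [LinearMap.toMatrix_apply]
        rw [h1, map_sum]
        have h2 := congrFun hy j
        rw [Matrix.vecMul, dotProduct] at h2
        simp only [Matrix.sub_apply, Pi.zero_apply, mul_sub, Finset.sum_sub_distrib] at h2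
        rw [sub_eq_zero] at h2
        have h3 : ∑ i, y i * (Matrix.scalar _ c) i j = c * y j := by
          simp [Matrix.scalar_apply, Matrix.diagonal_apply, mul_comm]
        rw [h3] at h2
        rw [h2]
        apply Finset.sum_congr rfl
        intro i _
        rw [map_smul, hℓb, Matrix.map_apply, Algebra.smul_def, mul_comm]
      intro m
      have := congrArg (fun g : V →ₗ[ℚ] ℂ => g m) this
      simpa using this
  -- factorisation
  have hsplit : χ.map (algebraMap ℚ ℂ)
      = ((χ.map (algebraMap ℚ ℂ)).roots.map (fun c => X - C c)).prod := by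
    have := (IsAlgClosed.splits (χ.map (algebraMap ℚ ℂ))).eq_prod_roots
    rw [(hmonic.map _).leadingCoeff, C_1, one_mul] at this
    exact this
  have hne : χ.map (algebraMap ℚ ℂ) ≠ 0 := (hmonic.map _).ne_zero
  have hint : ∀ k, IsIntegral ℤ ((χ.coeff k : ℚ) : ℂ) := by
    intro k
    have : ((χ.coeff k : ℚ) : ℂ) = (χ.map (algebraMap ℚ ℂ)).coeff k := by
      rw [coeff_map]; simp
    rw [this, hsplit]
    apply coeff_prod_integral
    intro c hc
    exact (hroot c ((mem_roots hne).mp hc)).1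
  have hlift : χ ∈ Polynomial.lifts (Int.castRingHom ℚ) := by
    rw [Polynomial.lifts_iff_coeff_lifts]
    intro k
    obtain ⟨l, hl⟩ := int_of_integral _ (hint k)
    exact ⟨l, by simpa using hl⟩
  obtain ⟨q, hq⟩ := (Polynomial.mem_lifts χ).mp hlift
  have hmapC : q.map (Int.castRingHom ℂ) = χ.map (algebraMap ℚ ℂ) := by
    rw [← hq, Polynomial.map_map]
    congr 1
  refine ⟨q, hq, ?_, ?_⟩
  · have h1 : ((q.coeff 0 : ℤ) : ℚ) = χ.coeff 0 := by
      rw [← hq, coeff_map]; simp
    have h2 : IsIntegral ℤ ((χ.coeff 0 : ℚ) : ℂ)⁻¹ := by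
      have : ((χ.coeff 0 : ℚ) : ℂ) = (χ.map (algebraMap ℚ ℂ)).coeff 0 := by
        rw [coeff_map]; simp
      rw [this, hsplit]
      apply coeff_zero_prod_inv_integral
      intro c hc
      exact (hroot c ((mem_roots hne).mp hc)).2.1
    have h3 : χ.coeff 0 ≠ 0 := by
      intro h0
      have : (χ.map (algebraMap ℚ ℂ)).IsRoot 0 := by
        rw [IsRoot, ← coeff_zero_eq_eval_zero, coeff_map, h0, map_zero]
      exact (hroot 0 this).2.2.1 rfl
    rcases unit_of_integral _ (hint 0) h2 h3 with h | h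
    · left; rw [h] at h1; exact_mod_cast h1
    · right; rw [h] at h1; exact_mod_cast h1
  · intro z hz
    rw [hmapC] at hz
    exact (hroot z hz).2.2.2

end Pool.Agent.Lib.MP_3d22c5_an
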