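import Mathlib
import Pool.Agent.Lib.MP_3d22c5_an.GraphLie
import Pool.Agent.Lib.MP_3d22c5_an.Poly

set_option autoImplicit false
set_option maxHeartbeats 1000000

namespace Pool.Agent.Lib.MP_3d22c5_an

open Matrix Polynomial

variable {n : ℕ} {G : SimpleGraph (Fin n)} {N : Type} [LieRing N] [LieAlgebra ℚ N]
  {b : Module.Basis (Fin n ⊕ G.edgeSet) ℚ N}

/-- vertex coordinates -/
noncomputable def cV (b : Module.Basis (Fin n ⊕ G.edgeSet) ℚ N) : N →ₗ[ℚ] (Fin n → ℚ) :=
  LinearMap.pi fun u => (Finsupp.lapply (Sum.inl u)) ∘ₗ b.repr.toLinearMap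

theorem cV_apply (x : N) (u : Fin n) : cV b x u = b.repr x (Sum.inl u) := rfl

/-- matrix on vertices -/
noncomputable def vmat (b : Module.Basis (Fin n ⊕ G.edgeSet) ℚ N) (g : N →ₗ[ℚ] N) :
    Matrix (Fin n) (Fin n) ℚ := Matrix.of fun u v => cV b (g (b (Sum.inl v))) u

theorem edge_cases (e : G.edgeSet) : ∃ (u w : Fin n) (h : G.Adj u w), u < w ∧
    e = ⟨s(u, w), G.mem_edgeSet.mpr h⟩ := by
  obtain ⟨e, he⟩ := e
  induction e using Sym2.ind with
  | _ u w =>
    have huw : G.Adj u w := G.mem_edgeSet.mp he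
    rcases lt_trichotomy u w with h | h | h
    · exact ⟨u, w, huw, h, rfl⟩
    · exact absurd h huw.ne
    · exact ⟨w, u, huw.symm, h, Subtype.ext Sym2.eq_swap⟩

theorem cV_lie (hb : IsGraphBasis G b) (x y : N) : cV b ⁅x, y⁆ = 0 := by
  ext u
  exact hb.repr_inl x y u

theorem cV_map_inr (hb : IsGraphBasis G b) (g : N →ₗ[ℚ] N) (hg : ∀ x y, g ⁅x, y⁆ = ⁅g x, g y⁆)
    (e : G.edgeSet) : cV b (g (b (Sum.inr e))) = 0 := by
  obtain ⟨u, w, h, hlt, rfl⟩ := edge_cases e
  rw [← hb.h1 u w h hlt, hg, cV_lie hb]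

theorem cV_map (hb : IsGraphBasis G b) (g : N →ₗ[ℚ] N) (hg : ∀ x y, g ⁅x, y⁆ = ⁅g x, g y⁆)
    (x : N) : cV b (g x) = vmat b g *ᵥ cV b x := by
  have h : cV b ∘ₗ g = (Matrix.mulVecLin (vmat b g)) ∘ₗ cV b := by
    apply b.ext
    intro k
    rcases k with v | e
    · ext u
      simp only [LinearMap.comp_apply, Matrix.mulVecLin_apply]
      have : cV b (b (Sum.inl v)) = Pi.single v 1 := by
        ext u
        rw [cV_apply, Module.Basis.repr_self]
        simp [Finsupp.single_apply, Pi.single_apply, eq_comm]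
      rw [this, Matrix.mulVec_single_one]
      rfl
    · simp only [LinearMap.comp_apply, Matrix.mulVecLin_apply]
      rw [cV_map_inr hb g hg]
      have : cV b (b (Sum.inr e)) = 0 := by
        ext u
        rw [cV_apply, Module.Basis.repr_self]
        simp
      rw [this, Matrix.mulVec_zero]
  exact congrArg (fun f : N →ₗ[ℚ] (Fin n → ℚ) => f x) h

theorem cV_basis (v : Fin n) : cV b (b (Sum.inl v)) = Pi.single v 1 := by
  ext u
  rw [cV_apply, Module.Basis.repr_self]
  simp [Finsupp.single_apply, Pi.single_apply, eq_comm]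

theorem vmat_comp (hb : IsGraphBasis G b) (g g' : N →ₗ[ℚ] N)
    (hg : ∀ x y, g ⁅x, y⁆ = ⁅g x, g y⁆) :
    vmat b (g ∘ₗ g') = vmat b g * vmat b g' := by
  ext u v
  change cV b (g (g' (b (Sum.inl v)))) u = _
  rw [cV_map hb g hg, Matrix.mul_apply, Matrix.mulVec, dotProduct]
  rfl

theorem vmat_id : vmat b LinearMap.id = 1 := by
  ext u v
  change cV b (b (Sum.inl v)) u = _
  rw [cV_basis, Matrix.one_apply, Pi.single_apply]

/-- bracket combination -/
noncomputable def lamN (b : Module.Basis (Fin n ⊕ G.edgeSet) ℚ N)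
    (r : Matrix (Fin n) (Fin n) ℚ) : N :=
  ∑ s, ∑ t, r s t • ⁅b (Sum.inl s), b (Sum.inl t)⁆

theorem map_lamN (hb : IsGraphBasis G b) (g : N →ₗ[ℚ] N) (hg : ∀ x y, g ⁅x, y⁆ = ⁅g x, g y⁆)
    (r : Matrix (Fin n) (Fin n) ℚ) (u w : Fin n) (h : G.Adj u w) (hlt : u < w) :
    b.repr (g (lamN b r)) (Sum.inr ⟨s(u, w), G.mem_edgeSet.mpr h⟩)
      = (vmat b g * r * (vmat b g)ᵀ) u w - (vmat b g * r * (vmat b g)ᵀ) w u := by
  have hmat : ∀ i j, (vmat b g * r * (vmat b g)ᵀ) i j
      = ∑ s, ∑ t, r s t * (vmat b g i s * vmat b g j t) := by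
    intro i j
    simp only [Matrix.mul_apply, Matrix.transpose_apply, Finset.sum_mul]
    rw [Finset.sum_comm]
    apply Finset.sum_congr rfl
    intro s _
    apply Finset.sum_congr rfl
    intro t _
    ring
  rw [hmat, hmat, ← Finset.sum_sub_distrib, lamN, map_sum, map_sum, Finsupp.finsetSum_apply]
  apply Finset.sum_congr rfl
  intro s _
  rw [← Finset.sum_sub_distrib, map_sum, map_sum, Finsupp.finsetSum_apply]
  apply Finset.sum_congr rfl
  intro t _
  rw [map_smul, map_smul, Finsupp.smul_apply, hg, hb.repr_inr _ _ u w h hlt, smul_eq_mul]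
  change r s t * (vmat b g u s * vmat b g w t - vmat b g w s * vmat b g u t) = _
  ring

theorem lamN_eq_zero (hb : IsGraphBasis G b) (r : Matrix (Fin n) (Fin n) ℚ) :
    lamN b r = 0 ↔ EdgeSym G r := by
  have h1 := fun u w h hlt => map_lamN hb LinearMap.id (fun x y => rfl) r u w h hlt
  simp only [vmat_id, one_mul, Matrix.transpose_one, mul_one, LinearMap.id_apply] at h1
  constructor
  · intro h0 u w huw
    rcases lt_trichotomy u w with h | h | h
    · have := h1 u w huw h
      rw [h0, map_zero] at this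
      exact sub_eq_zero.mp this.symm
    · exact absurd h huw.ne
    · have := h1 w u huw.symm h
      rw [h0, map_zero] at this
      exact (sub_eq_zero.mp this.symm).symm
  · intro h0
    apply b.repr.injective
    rw [map_zero]
    ext k
    rw [Finsupp.zero_apply]
    rcases k with u | e
    · rw [lamN, map_sum, Finsupp.finsetSum_apply]
      apply Finset.sum_eq_zero
      intro s _
      rw [map_sum, Finsupp.finsetSum_apply]
      apply Finset.sum_eq_zero
      intro t _
      rw [map_smul, Finsupp.smul_apply, hb.repr_inl, smul_zero]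
    · obtain ⟨u, w, h, hlt, rfl⟩ := edge_cases e
      rw [h1 u w h hlt, h0 u w h, sub_self]

theorem edgeSym_conj (hb : IsGraphBasis G b) (g : N →ₗ[ℚ] N)
    (hg : ∀ x y, g ⁅x, y⁆ = ⁅g x, g y⁆) {r : Matrix (Fin n) (Fin n) ℚ} (hr : EdgeSym G r) :
    EdgeSym G (vmat b g * r * (vmat b g)ᵀ) := by
  have h0 := (lamN_eq_zero hb r).mpr hr
  intro u w huw
  rcases lt_trichotomy u w with h | h | h
  · have := map_lamN hb g hg r u w huw h
    rw [h0, map_zero, map_zero] at this
    exact sub_eq_zero.mp this.symm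
  · exact absurd h huw.ne
  · have := map_lamN hb g hg r w u huw.symm h
    rw [h0, map_zero, map_zero] at this
    exact (sub_eq_zero.mp this.symm).symm

theorem inc_conj (hb : IsGraphBasis G b) (g g' : N →ₗ[ℚ] N)
    (hg : ∀ x y, g ⁅x, y⁆ = ⁅g x, g y⁆) (hg' : ∀ x y, g' ⁅x, y⁆ = ⁅g' x, g' y⁆)
    (h1 : vmat b g * vmat b g' = 1) (h2 : vmat b g' * vmat b g = 1)
    {X : Matrix (Fin n) (Fin n) ℚ} (hX : Inc G X) : Inc G (vmat b g * X * vmat b g') := by
  apply inc_of_deriv
  intro r hr
  set F := vmat b g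
  set F' := vmat b g'
  have h3 := edgeSym_conj hb g' hg' hr
  have h4 := hX.deriv h3
  have h5 := edgeSym_conj hb g hg h4
  have hT : F'ᵀ * Fᵀ = 1 := by rw [← Matrix.transpose_mul, h1, Matrix.transpose_one]
  have e : F * (X * (F' * r * F'ᵀ) + F' * r * F'ᵀ * Xᵀ) * Fᵀ
      = F * X * F' * r + r * (F * X * F')ᵀ := by
    rw [mul_add, add_mul, Matrix.transpose_mul, Matrix.transpose_mul]
    congr 1
    · calc F * (X * (F' * r * F'ᵀ)) * Fᵀ = F * X * F' * r * (F'ᵀ * Fᵀ) := by simp only [mul_assoc]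
        _ = _ := by rw [hT, mul_one]
    · calc F * (F' * r * F'ᵀ * Xᵀ) * Fᵀ = (F * F') * r * (F'ᵀ * (Xᵀ * Fᵀ)) := by
            simp only [mul_assoc]
        _ = _ := by rw [h1, one_mul]
  rwa [e] at h5

/-- invariant subspaces -/
def InvSub (G : SimpleGraph (Fin n)) : Type :=
  {U : Submodule ℚ (Fin n → ℚ) // ∀ X : Matrix (Fin n) (Fin n) ℚ, Inc G X → ∀ x ∈ U, X *ᵥ x ∈ U}

instance : Finite (InvSub G) := by
  classical
  let f : InvSub G → Set (Fin n) := fun U => {s | Pi.single s (1 : ℚ) ∈ U.1}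
  apply Finite.of_injective f
  intro U U' h
  have key : ∀ U U' : InvSub G, f U ⊆ f U' → U.1 ≤ U'.1 := by
    intro U U' h x hx
    have h1 : x = ∑ s, x s • Pi.single s (1 : ℚ) := by
      ext t
      simp [Finset.sum_apply, Pi.single_apply]
    rw [h1]
    apply Submodule.sum_mem
    intro s _
    by_cases hs : x s = 0
    · rw [hs, zero_smul]; exact Submodule.zero_mem _
    · apply Submodule.smul_mem
      apply h
      change Pi.single s (1 : ℚ) ∈ U.1
      have h2 := U.2 (diagonal (Pi.single s (1 : ℚ))) (inc_diagonal _) x hx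
      have h3 : diagonal (Pi.single s (1 : ℚ)) *ᵥ x = x s • Pi.single s (1 : ℚ) := by
        ext t
        rw [Matrix.mulVec_diagonal, Pi.smul_apply, smul_eq_mul]
        by_cases hst : t = s
        · subst hst; simp
        · simp [Pi.single_apply, hst]
      rw [h3] at h2
      have := U.1.smul_mem (x s)⁻¹ h2
      rwa [smul_smul, inv_mul_cancel₀ hs, one_smul] at this
  exact Subtype.ext (le_antisymm (key U U' h.le) (key U' U h.ge))

theorem exists_pow_inc (hb : IsGraphBasis G b) (g g' : N →ₗ[ℚ] N)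
    (hg : ∀ x y, g ⁅x, y⁆ = ⁅g x, g y⁆) (hg' : ∀ x y, g' ⁅x, y⁆ = ⁅g' x, g' y⁆)
    (h1 : vmat b g * vmat b g' = 1) (h2 : vmat b g' * vmat b g = 1) :
    ∃ k, 0 < k ∧ Inc G ((vmat b g) ^ k) := by
  classical
  let Fm : InvSub G → InvSub G := fun U =>
    ⟨U.1.map (Matrix.mulVecLin (vmat b g)), by
      rintro X hX _ ⟨x, hx, rfl⟩
      refine ⟨(vmat b g' * X * vmat b g) *ᵥ x,
        U.2 _ (inc_conj hb g' g hg' hg h2 h1 hX) x hx, ?_⟩
      rw [Matrix.mulVecLin_apply, Matrix.mulVecLin_apply, Matrix.mulVec_mulVec,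
        Matrix.mulVec_mulVec]
      congr 1
      calc vmat b g * (vmat b g' * X * vmat b g) = (vmat b g * vmat b g') * X * vmat b g := by
            simp only [mul_assoc]
        _ = _ := by rw [h1, one_mul]⟩
  have hinj : Function.Injective Fm := by
    intro U U' h
    have h3 : U.1.map (Matrix.mulVecLin (vmat b g)) = U'.1.map (Matrix.mulVecLin (vmat b g)) :=
      congrArg Subtype.val h
    apply Subtype.ext
    apply Submodule.map_injective_of_injective _ h3
    intro x y hxy
    rw [Matrix.mulVecLin_apply, Matrix.mulVecLin_apply] at hxy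
    have := congrArg (fun v => vmat b g' *ᵥ v) hxy
    simpa [Matrix.mulVec_mulVec, h2] using this
  -- some iterate is the identity
  obtain ⟨k, hk0, hk⟩ : ∃ k, 0 < k ∧ ∀ U, Fm^[k] U = U := by
    let σ : Equiv.Perm (InvSub G) := Equiv.ofBijective Fm (Finite.injective_iff_bijective.mp hinj)
    refine ⟨orderOf σ, orderOf_pos σ, ?_⟩
    intro U
    have h4 : (σ ^ orderOf σ) U = U := by rw [pow_orderOf_eq_one]; rfl
    rw [← Equiv.Perm.iterate_eq_pow] at h4
    exact h4
  refine ⟨k, hk0, ?_⟩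
  have hiter : ∀ (k : ℕ) (U : InvSub G) (x : Fin n → ℚ), x ∈ U.1 →
      ((vmat b g) ^ k) *ᵥ x ∈ (Fm^[k] U).1 := by
    intro k
    induction k with
    | zero => intro U x hx; simpa using hx
    | succ k ih =>
      intro U x hx
      rw [Function.iterate_succ_apply, pow_succ, ← Matrix.mulVec_mulVec]
      apply ih
      exact ⟨x, hx, rfl⟩
  intro u v huv
  let U : InvSub G := ⟨
    { carrier := {x | ∀ u, x u ≠ 0 → Dom G u v}
      add_mem' := by
        intro a c ha hc u h
        by_cases h1 : a u = 0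
        · rw [Pi.add_apply, h1, zero_add] at h; exact hc u h
        · exact ha u h1
      zero_mem' := by intro u h; exact absurd rfl h
      smul_mem' := by
        intro a x hx u h
        exact hx u (right_ne_zero_of_mul h) }, by
    intro X hX x hx u h
    rw [Matrix.mulVec, dotProduct] at h
    obtain ⟨w, _, hw⟩ := Finset.exists_ne_zero_of_sum_ne_zero h
    exact (hX u w (left_ne_zero_of_mul hw)).trans (hx w (right_ne_zero_of_mul hw))⟩
  have hmem : Pi.single v (1 : ℚ) ∈ U.1 := by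
    intro u h
    by_cases huv : u = v
    · rw [huv]; exact Dom.refl G v
    · exact absurd (Pi.single_eq_of_ne huv 1) h
  have h5 := hiter k U _ hmem
  rw [hk U] at h5
  apply h5 u
  rw [Matrix.mulVec_single_one]
  exact huv

end Pool.Agent.Lib.MP_3d22c5_an
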