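import Mathlib
import Pool.Agent.Lib.MP_3d22c5_an.Necessity

set_option autoImplicit false
set_option maxHeartbeats 1000000

namespace Pool.Agent.Lib.MP_3d22c5_an

open Matrix Polynomial

theorem det_sub_eq_zero {J : Type} [Fintype J] [DecidableEq J] (A : Matrix J J ℚ) (c : ℚ)
    (p : J → Prop) (h : ∀ i, ¬ p i → ∀ j, p j → A i j = 0) (i₀ : J) (hi₀ : p i₀)
    (hrow : ∀ j, p j → j ≠ i₀ → A i₀ j = 0) (hc : A i₀ i₀ = c) :
    (Matrix.scalar J c - A).det = 0 := by
  classical
  rw [Matrix.twoBlockTriangular_det _ p]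
  · have : (toSquareBlockProp (Matrix.scalar J c - A) p).det = 0 := by
      apply Matrix.det_eq_zero_of_row_eq_zero ⟨i₀, hi₀⟩
      intro j
      rw [Matrix.toSquareBlockProp_def, Matrix.of_apply, Matrix.sub_apply]
      by_cases hj : (j : J) = i₀
      · rw [hj, hc]; simp
      · rw [hrow j j.2 hj]
        have : (i₀ : J) ≠ j := fun h => hj h.symm
        simp [Matrix.scalar_apply, Matrix.diagonal_apply_ne _ this]
    rw [this, zero_mul]
  · intro i hi j hj
    have hij : i ≠ j := by rintro rfl; exact hi hj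
    rw [Matrix.sub_apply, h i hi j hj]
    simp [Matrix.scalar_apply, Matrix.diagonal_apply_ne _ hij]

theorem isIntegral_aeval_int (z : ℂ) (hz : IsIntegral ℤ z) (p : ℤ[X]) :
    IsIntegral ℤ (aeval z p) := by
  induction p using Polynomial.induction_on' with
  | add p q hp hq => rw [map_add]; exact hp.add hq
  | monomial k a =>
    rw [aeval_monomial]
    exact (isIntegral_algebraMap).mul (hz.pow k)

/-- A rational eigenvalue of a power leads to an eigenvalue of modulus one. -/
theorem norm_one_of_pow {J : Type} [Fintype J] [DecidableEq J] (A : Matrix J J ℚ) (p : ℤ[X])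
    (hp : p.map (Int.castRingHom ℚ) = A.charpoly) (hp0 : p.coeff 0 = 1 ∨ p.coeff 0 = -1)
    (k : ℕ) (hk : 0 < k) (c : ℚ) (hc : (Matrix.scalar J c - A ^ k).det = 0) :
    ∃ z : ℂ, (p.map (Int.castRingHom ℂ)).IsRoot z ∧ ‖z‖ = 1 := by
  classical
  set Ac : Matrix J J ℂ := A.map (algebraMap ℚ ℂ) with hAc
  have h1 : (c : ℂ) ∈ spectrum ℂ (Ac ^ k) := by
    rw [Matrix.mem_spectrum_iff_isRoot_charpoly, IsRoot, Matrix.eval_charpoly]
    have e : Matrix.scalar J (c : ℂ) - Ac ^ k
        = (Matrix.scalar J c - A ^ k).map (algebraMap ℚ ℂ) := by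
      rw [hAc]
      have e1 : (A ^ k).map (algebraMap ℚ ℂ) = (A.map (algebraMap ℚ ℂ)) ^ k := by
        exact Matrix.map_pow A (algebraMap ℚ ℂ) k
      rw [Matrix.map_sub _ (fun a b => by simp), e1]
      congr 1
      ext i j
      by_cases hij : i = j
      · subst hij; simp [Matrix.scalar_apply]
      · simp [Matrix.scalar_apply, Matrix.diagonal_apply_ne _ hij]
    rw [e]
    have : ((Matrix.scalar J c - A ^ k).map (algebraMap ℚ ℂ)).det
        = algebraMap ℚ ℂ (Matrix.scalar J c - A ^ k).det := by
      rw [RingHom.map_det]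
      rfl
    rw [this, hc, map_zero]
  rw [spectrum.map_pow_of_pos Ac hk] at h1
  obtain ⟨z, hz, hzk⟩ := h1
  rw [Matrix.mem_spectrum_iff_isRoot_charpoly, hAc, Matrix.charpoly_map, ← hp,
    Polynomial.map_map] at hz
  have hcomp : (algebraMap ℚ ℂ).comp (Int.castRingHom ℚ) = Int.castRingHom ℂ := by
    ext; simp
  rw [hcomp] at hz
  refine ⟨z, hz, ?_⟩
  have hmonic : p.Monic := by
    have h2 : (p.map (Int.castRingHom ℚ)).Monic := by rw [hp]; exact A.charpoly_monic
    exact Polynomial.monic_of_injective (f := Int.castRingHom ℚ) Int.cast_injective h2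
  have hev : aeval z p = 0 := by
    rw [IsRoot, eval_map] at hz
    rw [aeval_def, algebraMap_int_eq]
    exact hz
  have hzint : IsIntegral ℤ z := ⟨p, hmonic, by rw [← aeval_def]; exact hev⟩
  have hdec : z * aeval z p.divX + (p.coeff 0 : ℂ) = 0 := by
    have := congrArg (aeval z) (p.X_mul_divX_add)
    rw [map_add, map_mul, aeval_X, aeval_C, hev] at this
    simpa using this
  have hz0 : z ≠ 0 := by
    rintro rfl
    rw [zero_mul, zero_add] at hdec
    rcases hp0 with h | h <;> rw [h] at hdec <;> simp at hdec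
  have hzinv : IsIntegral ℤ z⁻¹ := by
    have h2 : z⁻¹ = - (p.coeff 0 : ℂ) * aeval z p.divX := by
      have h3 : (p.coeff 0 : ℂ) * (p.coeff 0 : ℂ) = 1 := by
        rcases hp0 with h | h <;> rw [h] <;> simp
      have h4 : z * (- (p.coeff 0 : ℂ) * aeval z p.divX) = 1 := by
        linear_combination (-(p.coeff 0 : ℂ)) * hdec + h3
      exact inv_eq_of_mul_eq_one_right h4
    rw [h2]
    refine IsIntegral.mul ?_ (isIntegral_aeval_int z hzint _)
    have : (-(p.coeff 0 : ℂ)) = algebraMap ℤ ℂ (-(p.coeff 0)) := by simp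
    rw [this]
    exact isIntegral_algebraMap
  have hzk' : z ^ k = (c : ℂ) := hzk
  have hc0 : c ≠ 0 := by
    rintro rfl
    have : z ^ k = 0 := by rw [hzk']; simp
    exact hz0 (pow_eq_zero_iff hk.ne' |>.mp this)
  have hci : IsIntegral ℤ (c : ℂ) := by rw [← hzk']; exact hzint.pow k
  have hci' : IsIntegral ℤ (c : ℂ)⁻¹ := by rw [← hzk', ← inv_pow]; exact hzinv.pow k
  have hnorm : ‖z‖ ^ k = 1 := by
    rw [← norm_pow, hzk']
    rcases unit_of_integral c hci hci' hc0 with h | h <;> rw [h] <;> simp
  exact (pow_eq_one_iff_of_nonneg (norm_nonneg _) hk.ne').mp hnorm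

variable {n : ℕ} {G : SimpleGraph (Fin n)} {N : Type} [LieRing N] [LieAlgebra ℚ N]
  {b : Module.Basis (Fin n ⊕ G.edgeSet) ℚ N}

theorem necessity [FiniteDimensional ℚ N] (hb : IsGraphBasis G b) (f : N ≃ₗ⁅ℚ⁆ N) (p : ℤ[X])
    (hp : p.map (Int.castRingHom ℚ) = LinearMap.charpoly f.toLinearEquiv.toLinearMap)
    (hp0 : p.coeff 0 = 1 ∨ p.coeff 0 = -1)
    (hroots : ∀ z : ℂ, (p.map (Int.castRingHom ℂ)).IsRoot z → ‖z‖ ≠ 1) :
    (∀ v, ∃ v', v' ≠ v ∧ Dom G v v' ∧ Dom G v' v) ∧
    (∀ v w, G.Adj v w → Dom G v w → Dom G w v →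
      ∃ u, u ≠ v ∧ u ≠ w ∧ Dom G u v ∧ Dom G v u) := by
  classical
  set fl : N →ₗ[ℚ] N := f.toLinearEquiv.toLinearMap with hfl
  set fl' : N →ₗ[ℚ] N := f.symm.toLinearEquiv.toLinearMap with hfl'
  have hlie : ∀ x y, fl ⁅x, y⁆ = ⁅fl x, fl y⁆ := fun x y => f.map_lie x y
  have hlie' : ∀ x y, fl' ⁅x, y⁆ = ⁅fl' x, fl' y⁆ := fun x y => f.symm.map_lie x y
  have h1 : vmat b fl * vmat b fl' = 1 := by
    rw [← vmat_comp hb fl fl' hlie, ← vmat_id (b := b)]
    congr 1
    ext x
    exact f.apply_symm_apply x
  have h2 : vmat b fl' * vmat b fl = 1 := by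
    rw [← vmat_comp hb fl' fl hlie', ← vmat_id (b := b)]
    congr 1
    ext x
    exact f.symm_apply_apply x
  obtain ⟨k, hk0, hk⟩ := exists_pow_inc hb fl fl' hlie hlie' h1 h2
  set g : N →ₗ[ℚ] N := fl ^ k with hg
  have hglie : ∀ x y, g ⁅x, y⁆ = ⁅g x, g y⁆ := by
    have : ∀ (k : ℕ) (x y : N), (fl ^ k) ⁅x, y⁆ = ⁅(fl ^ k) x, (fl ^ k) y⁆ := by
      intro k
      induction k with
      | zero => intro x y; rfl
      | succ k ih =>
        intro x y
        rw [pow_succ, Module.End.mul_apply, hlie, ih]
        rfl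
    exact this k
  have hgmat : vmat b g = (vmat b fl) ^ k := by
    have : ∀ k : ℕ, vmat b (fl ^ k) = (vmat b fl) ^ k := by
      intro k
      induction k with
      | zero => exact vmat_id
      | succ k ih =>
        have e : fl ^ (k + 1) = fl ∘ₗ (fl ^ k) := by rw [pow_succ']; rfl
        rw [e, vmat_comp hb fl _ hlie, ih, pow_succ']
    exact this k
  have hinc : Inc G (vmat b g) := by rw [hgmat]; exact hk
  set A := LinearMap.toMatrix b b fl with hA
  have hAchar : p.map (Int.castRingHom ℚ) = A.charpoly := by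
    rw [hp, hA]; exact (LinearMap.charpoly_toMatrix fl b).symm
  have hApow : A ^ k = LinearMap.toMatrix b b g := by
    rw [hg, hA, LinearMap.toMatrix_pow]
  have hno : ∀ c : ℚ, (Matrix.scalar _ c - A ^ k).det ≠ 0 := by
    intro c hc
    obtain ⟨z, hz, hz1⟩ := norm_one_of_pow A p hAchar hp0 k hk0 c hc
    exact hroots z hz hz1
  -- entries
  have hentry : ∀ i j, (A ^ k) i j = b.repr (g (b j)) i := by
    intro i j
    rw [hApow, LinearMap.toMatrix_apply]
  have hVV : ∀ u v, (A ^ k) (Sum.inl u) (Sum.inl v) = vmat b g u v := fun u v => hentry _ _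
  have hVE : ∀ u e, (A ^ k) (Sum.inl u) (Sum.inr e) = 0 := by
    intro u e
    rw [hentry]
    exact congrFun (cV_map_inr hb g hglie e) u
  have hEE : ∀ (u w : Fin n) (h : G.Adj u w), u < w → ∀ (a c : Fin n) (h' : G.Adj a c), a < c →
      (A ^ k) (Sum.inr ⟨s(u, w), G.mem_edgeSet.mpr h⟩) (Sum.inr ⟨s(a, c), G.mem_edgeSet.mpr h'⟩)
        = vmat b g u a * vmat b g w c - vmat b g w a * vmat b g u c := by
    intro u w h hlt a c h' hlt'
    rw [hentry, ← hb.h1 a c h' hlt', hglie, hb.repr_inr _ _ u w h hlt]
    rfl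
  constructor
  · intro v
    by_contra hcon
    push Not at hcon
    apply hno (vmat b g v v)
    apply det_sub_eq_zero (A ^ k) _ (Sum.elim (fun u => Dom G u v) (fun _ => True)) _
      (Sum.inl v) (Dom.refl G v)
    · intro j hj hne
      rcases j with u | e
      · rw [hVV]
        by_contra h0
        have hd := hinc v u h0
        have hne' : u ≠ v := fun h => hne (by rw [h])
        exact hcon u hne' hd hj
      · exact hVE v e
    · exact hVV v v
    · intro i hi j hj
      rcases i with u | e
      · rcases j with u' | e'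
        · rw [hVV]
          by_contra h0
          exact hi ((hinc u u' h0).trans hj)
        · exact hVE u e'
      · exact absurd trivial hi
  · -- reduce to `v < w`
    have key : ∀ v w, v < w → G.Adj v w → Dom G v w → Dom G w v →
        ∃ u, u ≠ v ∧ u ≠ w ∧ Dom G u v ∧ Dom G v u := by
      intro v w hlt hadj hvw hwv
      by_contra hcon
      push Not at hcon
      have hcls : ∀ u, Dom G u v → Dom G v u → u = v ∨ u = w := by
        intro u h3 h4
        by_contra h5
        push Not at h5
        exact hcon u h5.1 h5.2 h3 h4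
      -- entries of `g` leaving `v` or `w`
      have hv0 : ∀ a, Dom G a v → vmat b g v a ≠ 0 → a = v ∨ a = w := fun a h3 h4 =>
        hcls a h3 (hinc v a h4)
      have hw0 : ∀ a, Dom G a v → vmat b g w a ≠ 0 → a = v ∨ a = w := fun a h3 h4 =>
        hcls a h3 (hvw.trans (hinc w a h4))
      apply hno (vmat b g v v * vmat b g w w - vmat b g w v * vmat b g v w)
      apply det_sub_eq_zero (A ^ k) _ (Sum.elim (fun _ => False)
        (fun e => ∀ u ∈ (e : Sym2 (Fin n)), Dom G u v)) _
        (Sum.inr ⟨s(v, w), G.mem_edgeSet.mpr hadj⟩) ?_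
      · intro j hj hne
        rcases j with u | e
        · exact absurd hj id
        · obtain ⟨a, c, h', hlt', rfl⟩ := edge_cases e
          have ha : Dom G a v := hj a (Sym2.mem_mk_left a c)
          have hc : Dom G c v := hj c (Sym2.mem_mk_right a c)
          rw [hEE v w hadj hlt a c h' hlt']
          have hnot : ¬ ((a = v ∨ a = w) ∧ (c = v ∨ c = w)) := by
            rintro ⟨h3, h4⟩
            apply hne
            rcases h3 with rfl | rfl
            · rcases h4 with rfl | rfl
              · exact absurd hlt' (lt_irrefl _)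
              · rfl
            · rcases h4 with rfl | rfl
              · exact absurd hlt' (not_lt.mpr hlt.le)
              · exact absurd hlt' (lt_irrefl _)
          have e1 : vmat b g v a * vmat b g w c = 0 := by
            by_contra h0
            exact hnot ⟨hv0 a ha (left_ne_zero_of_mul h0), hw0 c hc (right_ne_zero_of_mul h0)⟩
          have e2 : vmat b g w a * vmat b g v c = 0 := by
            by_contra h0
            exact hnot ⟨hw0 a ha (left_ne_zero_of_mul h0), hv0 c hc (right_ne_zero_of_mul h0)⟩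
          rw [e1, e2, sub_zero]
      · exact hEE v w hadj hlt v w hadj hlt
      · intro i hi j hj
        rcases j with u | e
        · exact absurd hj id
        · rcases i with u | e'
          · exact hVE u e
          · obtain ⟨a, c, h', hlt', rfl⟩ := edge_cases e
            obtain ⟨u, x, h'', hlt'', rfl⟩ := edge_cases e'
            have ha : Dom G a v := hj a (Sym2.mem_mk_left a c)
            have hc : Dom G c v := hj c (Sym2.mem_mk_right a c)
            rw [hEE u x h'' hlt'' a c h' hlt']
            have hnot : ¬ (Dom G u v ∧ Dom G x v) := by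
              rintro ⟨h3, h4⟩
              apply hi
              intro y hy
              rcases Sym2.mem_iff.mp hy with rfl | rfl
              · exact h3
              · exact h4
            have e1 : vmat b g u a * vmat b g x c = 0 := by
              by_contra h0
              exact hnot ⟨(hinc u a (left_ne_zero_of_mul h0)).trans ha,
                (hinc x c (right_ne_zero_of_mul h0)).trans hc⟩
            have e2 : vmat b g x a * vmat b g u c = 0 := by
              by_contra h0
              exact hnot ⟨(hinc u c (right_ne_zero_of_mul h0)).trans hc,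
                (hinc x a (left_ne_zero_of_mul h0)).trans ha⟩
            rw [e1, e2, sub_zero]
      · intro u hu
        rcases Sym2.mem_iff.mp hu with rfl | rfl
        · exact Dom.refl G _
        · exact hwv
    intro v w hadj hvw hwv
    rcases lt_trichotomy v w with h | h | h
    · exact key v w h hadj hvw hwv
    · exact absurd h hadj.ne
    · obtain ⟨u, h3, h4, h5, h6⟩ := key w v h hadj.symm hwv hvw
      exact ⟨u, h4, h3, h5.trans hwv, hvw.trans h6⟩

end Pool.Agent.Lib.MP_3d22c5_an
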