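import Mathlib
import Pool.Agent.Lib.MP_3d22c5_an.Auto

set_option autoImplicit false
set_option maxHeartbeats 1000000

namespace Pool.Agent.Lib.MP_3d22c5_an

open Matrix

variable {M : Type} [LieRing M] [LieAlgebra ℚ M] {n : ℕ} {G : SimpleGraph (Fin n)}

namespace Frame

variable (F : Frame G M)

/-- matrix of a functional on brackets -/
noncomputable def omega (ℓ : M →ₗ[ℚ] ℂ) : Matrix (Fin n) (Fin n) ℂ := fun s t => ℓ ⁅F.x s, F.x t⁆

theorem apply_lam (ℓ : M →ₗ[ℚ] ℂ) (ρ : Matrix (Fin n) (Fin n) ℚ) :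
    ℓ (F.lam ρ) = ∑ s, ∑ t, (ρ s t : ℂ) * F.omega ℓ s t := by
  rw [lam_apply, map_sum]
  apply Finset.sum_congr rfl
  intro s _
  rw [map_sum]
  apply Finset.sum_congr rfl
  intro t _
  rw [map_smul, Rat.smul_def]
  rfl

theorem omega_edge (ℓ : M →ₗ[ℚ] ℂ) (r : Matrix (Fin n) (Fin n) ℝ) (hr : r ∈ EdgeQ G F.Q) :
    ∑ s, ∑ t, (r s t : ℂ) * F.omega ℓ s t = 0 := by
  obtain ⟨ι, _, c, φ, hdec⟩ := decomp r
  have h1 : ∀ α, ∑ s, ∑ t, ((phim (φ α) r) s t : ℂ) * F.omega ℓ s t = 0 := by
    intro α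
    have h2 := (F.hrel _).mpr (F.hK r hr (φ α))
    have h3 : F.lam (phim (φ α) r) = 0 := h2
    have h4 := F.apply_lam ℓ (phim (φ α) r)
    rw [h3, map_zero] at h4
    exact h4.symm
  have h2 : ∀ s t, (r s t : ℂ) = ∑ α, (c α : ℂ) * ((phim (φ α) r) s t : ℂ) := by
    intro s t
    conv_lhs => rw [hdec]
    rw [Matrix.sum_apply]
    push_cast
    apply Finset.sum_congr rfl
    intro α _
    simp [toR]
  calc ∑ s, ∑ t, (r s t : ℂ) * F.omega ℓ s t
      = ∑ s, ∑ t, ∑ α, (c α : ℂ) * (((phim (φ α) r) s t : ℂ) * F.omega ℓ s t) := by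
        apply Finset.sum_congr rfl
        intro s _
        apply Finset.sum_congr rfl
        intro t _
        rw [h2 s t, Finset.sum_mul]
        apply Finset.sum_congr rfl
        intro α _
        ring
    _ = ∑ α, (c α : ℂ) * ∑ s, ∑ t, ((phim (φ α) r) s t : ℂ) * F.omega ℓ s t := by
        simp only [Finset.mul_sum]
        have : ∀ s, ∑ t, ∑ α, (c α : ℂ) * (((phim (φ α) r) s t : ℂ) * F.omega ℓ s t)
            = ∑ α, ∑ t, (c α : ℂ) * (((phim (φ α) r) s t : ℂ) * F.omega ℓ s t) := by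
          intro s
          exact Finset.sum_comm
        rw [Finset.sum_congr rfl (fun s _ => this s), Finset.sum_comm]
    _ = 0 := by
        apply Finset.sum_eq_zero
        intro α _
        rw [h1, mul_zero]

theorem spectral {z : Matrix (Fin n) (Fin n) ℚ} {P : Matrix (Fin n) (Fin n) ℝ}
    {ξ : Fin n → ℝ} (hP : IsUnit P.det) (hzP : toR z * P = P * diagonal ξ)
    (hinc : Inc G (F.Q * P))
    (hsmall : ∀ s t, s ≠ t → ξ s = ξ t → (∀ r, ξ r = ξ s → r = s ∨ r = t) → ¬ G.Adj s t)
    {A : Matrix (Fin n) (Fin n) ℚ} {R : Matrix (Fin n) (Fin n) ℂ} {μ : Fin n → ℂ}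
    (hR : IsUnit R.det) (hAR : A.map (algebraMap ℚ ℂ) * R = R * diagonal μ)
    (hzR : z.map (algebraMap ℚ ℂ) * R = R * diagonal (fun s => (ξ s : ℂ)))
    (hint : ∀ s, IsIntegral ℤ (μ s) ∧ IsIntegral ℤ (μ s)⁻¹ ∧ μ s ≠ 0)
    (hnorm : ∀ s, ‖μ s‖ ≠ 1)
    (hpair : ∀ s t, ‖μ s * μ t‖ = 1 → s ≠ t ∧ ξ s = ξ t ∧ ∀ r, ξ r = ξ s → r = s ∨ r = t)
    (g : M →ₗ[ℚ] M) (hgc : ∀ m, F.c (g m) = A *ᵥ F.c m)
    (hglie : ∀ m m', g ⁅m, m'⁆ = ⁅g m, g m'⁆)
    (ℓ : M →ₗ[ℚ] ℂ) (c : ℂ) (hℓ : ℓ ≠ 0) (h : ∀ m, ℓ (g m) = c * ℓ m) :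
    IsIntegral ℤ c ∧ IsIntegral ℤ c⁻¹ ∧ c ≠ 0 ∧ ‖c‖ ≠ 1 := by
  classical
  have hR1 : R⁻¹ * R = 1 := Matrix.nonsing_inv_mul R hR
  have hR2 : R * R⁻¹ = 1 := Matrix.mul_nonsing_inv R hR
  set Ac := A.map (algebraMap ℚ ℂ) with hAc
  by_cases hW : ∀ ρ, ℓ (F.lam ρ) = 0
  · -- the functional factors through `M / [M, M]`
    let y : Fin n → ℂ := fun s => ℓ (F.x s)
    have hWM : ∀ w ∈ WM M, ℓ w = 0 := by
      intro w hw
      rw [← F.range_lam] at hw
      obtain ⟨ρ, rfl⟩ := hw
      exact hW ρ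
    have hℓm : ∀ m, ℓ m = ∑ s, (F.c m s : ℂ) * y s := by
      intro m
      have h1 := hWM _ (F.sub_vec_mem m)
      rw [map_sub, sub_eq_zero] at h1
      rw [h1]
      change ℓ (∑ s, F.c m s • F.x s) = _
      rw [map_sum]
      apply Finset.sum_congr rfl
      intro s _
      rw [map_smul, Rat.smul_def]
    have hy0 : y ≠ 0 := by
      intro h0
      apply hℓ
      ext m
      rw [hℓm, h0]
      simp
    have hyA : y ᵥ* Ac = c • y := by
      ext s
      have h1 := h (F.x s)
      rw [hℓm, hgc, F.hcx] at h1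
      rw [Pi.smul_apply, smul_eq_mul]
      change _ = c * ℓ (F.x s)
      rw [← h1, Matrix.vecMul, dotProduct]
      apply Finset.sum_congr rfl
      intro t _
      simp [hAc, mul_comm]
    have hw : (y ᵥ* R) ᵥ* diagonal μ = c • (y ᵥ* R) := by
      rw [Matrix.vecMul_vecMul, ← hAR, ← Matrix.vecMul_vecMul, hyA, Matrix.smul_vecMul]
    have hw0 : y ᵥ* R ≠ 0 := by
      intro h0
      apply hy0
      have := congrArg (fun v => v ᵥ* R⁻¹) h0
      simpa [Matrix.vecMul_vecMul, hR2] using this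
    obtain ⟨s, hs⟩ := Function.ne_iff.mp hw0
    have h1 := congrFun hw s
    rw [Matrix.vecMul_diagonal, Pi.smul_apply, smul_eq_mul, mul_comm] at h1
    have h2 : μ s = c := mul_right_cancel₀ hs h1
    rw [← h2]
    exact ⟨(hint s).1, (hint s).2.1, (hint s).2.2, hnorm s⟩
  · set Ω := F.omega ℓ with hΩdef
    have hΩ0 : Ω ≠ 0 := by
      intro h0
      apply hW
      intro ρ
      rw [F.apply_lam, ← hΩdef, h0]
      simp
    have hΩA : Acᵀ * Ω * Ac = c • Ω := by
      ext s t
      have h1 := h ⁅F.x s, F.x t⁆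
      rw [hglie, F.lie_eq, F.apply_lam, hgc, hgc, F.hcx, F.hcx] at h1
      rw [Matrix.smul_apply, smul_eq_mul]
      change _ = c * ℓ ⁅F.x s, F.x t⁆
      rw [← h1]
      simp only [Matrix.mul_apply, Matrix.transpose_apply, Finset.sum_mul]
      rw [Finset.sum_comm]
      apply Finset.sum_congr rfl
      intro a _
      apply Finset.sum_congr rfl
      intro b _
      rw [Matrix.vecMulVec_apply, ← hΩdef]
      simp only [Matrix.mulVec_single_one, Matrix.col_apply, hAc, Matrix.map_apply]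
      push_cast
      rw [eq_ratCast, eq_ratCast]
      ring
    set Ωh := Rᵀ * Ω * R with hΩh
    have hΩh0 : Ωh ≠ 0 := by
      intro h0
      apply hΩ0
      have hRT : R⁻¹ᵀ * Rᵀ = 1 := by rw [← Matrix.transpose_mul, hR2, Matrix.transpose_one]
      calc Ω = (R⁻¹ᵀ * Rᵀ) * Ω * (R * R⁻¹) := by rw [hRT, hR2, one_mul, mul_one]
        _ = R⁻¹ᵀ * (Rᵀ * Ω * R) * R⁻¹ := by simp only [mul_assoc]
        _ = 0 := by rw [← hΩh, h0]; simp
    have hdiag : diagonal μ * Ωh * diagonal μ = c • Ωh := by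
      have hT : diagonal μ * Rᵀ = Rᵀ * Acᵀ := by
        rw [← Matrix.transpose_mul, hAR, Matrix.transpose_mul, Matrix.diagonal_transpose]
      calc diagonal μ * (Rᵀ * Ω * R) * diagonal μ
          = (diagonal μ * Rᵀ) * Ω * (R * diagonal μ) := by simp only [mul_assoc]
        _ = Rᵀ * (Acᵀ * Ω * Ac) * R := by rw [hT, ← hAR]; simp only [mul_assoc]
        _ = c • (Rᵀ * Ω * R) := by rw [hΩA, Matrix.mul_smul, Matrix.smul_mul]
    obtain ⟨s, t, hst⟩ : ∃ s t, Ωh s t ≠ 0 := by
      by_contra hcon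
      push Not at hcon
      apply hΩh0
      ext s t
      exact hcon s t
    have hc : μ s * μ t = c := by
      have h1 := congrFun (congrFun hdiag s) t
      rw [Matrix.mul_diagonal, Matrix.diagonal_mul, Matrix.smul_apply, smul_eq_mul] at h1
      have h2 : (μ s * μ t) * Ωh s t = c * Ωh s t := by linear_combination h1
      exact mul_right_cancel₀ hst h2
    rw [← hc]
    refine ⟨(hint s).1.mul (hint t).1, ?_, mul_ne_zero (hint s).2.2 (hint t).2.2, ?_⟩
    · rw [mul_inv]
      exact (hint s).2.1.mul (hint t).2.1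
    · intro hn
      obtain ⟨hne, hξst, hr⟩ := hpair s t hn
      have hnadj := hsmall s t hne hξst hr
      -- express `R` through `P`
      set Pc : Matrix (Fin n) (Fin n) ℂ := P.map (algebraMap ℝ ℂ) with hPcdef
      have hPcdet : IsUnit Pc.det := by
        have : Pc.det = algebraMap ℝ ℂ P.det := by
          rw [RingHom.map_det]
          rfl
        rw [this]
        exact hP.map _
      have hPc1 : Pc⁻¹ * Pc = 1 := Matrix.nonsing_inv_mul Pc hPcdet
      have hPc2 : Pc * Pc⁻¹ = 1 := Matrix.mul_nonsing_inv Pc hPcdet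
      have hPc : z.map (algebraMap ℚ ℂ) * Pc = Pc * diagonal (fun s => (ξ s : ℂ)) := by
        have h1 : z.map (algebraMap ℚ ℂ) = (toR z).map (algebraMap ℝ ℂ) := by
          ext i j
          simp [toR]
        have h2 : diagonal (fun s => (ξ s : ℂ)) = (diagonal ξ).map (algebraMap ℝ ℂ) := by
          rw [Matrix.diagonal_map (by simp)]
          rfl
        rw [h1, h2, ← Matrix.map_mul, ← Matrix.map_mul, hzP]
      set U := Pc⁻¹ * R with hU
      have hRU : R = Pc * U := by rw [hU, ← mul_assoc, hPc2, one_mul]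
      have hUc : diagonal (fun s => (ξ s : ℂ)) * U = U * diagonal (fun s => (ξ s : ℂ)) := by
        calc diagonal (fun s => (ξ s : ℂ)) * U
            = (Pc⁻¹ * Pc) * diagonal (fun s => (ξ s : ℂ)) * U := by rw [hPc1, one_mul]
          _ = Pc⁻¹ * (Pc * diagonal (fun s => (ξ s : ℂ))) * U := by simp only [mul_assoc]
          _ = Pc⁻¹ * (z.map (algebraMap ℚ ℂ)) * (Pc * U) := by rw [← hPc]; simp only [mul_assoc]
          _ = Pc⁻¹ * (z.map (algebraMap ℚ ℂ) * R) := by rw [← hRU]; simp only [mul_assoc]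
          _ = U * diagonal (fun s => (ξ s : ℂ)) := by rw [hzR, hU]; simp only [mul_assoc]
      have hU0 : ∀ a b, ξ a ≠ ξ b → U a b = 0 := by
        intro a b hab
        have h1 := congrFun (congrFun hUc a) b
        rw [Matrix.mul_diagonal, Matrix.diagonal_mul] at h1
        have h2 : ((ξ a : ℂ) - ξ b) * U a b = 0 := by linear_combination h1
        rcases mul_eq_zero.mp h2 with h3 | h3
        · exfalso
          apply hab
          rw [sub_eq_zero] at h3
          exact_mod_cast h3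
        · exact h3
      -- vanishing of the form on the eigenspace
      have hform : ∀ a b, ¬ G.Adj a b → (Pcᵀ * Ω * Pc) a b = 0 := by
        intro a b hab
        have hmem : P * Matrix.single a b (1 : ℝ) * Pᵀ ∈ EdgeQ G F.Q := by
          rw [mem_EdgeQ]
          have e : F.Q * (P * Matrix.single a b (1 : ℝ) * Pᵀ) * F.Qᵀ
              = (F.Q * P) * Matrix.single a b (1 : ℝ) * (F.Q * P)ᵀ := by
            rw [Matrix.transpose_mul]; simp only [mul_assoc]
          rw [e]
          exact hinc.edgeSym (edgeSym_single hab)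
        have h1 := F.omega_edge ℓ _ hmem
        have h2 : ∀ i j, (P * Matrix.single a b (1 : ℝ) * Pᵀ) i j = P i a * P j b := by
          intro i j
          rw [Matrix.mul_apply]
          simp only [Matrix.transpose_apply]
          rw [Finset.sum_eq_single b]
          · rw [Matrix.mul_single_apply_same, mul_one]
          · intro k _ hk
            rw [Matrix.mul_single_apply_of_ne _ _ _ _ _ hk, zero_mul]
          · intro hb; exact absurd (Finset.mem_univ b) hb
        rw [← hΩdef] at h1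
        rw [← h1]
        simp only [Matrix.mul_apply, Matrix.transpose_apply, Finset.sum_mul, h2]
        rw [Finset.sum_comm]
        apply Finset.sum_congr rfl
        intro i _
        apply Finset.sum_congr rfl
        intro j _
        rw [hPcdef, Matrix.map_apply, Matrix.map_apply]
        push_cast
        simp only [Complex.coe_algebraMap]
        ring
      apply hst
      have e : Ωh = Uᵀ * (Pcᵀ * Ω * Pc) * U := by
        rw [hΩh, hRU, Matrix.transpose_mul]; simp only [mul_assoc]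
      rw [e, Matrix.mul_apply]
      apply Finset.sum_eq_zero
      intro b _
      by_cases hb : ξ b = ξ t
      · rw [Matrix.mul_apply, Finset.sum_mul]
        apply Finset.sum_eq_zero
        intro a _
        rw [Matrix.transpose_apply]
        by_cases ha : ξ a = ξ s
        · have hab : ¬ G.Adj a b := by
            rcases hr a ha with rfl | rfl
            · rcases hr b (hb.trans hξst.symm) with rfl | rfl
              · exact G.loopless.irrefl _
              · exact hnadj
            · rcases hr b (hb.trans hξst.symm) with rfl | rfl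
              · exact fun h => hnadj h.symm
              · exact G.loopless.irrefl _
          rw [hform a b hab, mul_zero, zero_mul]
        · rw [hU0 a s ha, zero_mul, zero_mul]
      · rw [hU0 b t hb, mul_zero]

end Frame

end Pool.Agent.Lib.MP_3d22c5_an
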