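import Mathlib
import Pool.Agent.Lib.MP_3d22c5_an.MatrixForm
import Pool.Agent.Lib.MP_3d22c5_an.Spectral
import Pool.Agent.Lib.MP_3d22c5_an.Poly

set_option autoImplicit false
set_option maxHeartbeats 1000000

namespace Pool.Agent.Lib.MP_3d22c5_an

open Matrix Polynomial TensorProduct

variable {n : ℕ} {G : SimpleGraph (Fin n)}

/-- The sufficiency half for every real Lie algebra `L` with a graph basis and every rational
form `M` of `L`, from the twin conditions alone. -/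
theorem final_of_cond {L : Type} [LieRing L] [LieAlgebra ℝ L]
    {e : Module.Basis (Fin n ⊕ G.edgeSet) ℝ L} (he : IsGraphBasis G e)
    (hC1 : ∀ v, ∃ v', v' ≠ v ∧ Dom G v v' ∧ Dom G v' v)
    (hC2 : ∀ v w, G.Adj v w → Dom G v w → Dom G w v →
      ∃ u, u ≠ v ∧ u ≠ w ∧ Dom G u v ∧ Dom G v u)
    (M : Type) [LieRing M] [LieAlgebra ℚ M] [FiniteDimensional ℚ M]
    (Φ : (ℝ ⊗[ℚ] M) ≃ₗ⁅ℝ⁆ L) :
    ∃ g : M ≃ₗ⁅ℚ⁆ M, ∃ q : Polynomial ℤ,
      q.map (Int.castRingHom ℚ) = LinearMap.charpoly g.toLinearEquiv.toLinearMap ∧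
      (q.coeff 0 = 1 ∨ q.coeff 0 = -1) ∧
      ∀ z : ℂ, (q.map (Int.castRingHom ℂ)).IsRoot z → ‖z‖ ≠ 1 := by
  classical
  obtain ⟨F⟩ := exists_frame he Φ
  obtain ⟨z, P, ξ, hPdet, hzP, hinc, hξ⟩ := exists_z F.hQ F.hK
  have hmult : ∀ s, ∃ s', s' ≠ s ∧ ξ s' = ξ s := by
    intro s
    obtain ⟨s', hne, h1, h2⟩ := hC1 s
    exact ⟨s', hne, (hξ s' s).mpr ⟨h2, h1⟩⟩
  have hsmall : ∀ s t, s ≠ t → ξ s = ξ t → (∀ r, ξ r = ξ s → r = s ∨ r = t) → ¬ G.Adj s t := by
    intro s t _ hst hr hadj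
    obtain ⟨h1, h2⟩ := (hξ s t).mp hst
    obtain ⟨u, hu1, hu2, hu3, hu4⟩ := hC2 s t hadj h1 h2
    rcases hr u ((hξ u s).mpr ⟨hu3, hu4⟩) with h | h
    · exact hu1 h
    · exact hu2 h
  obtain ⟨A, R, μ, hR, hAR, hzR, hint, hnorm, hpair⟩ := matrix_form z P hPdet ξ hzP hmult
  -- `A` commutes with the real structure
  have hPc1 : P⁻¹ * P = 1 := Matrix.nonsing_inv_mul P hPdet
  have hPc2 : P * P⁻¹ = 1 := Matrix.mul_nonsing_inv P hPdet
  have hR1 : R⁻¹ * R = 1 := Matrix.nonsing_inv_mul R hR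
  have hR2 : R * R⁻¹ = 1 := Matrix.mul_nonsing_inv R hR
  -- `A` commutes with `z`
  have hcomm : A * z = z * A := by
    have h1 : (A * z).map (algebraMap ℚ ℂ) = (z * A).map (algebraMap ℚ ℂ) := by
      rw [Matrix.map_mul, Matrix.map_mul]
      have hA : A.map (algebraMap ℚ ℂ) = R * diagonal μ * R⁻¹ := by
        rw [← hAR, mul_assoc, hR2, mul_one]
      have hz : z.map (algebraMap ℚ ℂ) = R * diagonal (fun s => (ξ s : ℂ)) * R⁻¹ := by
        rw [← hzR, mul_assoc, hR2, mul_one]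
      have key : ∀ B C : Matrix (Fin n) (Fin n) ℂ, R * B * R⁻¹ * (R * C * R⁻¹)
          = R * (B * C) * R⁻¹ := by
        intro B C
        calc R * B * R⁻¹ * (R * C * R⁻¹) = R * B * (R⁻¹ * R) * C * R⁻¹ := by
              simp only [mul_assoc]
          _ = _ := by rw [hR1, mul_one]; simp only [mul_assoc]
      rw [hA, hz, key, key]
      congr 2
      rw [Matrix.diagonal_mul_diagonal, Matrix.diagonal_mul_diagonal]
      congr 1
      ext i
      exact mul_comm _ _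
    ext i j
    have := congrFun (congrFun h1 i) j
    simpa using this
  have hcommR : toR A * toR z = toR z * toR A := by
    rw [← toR_mul, ← toR_mul, hcomm]
  -- block structure
  set U := P⁻¹ * toR A * P with hU
  have hUc : U * diagonal ξ = diagonal ξ * U := by
    have hz : diagonal ξ = P⁻¹ * toR z * P := by
      rw [mul_assoc, hzP, ← mul_assoc, hPc1, one_mul]
    have key : ∀ B C : Matrix (Fin n) (Fin n) ℝ, P⁻¹ * B * P * (P⁻¹ * C * P)
        = P⁻¹ * (B * C) * P := by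
      intro B C
      calc P⁻¹ * B * P * (P⁻¹ * C * P) = P⁻¹ * B * (P * P⁻¹) * C * P := by
            simp only [mul_assoc]
        _ = _ := by rw [hPc2, mul_one]; simp only [mul_assoc]
    rw [hz, hU, key, key, hcommR]
  have hUinc : Inc G U := by
    intro u v huv
    have h1 := congrFun (congrFun hUc u) v
    rw [Matrix.mul_diagonal, Matrix.diagonal_mul] at h1
    have h2 : U u v * (ξ v - ξ u) = 0 := by linear_combination h1
    have h3 : ξ v - ξ u = 0 := (mul_eq_zero.mp h2).resolve_left huv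
    exact ((hξ u v).mp (by linarith)).1
  have hQP : IsUnit (F.Q * P).det := by rw [Matrix.det_mul]; exact F.hQ.mul hPdet
  have hAalg : toR A ∈ AlgQ G F.Q := by
    rw [mem_AlgQ]
    have e : F.Q * toR A * F.Q⁻¹ = (F.Q * P) * U * (F.Q * P)⁻¹ := by
      rw [Matrix.mul_inv_rev, hU]
      calc F.Q * toR A * F.Q⁻¹ = F.Q * ((P * P⁻¹) * toR A * (P * P⁻¹)) * F.Q⁻¹ := by
            rw [hPc2, one_mul, mul_one]
        _ = _ := by simp only [mul_assoc]
    rw [e]
    exact (hinc.mul hUinc).mul (hinc.inv hQP)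
  have hAdet : IsUnit A.det := by
    rw [isUnit_iff_ne_zero]
    intro h0
    have h1 : (A.map (algebraMap ℚ ℂ)).det = 0 := by
      have : (A.map (algebraMap ℚ ℂ)).det = algebraMap ℚ ℂ A.det := by
        rw [RingHom.map_det]; rfl
      rw [this, h0, map_zero]
    have h2 := congrArg Matrix.det hAR
    rw [Matrix.det_mul, Matrix.det_mul, h1, zero_mul, Matrix.det_diagonal] at h2
    have h3 : (∏ i, μ i) = 0 := (mul_eq_zero.mp h2.symm).resolve_left hR.ne_zero
    obtain ⟨i, _, hi⟩ := Finset.prod_eq_zero_iff.mp h3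
    exact (hint i).2.2 hi
  obtain ⟨g, hg⟩ := F.exists_auto hAalg hAdet
  refine ⟨g, ?_⟩
  apply good_poly M g.toLinearEquiv.toLinearMap
  intro ℓ c hℓ h
  exact F.spectral hPdet hzP hinc hsmall hR hAR hzR hint hnorm hpair
    g.toLinearEquiv.toLinearMap hg (fun m m' => g.map_lie m m') ℓ c hℓ h

end Pool.Agent.Lib.MP_3d22c5_an
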