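import Mathlib

set_option autoImplicit false

/-!
The Lie algebra of a finite simple graph over a field, its rational forms and Anosov automorphisms,
literally as in the problem.
-/

namespace Pool.Agent.Lib.MP_3d22c5_an.Own

open Polynomial

/-- The space `W`: alternating `S × S` matrices over `K` which vanish off the edges of `G`
(coordinates of the span of the `α ∧ β`, `αβ ∈ E`, in the second exterior power of `K^S`). -/
def edgeForms (K : Type) [Field K] {S : Type} (G : SimpleGraph S) : Submodule K (S → S → K) where
  carrier := {w | (∀ a b, w a b = - w b a) ∧ ∀ a b, ¬ G.Adj a b → w a b = 0}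
  add_mem' := by
    intro w w' h h'
    refine ⟨fun a b => ?_, fun a b hab => ?_⟩
    · simp only [Pi.add_apply]
      rw [h.1 a b, h'.1 a b]
      ring
    · simp only [Pi.add_apply]
      rw [h.2 a b hab, h'.2 a b hab, add_zero]
  zero_mem' := ⟨fun a b => by simp, fun a b _ => rfl⟩
  smul_mem' := by
    intro c w h
    refine ⟨fun a b => ?_, fun a b hab => ?_⟩
    · simp only [Pi.smul_apply, smul_eq_mul]
      rw [h.1 a b]
      ring
    · simp only [Pi.smul_apply, smul_eq_mul]
      rw [h.2 a b hab, mul_zero]

/-- The Lie algebra `n_G^K = V ⊕ W`, `V = K^S`. -/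
def GraphLie (K : Type) [Field K] {S : Type} (G : SimpleGraph S) : Type :=
  (S → K) × edgeForms K G

variable {K : Type} [Field K] {S : Type} {G : SimpleGraph S}

noncomputable instance : AddCommGroup (GraphLie K G) :=
  inferInstanceAs (AddCommGroup ((S → K) × edgeForms K G))

noncomputable instance {k : Type} [Field k] [Algebra k K] : Module k (GraphLie K G) :=
  inferInstanceAs (Module k ((S → K) × edgeForms K G))

open scoped Classical in
/-- `x ∧ y` for `x, y ∈ V`, restricted to the edges: the coordinate at `(a, b)` is
`x a * y b - x b * y a` if `ab` is an edge and `0` otherwise. -/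
noncomputable def wedge (G : SimpleGraph S) (x y : S → K) : edgeForms K G :=
  ⟨fun a b => if G.Adj a b then x a * y b - x b * y a else 0, by
    refine ⟨fun a b => ?_, fun a b hab => ?_⟩
    · beta_reduce
      by_cases h : G.Adj a b
      · rw [if_pos h, if_pos h.symm]
        ring
      · have h' : ¬ G.Adj b a := fun h' => h h'.symm
        rw [if_neg h, if_neg h', neg_zero]
    · exact if_neg hab⟩

/-- The bracket of `n_G^K`: `[(x, w), (y, w')] = (0, x ∧ y)`; so `[α, β] = α ∧ β` if `αβ` is an
edge, `[α, β] = 0` for other pairs of vertices, and `W` is central. -/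
noncomputable instance : Bracket (GraphLie K G) (GraphLie K G) :=
  ⟨fun x y => ((0 : S → K), wedge G x.1 y.1)⟩

@[ext] theorem GraphLie.ext {x y : GraphLie K G} (h1 : ∀ a, x.1 a = y.1 a)
    (h2 : ∀ a b, x.2.1 a b = y.2.1 a b) : x = y := by
  apply Prod.ext
  · exact funext h1
  · apply Subtype.ext
    exact funext fun a => funext fun b => h2 a b

open scoped Classical in
theorem wedge_apply (x y : S → K) (a b : S) :
    (wedge G x y).1 a b = if G.Adj a b then x a * y b - x b * y a else 0 := rfl

theorem lie_fst (x y : GraphLie K G) (a : S) : (⁅x, y⁆ : GraphLie K G).1 a = 0 := rfl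

open scoped Classical in
theorem lie_snd (x y : GraphLie K G) (a b : S) :
    (⁅x, y⁆ : GraphLie K G).2.1 a b = if G.Adj a b then x.1 a * y.1 b - x.1 b * y.1 a else 0 := rfl

theorem add_fst (x y : GraphLie K G) (a : S) : (x + y).1 a = x.1 a + y.1 a := rfl

theorem add_snd (x y : GraphLie K G) (a b : S) : (x + y).2.1 a b = x.2.1 a b + y.2.1 a b := rfl

theorem zero_fst (a : S) : (0 : GraphLie K G).1 a = 0 := rfl

theorem zero_snd (a b : S) : (0 : GraphLie K G).2.1 a b = 0 := rfl

theorem smul_fst {k : Type} [Field k] [Algebra k K] (c : k) (x : GraphLie K G) (a : S) :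
    (c • x).1 a = c • x.1 a := rfl

theorem smul_snd {k : Type} [Field k] [Algebra k K] (c : k) (x : GraphLie K G) (a b : S) :
    (c • x).2.1 a b = c • x.2.1 a b := rfl

noncomputable instance : LieRing (GraphLie K G) where
  add_lie := by
    intro x y z
    ext a b
    · simp [lie_fst, add_fst]
    · simp only [lie_snd, add_snd, add_fst]
      split_ifs
      · ring
      · simp
  lie_add := by
    intro x y z
    ext a b
    · simp [lie_fst, add_fst]
    · simp only [lie_snd, add_snd, add_fst]
      split_ifs
      · ring
      · simp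
  lie_self := by
    intro x
    ext a b
    · simp [lie_fst, zero_fst]
    · simp only [lie_snd, zero_snd]
      split_ifs
      · ring
      · rfl
  leibniz_lie := by
    intro x y z
    ext a b
    · simp [lie_fst, add_fst]
    · simp [lie_snd, add_snd, lie_fst]

noncomputable instance {k : Type} [Field k] [Algebra k K] : LieAlgebra k (GraphLie K G) where
  lie_smul := by
    intro c x y
    ext a b
    · simp [lie_fst, smul_fst]
    · simp only [lie_snd, smul_snd, smul_fst]
      split_ifs
      · simp only [smul_sub, mul_smul_comm]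
      · simp

/-- A rational form of the real Lie algebra `L`: a Lie subalgebra over `ℚ` with a `ℚ`-basis which
is an `ℝ`-basis of `L`. -/
def IsRationalForm {L : Type} [LieRing L] [LieAlgebra ℝ L] [LieAlgebra ℚ L]
    (m : LieSubalgebra ℚ L) : Prop :=
  ∃ (ι : Type) (b : Module.Basis ι ℚ m) (B : Module.Basis ι ℝ L), ∀ i, (b i : L) = B i

/-- A rational Lie algebra `M` is Anosov: it is finite dimensional and has an automorphism whose
characteristic polynomial has integer coefficients and constant term `1` or `-1`, and no complex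
root of absolute value `1`. -/
def IsAnosov (M : Type) [LieRing M] [LieAlgebra ℚ M] : Prop :=
  ∃ (_ : Module.Finite ℚ M) (φ : M ≃ₗ⁅ℚ⁆ M) (p : ℤ[X]),
    p.map (Int.castRingHom ℚ) = LinearMap.charpoly φ.toLinearEquiv.toLinearMap ∧
    (p.coeff 0 = 1 ∨ p.coeff 0 = -1) ∧
    ∀ z : ℂ, (p.map (Int.castRingHom ℂ)).IsRoot z → ‖z‖ ≠ 1

/-- `v` and `w` have the same neighbours outside `{v, w}`. -/
def Twins {S : Type} (G : SimpleGraph S) (v w : S) : Prop :=
  ∀ x, x ≠ v → x ≠ w → (G.Adj v x ↔ G.Adj w x)

end Pool.Agent.Lib.MP_3d22c5_an.Own
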