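import Mathlib
import Pool.Agent.Lib.MP_3d22c5_an.OwnDefs
import Pool.Agent.Lib.MP_3d22c5_an.FinalCond
import Pool.Agent.Lib.MP_3d22c5_an.Necessity2

set_option autoImplicit false

namespace Pool.Agent.Lib.MP_3d22c5_an.Own

open Polynomial TensorProduct

/-! ### The graph basis for graphs on `Fin n` -/

section basis

variable {n : ℕ} (K : Type) [Field K] (G : SimpleGraph (Fin n))

open scoped Classical in
/-- the element with given coordinates -/
noncomputable def ofCoords (f : Fin n ⊕ G.edgeSet → K) : GraphLie K G :=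
  (fun i => f (Sum.inl i), ⟨fun a b => if h : G.Adj a b then
      (if a < b then f (Sum.inr ⟨s(a, b), G.mem_edgeSet.mpr h⟩)
        else - f (Sum.inr ⟨s(a, b), G.mem_edgeSet.mpr h⟩)) else 0, by
    refine ⟨fun a b => ?_, fun a b hab => ?_⟩
    · beta_reduce
      by_cases h : G.Adj a b
      · rw [dif_pos h, dif_pos h.symm]
        have e : (⟨s(a, b), G.mem_edgeSet.mpr h⟩ : G.edgeSet)
            = ⟨s(b, a), G.mem_edgeSet.mpr h.symm⟩ := Subtype.ext Sym2.eq_swap
        rcases lt_or_gt_of_ne h.ne with hlt | hgt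
        · rw [if_pos hlt, if_neg (not_lt.mpr hlt.le), e, neg_neg]
        · rw [if_neg (not_lt.mpr (le_of_lt hgt)), if_pos hgt, e]
      · have h' : ¬ G.Adj b a := fun h' => h h'.symm
        rw [dif_neg h, dif_neg h', neg_zero]
    · exact dif_neg hab⟩)

theorem ofCoords_fst (f : Fin n ⊕ G.edgeSet → K) (i : Fin n) :
    (ofCoords K G f).1 i = f (Sum.inl i) := rfl

open scoped Classical in
theorem ofCoords_snd (f : Fin n ⊕ G.edgeSet → K) (a b : Fin n) :
    (ofCoords K G f).2.1 a b = if h : G.Adj a b then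
      (if a < b then f (Sum.inr ⟨s(a, b), G.mem_edgeSet.mpr h⟩)
        else - f (Sum.inr ⟨s(a, b), G.mem_edgeSet.mpr h⟩)) else 0 := rfl

/-- coordinates -/
noncomputable def coords : GraphLie K G ≃ₗ[K] (Fin n ⊕ G.edgeSet → K) where
  toFun x := Sum.elim x.1 (fun e => x.2.1 e.1.inf e.1.sup)
  map_add' := by
    intro x y
    funext i
    rcases i with i | e
    · rfl
    · rfl
  map_smul' := by
    intro c x
    funext i
    rcases i with i | e
    · rfl
    · rfl
  invFun := ofCoords K G
  left_inv := by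
    intro x
    apply GraphLie.ext
    · intro a
      rfl
    · intro a b
      rw [ofCoords_snd]
      by_cases h : G.Adj a b
      · rw [dif_pos h]
        rcases lt_or_gt_of_ne h.ne with hlt | hgt
        · rw [if_pos hlt]
          simp only [Sum.elim_inr, Sym2.inf_mk, Sym2.sup_mk]
          rw [inf_eq_left.mpr hlt.le, sup_eq_right.mpr hlt.le]
        · rw [if_neg (not_lt.mpr (le_of_lt hgt))]
          simp only [Sum.elim_inr, Sym2.inf_mk, Sym2.sup_mk]
          rw [inf_eq_right.mpr (le_of_lt hgt), sup_eq_left.mpr (le_of_lt hgt)]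
          exact (x.2.2.1 a b).symm
      · rw [dif_neg h]
        exact (x.2.2.2 a b h).symm
  right_inv := by
    intro f
    funext i
    rcases i with i | ⟨e, he⟩
    · rfl
    · induction e using Sym2.ind with
      | _ a b =>
        have h : G.Adj a b := G.mem_edgeSet.mp he
        simp only [Sum.elim_inr, Sym2.inf_mk, Sym2.sup_mk]
        rcases lt_or_gt_of_ne h.ne with hlt | hgt
        · have h1 : a ⊓ b = a := inf_eq_left.mpr hlt.le
          have h2 : a ⊔ b = b := sup_eq_right.mpr hlt.le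
          have h3 : (ofCoords K G f).2.1 (a ⊓ b) (a ⊔ b) = (ofCoords K G f).2.1 a b := by
            rw [h1, h2]
          rw [h3, ofCoords_snd, dif_pos h, if_pos hlt]
        · have h1 : a ⊓ b = b := inf_eq_right.mpr (le_of_lt hgt)
          have h2 : a ⊔ b = a := sup_eq_left.mpr (le_of_lt hgt)
          have h3 : (ofCoords K G f).2.1 (a ⊓ b) (a ⊔ b) = (ofCoords K G f).2.1 b a := by
            rw [h1, h2]
          have e : (⟨s(b, a), G.mem_edgeSet.mpr h.symm⟩ : G.edgeSet) = ⟨s(a, b), he⟩ :=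
            Subtype.ext Sym2.eq_swap
          rw [h3, ofCoords_snd, dif_pos h.symm, if_pos hgt, e]

/-- the graph basis -/
noncomputable def gbasis : Module.Basis (Fin n ⊕ G.edgeSet) K (GraphLie K G) :=
  Module.Basis.ofEquivFun (coords K G)

open scoped Classical in
theorem gbasis_apply (i : Fin n ⊕ G.edgeSet) :
    gbasis K G i = ofCoords K G (Pi.single i 1) := by
  rw [gbasis, Module.Basis.coe_ofEquivFun]
  change ofCoords K G _ = _
  refine congrArg (ofCoords K G) ?_
  funext j
  simp only [Pi.single_apply]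

theorem gbasis_isGraphBasis : IsGraphBasis G (gbasis K G) := by
  classical
  refine ⟨?_, ?_, ?_⟩
  · intro i j h hij
    apply GraphLie.ext
    · intro a
      rw [lie_fst, gbasis_apply, ofCoords_fst, Pi.single_apply, if_neg (by simp)]
    · intro a b
      rw [lie_snd, gbasis_apply, gbasis_apply, gbasis_apply, ofCoords_snd]
      simp only [ofCoords_fst, Pi.single_apply, Sum.inl.injEq, Sum.inr.injEq, Subtype.mk.injEq]
      by_cases hab : G.Adj a b
      · rw [if_pos hab, dif_pos hab]
        rcases lt_or_gt_of_ne hab.ne with hlt | hgt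
        · rw [if_pos hlt]
          by_cases e : s(a, b) = s(i, j)
          · rw [if_pos e]
            rcases Sym2.eq_iff.mp e with ⟨rfl, rfl⟩ | ⟨rfl, rfl⟩
            · simp [hab.ne, hab.ne']
            · exact absurd hij (not_lt.mpr hlt.le)
          · rw [if_neg e]
            have e1 : ¬ (a = i ∧ b = j) := fun h' => e (by rw [h'.1, h'.2])
            have e2 : ¬ (b = i ∧ a = j) := fun h' => e (by rw [h'.1, h'.2]; exact Sym2.eq_swap)
            by_cases h1 : a = i
            · have h2 : ¬ b = j := fun h' => e1 ⟨h1, h'⟩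
              have h3 : ¬ b = i := fun h' => hab.ne (h1.trans h'.symm)
              simp [h2, h3]
            · by_cases h4 : b = i
              · have h5 : ¬ a = j := fun h' => e2 ⟨h4, h'⟩
                simp [h1, h5]
              · simp [h1, h4]
        · rw [if_neg (not_lt.mpr (le_of_lt hgt))]
          by_cases e : s(a, b) = s(i, j)
          · rw [if_pos e]
            rcases Sym2.eq_iff.mp e with ⟨rfl, rfl⟩ | ⟨rfl, rfl⟩
            · exact absurd hij (not_lt.mpr (le_of_lt hgt))
            · simp [hab.ne, hab.ne']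
          · rw [if_neg e, neg_zero]
            have e1 : ¬ (a = i ∧ b = j) := fun h' => e (by rw [h'.1, h'.2])
            have e2 : ¬ (b = i ∧ a = j) := fun h' => e (by rw [h'.1, h'.2]; exact Sym2.eq_swap)
            by_cases h1 : a = i
            · have h2 : ¬ b = j := fun h' => e1 ⟨h1, h'⟩
              have h3 : ¬ b = i := fun h' => hab.ne (h1.trans h'.symm)
              simp [h2, h3]
            · by_cases h4 : b = i
              · have h5 : ¬ a = j := fun h' => e2 ⟨h4, h'⟩
                simp [h1, h5]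
              · simp [h1, h4]
      · rw [if_neg hab, dif_neg hab]
  · intro i j h
    apply GraphLie.ext
    · intro a
      rfl
    · intro a b
      rw [lie_snd, gbasis_apply, gbasis_apply, zero_snd]
      simp only [ofCoords_fst, Pi.single_apply, Sum.inl.injEq]
      by_cases hab : G.Adj a b
      · rw [if_pos hab]
        have e1 : ¬ (a = i ∧ b = j) := by
          rintro ⟨rfl, rfl⟩
          exact h hab
        have e2 : ¬ (b = i ∧ a = j) := by
          rintro ⟨rfl, rfl⟩
          exact h hab.symm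
        by_cases h1 : a = i
        · have h2 : ¬ b = j := fun h' => e1 ⟨h1, h'⟩
          have h3 : ¬ b = i := fun h' => hab.ne (h1.trans h'.symm)
          simp [h2, h3]
        · by_cases h4 : b = i
          · have h5 : ¬ a = j := fun h' => e2 ⟨h4, h'⟩
            simp [h1, h5]
          · simp [h1, h4]
      · rw [if_neg hab]
  · intro e k
    apply GraphLie.ext
    · intro a
      rfl
    · intro a b
      rw [lie_snd, gbasis_apply, zero_snd]
      have h0 : ∀ c : Fin n, (ofCoords K G (Pi.single (Sum.inr e) 1)).1 c = 0 := by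
        intro c
        rw [ofCoords_fst, Pi.single_apply, if_neg (by simp)]
      rw [h0, h0]
      simp

end basis

/-! ### Relabelling the vertices -/

section relabel

variable {K : Type} [Field K] {k : Type} [Field k] [Algebra k K] {S T : Type}

/-- relabelling the vertices -/
noncomputable def relabel (k : Type) [Field k] [Algebra k K] (G : SimpleGraph S) (σ : S ≃ T) :
    GraphLie K G ≃ₗ⁅k⁆ GraphLie K (G.comap σ.symm) where
  toFun x := (fun a => x.1 (σ.symm a), ⟨fun a b => x.2.1 (σ.symm a) (σ.symm b),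
    fun a b => x.2.2.1 _ _, fun a b hab => x.2.2.2 _ _ hab⟩)
  map_add' := fun x y => rfl
  map_smul' := fun c x => rfl
  map_lie' := by
    intro x y
    apply GraphLie.ext
    · intro a
      rfl
    · intro a b
      rfl
  invFun x := (fun a => x.1 (σ a), ⟨fun a b => x.2.1 (σ a) (σ b),
    fun a b => x.2.2.1 _ _, fun a b hab => x.2.2.2 _ _ (by
      rw [SimpleGraph.comap_adj, σ.symm_apply_apply, σ.symm_apply_apply]
      exact hab)⟩)
  left_inv := by
    intro x
    apply GraphLie.ext
    · intro a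
      change x.1 (σ.symm (σ a)) = x.1 a
      rw [σ.symm_apply_apply]
    · intro a b
      change x.2.1 (σ.symm (σ a)) (σ.symm (σ b)) = x.2.1 a b
      rw [σ.symm_apply_apply, σ.symm_apply_apply]
  right_inv := by
    intro x
    apply GraphLie.ext
    · intro a
      change x.1 (σ (σ.symm a)) = x.1 a
      rw [σ.apply_symm_apply]
    · intro a b
      change x.2.1 (σ (σ.symm a)) (σ (σ.symm b)) = x.2.1 a b
      rw [σ.apply_symm_apply, σ.apply_symm_apply]

end relabel

/-! ### Transport -/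

theorem IsAnosov.congr {M N : Type} [LieRing M] [LieAlgebra ℚ M] [LieRing N] [LieAlgebra ℚ N]
    (e : M ≃ₗ⁅ℚ⁆ N) (h : IsAnosov M) : IsAnosov N := by
  obtain ⟨hfin, φ, p, hp, hp0, hroot⟩ := h
  have hfinN : Module.Finite ℚ N := Module.Finite.equiv e.toLinearEquiv
  refine ⟨hfinN, (e.symm.trans φ).trans e, p, ?_, hp0, hroot⟩
  rw [hp, ← LinearEquiv.charpoly_conj e.toLinearEquiv]
  rfl

/-- the criterion -/
def Crit {S : Type} (G : SimpleGraph S) : Prop :=
  (∀ v, ∃ v', v' ≠ v ∧ Twins G v v') ∧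
    ∀ v w, G.Adj v w → Twins G v w → ∃ u, u ≠ v ∧ u ≠ w ∧ Twins G u v

theorem twins_iff {n : ℕ} (G : SimpleGraph (Fin n)) (v w : Fin n) :
    Twins G v w ↔ Dom G v w ∧ Dom G w v := by
  constructor
  · intro h
    refine ⟨fun x hx => ?_, fun x hx => ?_⟩
    · by_cases e : x = w
      · exact Or.inl e
      · exact Or.inr ((h x hx.ne' e).mp hx)
    · by_cases e : x = v
      · exact Or.inl e
      · exact Or.inr ((h x e hx.ne').mpr hx)
  · rintro ⟨h1, h2⟩ x hxv hxw
    refine ⟨fun hx => ?_, fun hx => ?_⟩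
    · exact (h1 x hx).resolve_left hxw
    · exact (h2 x hx).resolve_left hxv

theorem twins_comap {S T : Type} (G : SimpleGraph S) (σ : S ≃ T) (v w : T) :
    Twins (G.comap σ.symm) v w ↔ Twins G (σ.symm v) (σ.symm w) := by
  constructor
  · intro h x hxv hxw
    have h1 := h (σ x) (fun e => hxv (by rw [← e, σ.symm_apply_apply]))
      (fun e => hxw (by rw [← e, σ.symm_apply_apply]))
    rw [SimpleGraph.comap_adj, SimpleGraph.comap_adj, σ.symm_apply_apply] at h1
    exact h1
  · intro h x hxv hxw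
    rw [SimpleGraph.comap_adj, SimpleGraph.comap_adj]
    exact h _ (fun e => hxv (σ.symm.injective e)) (fun e => hxw (σ.symm.injective e))

theorem crit_comap {S T : Type} (G : SimpleGraph S) (σ : S ≃ T) :
    Crit (G.comap σ.symm) ↔ Crit G := by
  constructor
  · rintro ⟨h1, h2⟩
    refine ⟨fun v => ?_, fun v w hvw ht => ?_⟩
    · obtain ⟨v', hne, h⟩ := h1 (σ v)
      rw [twins_comap, σ.symm_apply_apply] at h
      exact ⟨σ.symm v', fun e => hne (by rw [← e, σ.apply_symm_apply]), h⟩
    · obtain ⟨u, hu1, hu2, h⟩ := h2 (σ v) (σ w) (by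
        rw [SimpleGraph.comap_adj, σ.symm_apply_apply, σ.symm_apply_apply]
        exact hvw) (by
        rw [twins_comap, σ.symm_apply_apply, σ.symm_apply_apply]
        exact ht)
      rw [twins_comap, σ.symm_apply_apply] at h
      exact ⟨σ.symm u, fun e => hu1 (by rw [← e, σ.apply_symm_apply]),
        fun e => hu2 (by rw [← e, σ.apply_symm_apply]), h⟩
  · rintro ⟨h1, h2⟩
    refine ⟨fun v => ?_, fun v w hvw ht => ?_⟩
    · obtain ⟨v', hne, h⟩ := h1 (σ.symm v)
      refine ⟨σ v', fun e => hne (by rw [← e, σ.symm_apply_apply]), ?_⟩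
      rw [twins_comap, σ.symm_apply_apply]
      exact h
    · rw [twins_comap] at ht
      obtain ⟨u, hu1, hu2, h⟩ := h2 _ _ hvw ht
      refine ⟨σ u, fun e => hu1 (by rw [← e, σ.symm_apply_apply]),
        fun e => hu2 (by rw [← e, σ.symm_apply_apply]), ?_⟩
      rw [twins_comap, σ.symm_apply_apply]
      exact h

/-- (1) implies (3) -/
theorem crit_of_isAnosov {S : Type} [Finite S] (G : SimpleGraph S)
    (h : IsAnosov (GraphLie ℚ G)) : Crit G := by
  obtain ⟨n, ⟨σ⟩⟩ := Finite.exists_equiv_fin S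
  rw [← crit_comap G σ]
  obtain ⟨hfin, φ, p, hp, hp0, hroot⟩ := h.congr (relabel ℚ G σ)
  obtain ⟨h1, h2⟩ := necessity (gbasis_isGraphBasis ℚ (G.comap σ.symm)) φ p hp hp0 hroot
  refine ⟨fun v => ?_, fun v w hvw ht => ?_⟩
  · obtain ⟨v', hne, h3, h4⟩ := h1 v
    exact ⟨v', hne, (twins_iff _ v v').mpr ⟨h3, h4⟩⟩
  · obtain ⟨h3, h4⟩ := (twins_iff _ v w).mp ht
    obtain ⟨u, hu1, hu2, h5, h6⟩ := h2 v w hvw h3 h4
    exact ⟨u, hu1, hu2, (twins_iff _ u v).mpr ⟨h5, h6⟩⟩

instance {S : Type} (G : SimpleGraph S) : IsScalarTower ℚ ℝ (GraphLie ℝ G) :=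
  ⟨fun a b x => by
    apply GraphLie.ext
    · intro c
      simp only [smul_fst, smul_assoc]
    · intro c d
      simp only [smul_snd, smul_assoc]⟩

theorem lie_map_of_generators {T N : Type} [LieRing T] [LieRing N] (f : T → N) (h0 : f 0 = 0)
    (hadd : ∀ x y, f (x + y) = f x + f y) (P : T → Prop)
    (ind : ∀ Q : T → Prop, Q 0 → (∀ t, P t → Q t) → (∀ x y, Q x → Q y → Q (x + y)) → ∀ x, Q x)
    (h : ∀ x y, P x → P y → f ⁅x, y⁆ = ⁅f x, f y⁆) (x y : T) : f ⁅x, y⁆ = ⁅f x, f y⁆ := by
  revert x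
  refine ind _ ?_ ?_ ?_
  · rw [zero_lie, h0, zero_lie]
  · intro x hx
    revert y
    refine ind _ ?_ ?_ ?_
    · rw [lie_zero, h0, lie_zero]
    · intro y hy
      exact h x y hx hy
    · intro y z hy hz
      rw [lie_add, hadd, hadd, lie_add, hy, hz]
  · intro x z hx hz
    rw [add_lie, hadd, hadd, add_lie, hx, hz]

/-- (3) implies (2) -/
theorem isAnosov_of_crit {S : Type} [Finite S] (G : SimpleGraph S) (h : Crit G)
    (m : LieSubalgebra ℚ (GraphLie ℝ G)) (hm : IsRationalForm m) : IsAnosov m := by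
  classical
  obtain ⟨n, ⟨σ⟩⟩ := Finite.exists_equiv_fin S
  rw [← crit_comap G σ] at h
  obtain ⟨ι, b, B, hb⟩ := hm
  have hfinL : Module.Finite ℝ (GraphLie ℝ G) :=
    Module.Finite.of_basis ((gbasis ℝ (G.comap σ.symm)).map (relabel ℝ G σ).symm.toLinearEquiv)
  have hι : Finite ι := Module.Finite.finite_basis B
  have hfin : Module.Finite ℚ m := Module.Finite.of_basis b
  set Φ0 : (ℝ ⊗[ℚ] m) ≃ₗ[ℝ] GraphLie ℝ G :=
    (Algebra.TensorProduct.basis ℝ b).equiv B (Equiv.refl ι) with hΦ0
  have h1 : ∀ x : m, Φ0 ((1 : ℝ) ⊗ₜ[ℚ] x) = (x : GraphLie ℝ G) := by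
    intro x
    have e : (Φ0.toLinearMap.restrictScalars ℚ) ∘ₗ (TensorProduct.mk ℚ ℝ m 1)
        = m.toSubmodule.subtype := by
      apply b.ext
      intro i
      have e1 : Φ0 ((1 : ℝ) ⊗ₜ[ℚ] b i) = B i := by
        have e2 := (Algebra.TensorProduct.basis ℝ b).equiv_apply i B (Equiv.refl ι)
        rw [Algebra.TensorProduct.basis_apply] at e2
        exact e2
      exact e1.trans (hb i).symm
    exact congrArg (fun l => l x) e
  have h2 : ∀ (r : ℝ) (x : m), Φ0 (r ⊗ₜ[ℚ] x) = r • (x : GraphLie ℝ G) := by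
    intro r x
    have e : (r ⊗ₜ[ℚ] x : ℝ ⊗[ℚ] m) = r • ((1 : ℝ) ⊗ₜ[ℚ] x) := by
      rw [TensorProduct.smul_tmul', smul_eq_mul, mul_one]
    rw [e, map_smul, h1]
  have h3 : ∀ x y : ℝ ⊗[ℚ] m, Φ0 ⁅x, y⁆ = ⁅Φ0 x, Φ0 y⁆ := by
    refine lie_map_of_generators (fun z => Φ0 z) (map_zero Φ0) (map_add Φ0)
      (fun z => ∃ (r : ℝ) (x : m), z = r ⊗ₜ[ℚ] x) (fun Q h0 ht ha x => ?_) ?_
    · exact TensorProduct.induction_on x h0 (fun r x => ht _ ⟨r, x, rfl⟩) ha
    · rintro _ _ ⟨r, x, rfl⟩ ⟨s, y, rfl⟩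
      rw [h2, h2, smul_lie, lie_smul, ← mul_smul]
      exact h2 (r * s) ⁅x, y⁆
  set Φ : (ℝ ⊗[ℚ] m) ≃ₗ⁅ℝ⁆ GraphLie ℝ G :=
    { Φ0 with map_lie' := fun {x y} => h3 x y } with hΦ
  obtain ⟨g, q, hq, hq0, hroot⟩ := final_of_cond (gbasis_isGraphBasis ℝ (G.comap σ.symm))
    (fun v => by
      obtain ⟨v', hne, h4⟩ := h.1 v
      obtain ⟨h5, h6⟩ := (twins_iff _ v v').mp h4
      exact ⟨v', hne, h5, h6⟩)
    (fun v w hvw h4 h5 => by
      obtain ⟨u, hu1, hu2, h6⟩ := h.2 v w hvw ((twins_iff _ v w).mpr ⟨h4, h5⟩)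
      obtain ⟨h7, h8⟩ := (twins_iff _ u v).mp h6
      exact ⟨u, hu1, hu2, h7, h8⟩)
    m (Φ.trans (relabel ℝ G σ))
  exact ⟨hfin, g, q, hq, hq0, hroot⟩

/-! ### The standard form is a rational form -/

/-- The inclusion of the standard form, as a function -/
noncomputable def castFun {S : Type} (G : SimpleGraph S) (x : GraphLie ℚ G) : GraphLie ℝ G :=
  (fun a => ((x.1 a : ℚ) : ℝ), ⟨fun a b => ((x.2.1 a b : ℚ) : ℝ), fun a b => by
    beta_reduce
    rw [x.2.2.1 a b, Rat.cast_neg], fun a b hab => by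
    beta_reduce
    rw [x.2.2.2 a b hab, Rat.cast_zero]⟩)

theorem castFun_fst {S : Type} (G : SimpleGraph S) (x : GraphLie ℚ G) (a : S) :
    (castFun G x).1 a = ((x.1 a : ℚ) : ℝ) := rfl

theorem castFun_snd {S : Type} (G : SimpleGraph S) (x : GraphLie ℚ G) (a b : S) :
    (castFun G x).2.1 a b = ((x.2.1 a b : ℚ) : ℝ) := rfl

/-- The inclusion of the standard form -/
noncomputable def castHom {S : Type} (G : SimpleGraph S) : GraphLie ℚ G →ₗ⁅ℚ⁆ GraphLie ℝ G where
  toFun := castFun G
  map_add' := by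
    intro x y
    apply GraphLie.ext
    · intro a
      rw [castFun_fst, add_fst, add_fst, castFun_fst, castFun_fst, Rat.cast_add]
    · intro a b
      rw [castFun_snd, add_snd, add_snd, castFun_snd, castFun_snd, Rat.cast_add]
  map_smul' := by
    intro c x
    apply GraphLie.ext
    · intro a
      rw [RingHom.id_apply, castFun_fst, smul_fst, smul_fst, castFun_fst, smul_eq_mul,
        Rat.cast_mul, Rat.smul_def]
    · intro a b
      rw [RingHom.id_apply, castFun_snd, smul_snd, smul_snd, castFun_snd, smul_eq_mul,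
        Rat.cast_mul, Rat.smul_def]
  map_lie' := by
    classical
    intro x y
    apply GraphLie.ext
    · intro a
      exact Rat.cast_zero
    · intro a b
      change (castFun G ⁅x, y⁆).2.1 a b = (⁅castFun G x, castFun G y⁆ : GraphLie ℝ G).2.1 a b
      rw [lie_snd, castFun_snd, lie_snd]
      by_cases h : G.Adj a b
      · rw [if_pos h, if_pos h, Rat.cast_sub, Rat.cast_mul, Rat.cast_mul]
        rfl
      · rw [if_neg h, if_neg h, Rat.cast_zero]

theorem castHom_injective {S : Type} (G : SimpleGraph S) : Function.Injective (castHom G) := by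
  intro x y h
  apply GraphLie.ext
  · intro a
    exact Rat.cast_injective (congrArg (fun z : GraphLie ℝ G => z.1 a) h)
  · intro a b
    exact Rat.cast_injective (congrArg (fun z : GraphLie ℝ G => z.2.1 a b) h)

theorem castHom_gbasis {n : ℕ} (G : SimpleGraph (Fin n)) (i : Fin n ⊕ G.edgeSet) :
    castHom G (gbasis ℚ G i) = gbasis ℝ G i := by
  classical
  have h0 : ∀ j : Fin n ⊕ G.edgeSet,
      (((Pi.single i 1 : Fin n ⊕ G.edgeSet → ℚ) j : ℚ) : ℝ)
        = (Pi.single i 1 : Fin n ⊕ G.edgeSet → ℝ) j := by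
    intro j
    rw [Pi.single_apply, Pi.single_apply]
    split_ifs
    · exact Rat.cast_one
    · exact Rat.cast_zero
  rw [gbasis_apply, gbasis_apply]
  apply GraphLie.ext
  · intro a
    exact h0 _
  · intro a b
    change (((ofCoords ℚ G (Pi.single i 1)).2.1 a b : ℚ) : ℝ) = _
    rw [ofCoords_snd, ofCoords_snd]
    by_cases h : G.Adj a b
    · rw [dif_pos h, dif_pos h]
      by_cases hlt : a < b
      · rw [if_pos hlt, if_pos hlt]
        exact h0 _
      · rw [if_neg hlt, if_neg hlt, Rat.cast_neg]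
        exact congrArg Neg.neg (h0 _)
    · rw [dif_neg h, dif_neg h, Rat.cast_zero]

theorem isRationalForm_range {S : Type} [Finite S] (G : SimpleGraph S) :
    IsRationalForm (castHom G).range := by
  obtain ⟨n, ⟨σ⟩⟩ := Finite.exists_equiv_fin S
  refine ⟨Fin n ⊕ (G.comap σ.symm).edgeSet,
    ((gbasis ℚ (G.comap σ.symm)).map (relabel ℚ G σ).symm.toLinearEquiv).map
      (LieEquiv.ofInjective (castHom G) (castHom_injective G)).toLinearEquiv,
    (gbasis ℝ (G.comap σ.symm)).map (relabel ℝ G σ).symm.toLinearEquiv, fun i => ?_⟩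
  have h := congrArg (relabel ℝ G σ).symm (castHom_gbasis (G.comap σ.symm) i)
  rw [Module.Basis.map_apply, Module.Basis.map_apply, Module.Basis.map_apply]
  exact h

/-- The main theorem. -/
theorem main {S : Type} [Finite S] (G : SimpleGraph S) :
    List.TFAE [IsAnosov (GraphLie ℚ G),
      ∀ m : LieSubalgebra ℚ (GraphLie ℝ G), IsRationalForm m → IsAnosov m,
      Crit G] := by
  tfae_have 1 → 3 := crit_of_isAnosov G
  tfae_have 3 → 2 := fun h m hm => isAnosov_of_crit G h m hm
  tfae_have 2 → 1 := fun h => (h _ (isRationalForm_range G)).congr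
    (LieEquiv.ofInjective (castHom G) (castHom_injective G)).symm
  tfae_finish

end Pool.Agent.Lib.MP_3d22c5_an.Own
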